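import Pool.Agent.H85.Zar.Basic

set_option linter.style.longLine false

/-! Base change of homomorphisms of power series rings. -/

namespace H85.Zar

open MvPowerSeries H9.Zar

section
variable {L : Type*} [Field L] {m p q : ℕ}

theorem constantCoeff_algHom (Ψ : MvPowerSeries (Fin m) L →ₐ[L] MvPowerSeries (Fin p) L)
    (f : MvPowerSeries (Fin m) L) : constantCoeff (Ψ f) = constantCoeff f := by
  have key : ∀ g : MvPowerSeries (Fin m) L, constantCoeff g = 0 → constantCoeff (Ψ g) = 0 := by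
    intro g hg
    by_contra hc
    have h1 : IsUnit (g - C (constantCoeff (Ψ g))) := by
      rw [MvPowerSeries.isUnit_iff_constantCoeff, map_sub, hg, constantCoeff_C, zero_sub,
        isUnit_iff_ne_zero]
      exact neg_ne_zero.2 hc
    have h2 := h1.map Ψ
    rw [map_sub, show (C (constantCoeff (Ψ g)) : MvPowerSeries (Fin m) L) =
      algebraMap L _ (constantCoeff (Ψ g)) from rfl, Ψ.commutes,
      MvPowerSeries.isUnit_iff_constantCoeff, map_sub] at h2
    change IsUnit (constantCoeff (Ψ g) - constantCoeff (C (constantCoeff (Ψ g)))) at h2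
    rw [constantCoeff_C, sub_self] at h2
    exact not_isUnit_zero h2
  have h1 := key (f - C (constantCoeff f)) (by simp)
  rw [map_sub, show (C (constantCoeff f) : MvPowerSeries (Fin m) L) =
      algebraMap L _ (constantCoeff f) from rfl, Ψ.commutes, map_sub] at h1
  change constantCoeff (Ψ f) - constantCoeff (C (constantCoeff f)) = 0 at h1
  rw [constantCoeff_C] at h1
  exact sub_eq_zero.1 h1

theorem X_mem (Ψ : MvPowerSeries (Fin m) L →ₐ[L] MvPowerSeries (Fin p) L) (i : Fin m) :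
    Ψ (X i) ∈ IsLocalRing.maximalIdeal (MvPowerSeries (Fin p) L) := by
  rw [mem_maximalIdeal_iff, constantCoeff_algHom, constantCoeff_X]

variable {L' : Type*} [Field L'] (ι : L →+* L')

theorem bc_hasSubst (Ψ : MvPowerSeries (Fin m) L →ₐ[L] MvPowerSeries (Fin p) L) :
    HasSubst (fun i => map ι (Ψ (X i))) :=
  hasSubst_of_constantCoeff_zero fun i => by
    rw [constantCoeff_map, constantCoeff_algHom, constantCoeff_X, map_zero]

/-- Base change. -/
noncomputable def bc (Ψ : MvPowerSeries (Fin m) L →ₐ[L] MvPowerSeries (Fin p) L) :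
    MvPowerSeries (Fin m) L' →ₐ[L'] MvPowerSeries (Fin p) L' :=
  substAlgHom (bc_hasSubst ι Ψ)

theorem bc_X (Ψ : MvPowerSeries (Fin m) L →ₐ[L] MvPowerSeries (Fin p) L) (i : Fin m) :
    bc ι Ψ (X i) = map ι (Ψ (X i)) := substAlgHom_X _ _

theorem bc_map (Ψ : MvPowerSeries (Fin m) L →ₐ[L] MvPowerSeries (Fin p) L)
    (f : MvPowerSeries (Fin m) L) : bc ι Ψ (map ι f) = map ι (Ψ f) := by
  have h : ((bc ι Ψ).toRingHom.comp (map ι)) = (map ι).comp Ψ.toRingHom := by
    refine ringHom_ext _ _ (fun c => ?_) (fun i => ?_) (fun i => ?_)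
    · change bc ι Ψ (map ι (C c)) = map ι (Ψ (C c))
      rw [map_C, show (C (ι c) : MvPowerSeries (Fin m) L') = algebraMap L' _ (ι c) from rfl,
        (bc ι Ψ).commutes, show (C c : MvPowerSeries (Fin m) L) = algebraMap L _ c from rfl,
        Ψ.commutes]
      exact (map_C _ _).symm
    · change bc ι Ψ (map ι (X i)) ∈ _
      rw [map_X]
      exact X_mem _ _
    · change bc ι Ψ (map ι (X i)) = map ι (Ψ (X i))
      rw [map_X, bc_X]
  exact RingHom.congr_fun h f

theorem bc_comp (Ψ : MvPowerSeries (Fin m) L →ₐ[L] MvPowerSeries (Fin p) L)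
    (Φ : MvPowerSeries (Fin p) L →ₐ[L] MvPowerSeries (Fin q) L)
    (f : MvPowerSeries (Fin m) L') : bc ι Φ (bc ι Ψ f) = bc ι (Φ.comp Ψ) f := by
  have h : (bc ι Φ).comp (bc ι Ψ) = bc ι (Φ.comp Ψ) := by
    refine algHom_ext _ _ (fun i => X_mem _ _) (fun i => ?_)
    change bc ι Φ (bc ι Ψ (X i)) = _
    rw [bc_X, bc_X, bc_map]
    rfl
  exact AlgHom.congr_fun h f

theorem bc_id (f : MvPowerSeries (Fin m) L') : bc ι (AlgHom.id L (MvPowerSeries (Fin m) L)) f = f := by
  have h : bc ι (AlgHom.id L (MvPowerSeries (Fin m) L)) = AlgHom.id L' _ := by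
    refine algHom_ext _ _ (fun i => X_mem _ _) (fun i => ?_)
    rw [bc_X, AlgHom.id_apply, map_X, AlgHom.id_apply]
  rw [h, AlgHom.id_apply]

/-- Base change of an isomorphism. -/
noncomputable def bcEquiv (Ψ : MvPowerSeries (Fin m) L ≃ₐ[L] MvPowerSeries (Fin p) L) :
    MvPowerSeries (Fin m) L' ≃ₐ[L'] MvPowerSeries (Fin p) L' :=
  AlgEquiv.ofAlgHom (bc ι Ψ.toAlgHom) (bc ι Ψ.symm.toAlgHom)
    (by
      apply AlgHom.ext
      intro f
      change bc ι Ψ.toAlgHom (bc ι Ψ.symm.toAlgHom f) = f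
      rw [bc_comp]
      have : Ψ.toAlgHom.comp Ψ.symm.toAlgHom = AlgHom.id L _ := by
        apply AlgHom.ext
        intro x
        exact Ψ.apply_symm_apply x
      rw [this, bc_id])
    (by
      apply AlgHom.ext
      intro f
      change bc ι Ψ.symm.toAlgHom (bc ι Ψ.toAlgHom f) = f
      rw [bc_comp]
      have : Ψ.symm.toAlgHom.comp Ψ.toAlgHom = AlgHom.id L _ := by
        apply AlgHom.ext
        intro x
        exact Ψ.symm_apply_apply x
      rw [this, bc_id])

theorem bcEquiv_map (Ψ : MvPowerSeries (Fin m) L ≃ₐ[L] MvPowerSeries (Fin p) L)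
    (f : MvPowerSeries (Fin m) L) : bcEquiv ι Ψ (map ι f) = map ι (Ψ f) := bc_map ι Ψ.toAlgHom f

theorem finSuccEquiv_map {n : ℕ} (f : MvPowerSeries (Fin (n + 1)) L) :
    finSuccEquiv L' n (map ι f) = PowerSeries.map (map ι) (finSuccEquiv L n f) := by
  ext k x
  rw [coeff_coeff_finSuccEquiv, coeff_map, PowerSeries.coeff_map, coeff_map,
    coeff_coeff_finSuccEquiv]

/-- Base change of `Θ`. -/
theorem exists_baseChange {n : ℕ}
    (Θ : PowerSeries (MvPowerSeries (Fin n) L) ≃ₐ[L] MvPowerSeries (Fin (n + 1)) L) :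
    ∃ Θ' : PowerSeries (MvPowerSeries (Fin n) L') ≃ₐ[L'] MvPowerSeries (Fin (n + 1)) L',
      ∀ F, Θ' (PowerSeries.map (map ι) F) = map ι (Θ F) := by
  refine ⟨(finSuccEquiv L' n).symm.trans (bcEquiv ι ((finSuccEquiv L n).trans Θ)), fun F => ?_⟩
  obtain ⟨f, rfl⟩ := (finSuccEquiv L n).surjective F
  rw [← finSuccEquiv_map, AlgEquiv.trans_apply, AlgEquiv.symm_apply_apply, bcEquiv_map,
    AlgEquiv.trans_apply]

end

end H85.Zar
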