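import Pool.Agent.H9.Zar.Defs

set_option linter.style.longLine false

/-! Homomorphisms and derivations of power series rings are determined by the variables. -/

namespace H85.Zar

open MvPowerSeries H9.Zar

variable {m : ℕ} {K : Type*} [Field K]

private lemma exists_sum_of_coeff_zero (f : MvPowerSeries (Fin m) K) (h0 : constantCoeff f = 0) :
    ∃ g : Fin m → MvPowerSeries (Fin m) K, f = ∑ i, X i * g i := by
  let g : Fin m → MvPowerSeries (Fin m) K := fun i d =>
    if ∀ j < i, d j = 0 then coeff (d + Finsupp.single i 1) f else 0
  have hg : ∀ i d, coeff d (g i) = if ∀ j < i, d j = 0 then coeff (d + Finsupp.single i 1) f else 0 :=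
    fun i d => rfl
  refine ⟨g, ?_⟩
  ext e
  rw [map_sum]
  have hX : ∀ i, coeff e (X i * g i) = if Finsupp.single i 1 ≤ e ∧ ∀ j < i, e j = 0 then
      coeff e f else 0 := by
    intro i
    rw [X, coeff_monomial_mul, one_mul, hg]
    by_cases h : Finsupp.single i 1 ≤ e
    · rw [if_pos h, tsub_add_cancel_of_le h]
      have h2 : (∀ j < i, (e - Finsupp.single i 1 : Fin m →₀ ℕ) j = 0) ↔ ∀ j < i, e j = 0 := by
        refine forall₂_congr fun j hj => ?_
        rw [Finsupp.tsub_apply, Finsupp.single_apply, if_neg hj.ne', tsub_zero]
      simp only [h2, h, true_and]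
    · rw [if_neg h, if_neg (fun h' => h h'.1)]
  rw [Finset.sum_congr rfl fun i _ => hX i]
  by_cases he : e = 0
  · subst he
    rw [coeff_zero_eq_constantCoeff_apply, h0]
    simp
  · have hs : e.support.Nonempty := Finsupp.support_nonempty_iff.mpr he
    rw [Finset.sum_eq_single (e.support.min' hs)]
    · rw [if_pos]
      constructor
      · rw [Finsupp.single_le_iff]
        have := Finsupp.mem_support_iff.mp (e.support.min'_mem hs)
        omega
      · intro j hj
        by_contra hne
        exact absurd (e.support.min'_le j (Finsupp.mem_support_iff.mpr hne)) (not_le.mpr hj)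
    · intro i _ hi
      rw [if_neg]
      rintro ⟨h1, h2⟩
      rw [Finsupp.single_le_iff] at h1
      have hmem : i ∈ e.support := Finsupp.mem_support_iff.mpr (by omega)
      have hle := e.support.min'_le i hmem
      rcases lt_or_eq_of_le hle with hlt | heq
      · exact Finsupp.mem_support_iff.mp (e.support.min'_mem hs) (h2 _ hlt)
      · exact hi heq.symm
    · intro h; exact absurd (Finset.mem_univ _) h

/-- A power series is its constant term plus a combination of the variables. -/
theorem exists_sum (f : MvPowerSeries (Fin m) K) :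
    ∃ g : Fin m → MvPowerSeries (Fin m) K, f = C (constantCoeff f) + ∑ i, X i * g i := by
  obtain ⟨g, hg⟩ := exists_sum_of_coeff_zero (f - C (constantCoeff f)) (by simp)
  exact ⟨g, by rw [← hg]; ring⟩

theorem mem_maximalIdeal_iff (f : MvPowerSeries (Fin m) K) :
    f ∈ IsLocalRing.maximalIdeal (MvPowerSeries (Fin m) K) ↔ constantCoeff f = 0 := by
  rw [IsLocalRing.mem_maximalIdeal, mem_nonunits_iff, MvPowerSeries.isUnit_iff_constantCoeff,
    isUnit_iff_ne_zero, not_not]

/-- Two ring homomorphisms from a power series ring over a field to a Noetherian local ring, which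
agree on the constants and the variables and send the variables to nonunits, are equal. -/
theorem ringHom_ext {B : Type*} [CommRing B] [IsNoetherianRing B] [IsLocalRing B]
    (α β : MvPowerSeries (Fin m) K →+* B) (hC : ∀ c, α (C c) = β (C c))
    (hm : ∀ i, α (X i) ∈ IsLocalRing.maximalIdeal B) (h : ∀ i, α (X i) = β (X i)) : α = β := by
  have key : ∀ N : ℕ, ∀ f, α f - β f ∈ IsLocalRing.maximalIdeal B ^ N := by
    intro N
    induction N with
    | zero => intro f; simp
    | succ N ih =>
      intro f
      obtain ⟨g, hg⟩ := exists_sum f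
      have h1 : α f - β f = ∑ i, α (X i) * (α (g i) - β (g i)) := by
        rw [hg]
        simp only [map_add, map_sum, map_mul, hC, mul_sub, Finset.sum_sub_distrib, h]
        ring
      rw [h1]
      refine Ideal.sum_mem _ fun i _ => ?_
      rw [pow_succ']
      exact Ideal.mul_mem_mul (hm i) (ih _)
  apply RingHom.ext
  intro f
  have h2 : α f - β f ∈ (⨅ N : ℕ, IsLocalRing.maximalIdeal B ^ N : Ideal B) := by
    rw [Submodule.mem_iInf]
    exact fun N => key N f
  rw [Ideal.iInf_pow_eq_bot_of_isLocalRing _ (Ideal.IsPrime.ne_top inferInstance)] at h2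
  exact sub_eq_zero.1 h2

theorem algHom_ext {B : Type*} [CommRing B] [IsNoetherianRing B] [IsLocalRing B]
    [Algebra K B] (α β : MvPowerSeries (Fin m) K →ₐ[K] B)
    (hm : ∀ i, α (X i) ∈ IsLocalRing.maximalIdeal B) (h : ∀ i, α (X i) = β (X i)) : α = β := by
  have h1 : α.toRingHom = β.toRingHom := ringHom_ext α.toRingHom β.toRingHom (fun c => by
    change α (algebraMap K _ c) = β (algebraMap K _ c)
    rw [α.commutes, β.commutes]) hm h
  exact AlgHom.ext fun f => RingHom.congr_fun h1 f

/-- A derivation of a power series ring is a combination of the partial derivatives. -/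
theorem der_eq (δ : Derivation K (MvPowerSeries (Fin m) K) (MvPowerSeries (Fin m) K))
    (f : MvPowerSeries (Fin m) K) : δ f = ∑ i, δ (X i) * pderiv K i f := by
  classical
  have key : ∀ N : ℕ, ∀ f, δ f - ∑ i, δ (X i) * pderiv K i f ∈
      IsLocalRing.maximalIdeal (MvPowerSeries (Fin m) K) ^ N := by
    intro N
    induction N with
    | zero => intro f; simp
    | succ N ih =>
      intro f
      obtain ⟨g, hg⟩ := exists_sum f
      have hC : ∀ (ε : Derivation K (MvPowerSeries (Fin m) K) (MvPowerSeries (Fin m) K)) (c : K),
          ε (C c) = 0 := fun ε c => by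
        rw [show (C c : MvPowerSeries (Fin m) K) = algebraMap K _ c from rfl]
        exact ε.map_algebraMap c
      have h1 : δ f - ∑ i, δ (X i) * pderiv K i f =
          ∑ j, X j * (δ (g j) - ∑ i, δ (X i) * pderiv K i (g j)) := by
        have e1 : ∀ ε : Derivation K (MvPowerSeries (Fin m) K) (MvPowerSeries (Fin m) K),
            ε f = ∑ j, (X j * ε (g j) + g j * ε (X j)) := by
          intro ε
          conv_lhs => rw [hg]
          rw [map_add, hC, zero_add, map_sum]
          exact Finset.sum_congr rfl fun j _ => by rw [Derivation.leibniz, smul_eq_mul, smul_eq_mul]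
        rw [e1 δ]
        have e2 : ∑ i, δ (X i) * pderiv K i f =
            ∑ j, (X j * ∑ i, δ (X i) * pderiv K i (g j)) + ∑ j, g j * δ (X j) := by
          have e3 : ∀ i, δ (X i) * pderiv K i f =
              ∑ j, X j * (δ (X i) * pderiv K i (g j)) + g i * δ (X i) := by
            intro i
            rw [e1 (pderiv K i), Finset.sum_add_distrib, mul_add]
            congr 1
            · rw [Finset.mul_sum]
              exact Finset.sum_congr rfl fun j _ => by ring
            · rw [Finset.sum_eq_single i]
              · rw [MvPowerSeries.pderiv_X_self, mul_one, mul_comm]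
              · intro j _ hj
                rw [MvPowerSeries.pderiv_X_of_ne (by exact hj), mul_zero]
              · intro h; exact absurd (Finset.mem_univ _) h
          rw [Finset.sum_congr rfl fun i _ => e3 i, Finset.sum_add_distrib, Finset.sum_comm]
          congr 1
          exact Finset.sum_congr rfl fun j _ => by rw [Finset.mul_sum]
        rw [e2, Finset.sum_add_distrib]
        simp only [mul_sub, Finset.sum_sub_distrib]
        ring
      rw [h1]
      refine Ideal.sum_mem _ fun i _ => ?_
      rw [pow_succ']
      refine Ideal.mul_mem_mul ?_ (ih _)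
      rw [mem_maximalIdeal_iff, constantCoeff_X]
  have h2 : δ f - ∑ i, δ (X i) * pderiv K i f ∈
      (⨅ N : ℕ, IsLocalRing.maximalIdeal (MvPowerSeries (Fin m) K) ^ N : Ideal _) := by
    rw [Submodule.mem_iInf]
    exact fun N => key N f
  rw [Ideal.iInf_pow_eq_bot_of_isLocalRing _ (Ideal.IsPrime.ne_top inferInstance)] at h2
  exact sub_eq_zero.1 h2

end H85.Zar
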