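import Mathlib

/-!
# An isomorphism of algebraically closed fields fixing a countable set (job ZQ4)
-/

set_option autoImplicit false

namespace H85.Zar

open Cardinal

universe v

/-- equipotent transcendence bases over `R` give an isomorphism over `R` -/
theorem exists_equiv_of_basis {R Ω k ι κ : Type*} [Field R] [Field Ω] [Field k] [Algebra R Ω]
    [Algebra R k] [IsAlgClosed Ω] [IsAlgClosed k] {x : ι → Ω} {y : κ → k} (e : ι ≃ κ)
    (hx : IsTranscendenceBasis R x) (hy : IsTranscendenceBasis R y) :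
    ∃ σ : Ω ≃+* k, ∀ a : R, σ (algebraMap R Ω a) = algebraMap R k a := by
  have h1 := IsAlgClosed.isAlgClosure_of_transcendence_basis x hx
  have h2 := IsAlgClosed.isAlgClosure_of_transcendence_basis y hy
  let f : Algebra.adjoin R (Set.range x) ≃ₐ[R] Algebra.adjoin R (Set.range y) :=
    (hx.1.aevalEquiv.symm.trans (MvPolynomial.renameEquiv R e)).trans hy.1.aevalEquiv
  refine ⟨IsAlgClosure.equivOfEquiv Ω k f.toRingEquiv, fun a => ?_⟩
  have h3 : algebraMap R Ω a = algebraMap (Algebra.adjoin R (Set.range x)) Ω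
      (algebraMap R (Algebra.adjoin R (Set.range x)) a) := rfl
  rw [h3, IsAlgClosure.equivOfEquiv_algebraMap]
  have h4 : f.toRingEquiv (algebraMap R (Algebra.adjoin R (Set.range x)) a) =
      algebraMap R (Algebra.adjoin R (Set.range y)) a := f.commutes a
  rw [h4]
  rfl

theorem exists_fieldIso {k Ω : Type v} [Field k] [Field Ω] [IsAlgClosed k] [IsAlgClosed Ω]
    (j : k →+* Ω) (hcard : Cardinal.mk Ω ≤ Cardinal.mk k) (hunc : Cardinal.aleph0 < Cardinal.mk k)
    (s : Set k) (hs : s.Countable) : ∃ σ : Ω ≃+* k, ∀ a ∈ s, σ (j a) = a := by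
  have hk0 : #(Subfield.closure s) ≤ ℵ₀ :=
    le_trans (Subfield.cardinalMk_closure_le_max s) (max_le (Cardinal.le_aleph0_iff_set_countable.2 hs) le_rfl)
  let _ : Algebra (Subfield.closure s) Ω := (j.comp (Subfield.closure s).subtype).toAlgebra
  obtain ⟨ι, x, hx⟩ := exists_isTranscendenceBasis' (Subfield.closure s) Ω
  obtain ⟨κ, y, hy⟩ := exists_isTranscendenceBasis' (Subfield.closure s) k
  have hle : #k ≤ #Ω := Cardinal.mk_le_of_injective j.injective
  have hΩ : #Ω = #ι := IsAlgClosed.cardinal_eq_cardinal_transcendence_basis_of_aleph0_lt' x hx hk0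
    (lt_of_lt_of_le hunc hle)
  have hk : #k = #κ := IsAlgClosed.cardinal_eq_cardinal_transcendence_basis_of_aleph0_lt' y hy hk0
    hunc
  have he : #ι = #κ := by rw [← hΩ, ← hk]; exact le_antisymm hcard hle
  obtain ⟨e⟩ := Cardinal.eq.1 he
  obtain ⟨σ, hσ⟩ := exists_equiv_of_basis e hx hy
  refine ⟨σ, fun a ha => ?_⟩
  exact hσ ⟨a, Subfield.subset_closure ha⟩

end H85.Zar
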