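import Pool.Agent.H85.Zar.FieldIso
import Pool.Agent.H85.Zar.Card
import Pool.Agent.H9.Zar.Alg

set_option linter.style.longLine false

/-! ZQ13: transport of `EquisingAt` by isomorphisms of the ground field; from a generic point to a
closed point. -/

namespace H85.Zar

open MvPowerSeries H9.Zar

universe v

/-- A step of Zariski's definition is transported by isomorphisms of the ground field. -/
theorem stepWith_fieldIso {n : ℕ} {k K : Type v} [Field k] [Field K] (σ : k ≃+* K)
    (φ : SerAut (n + 1) k) (f : MvPowerSeries (Fin (n + 1)) k)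
    (I : Ideal (MvPowerSeries (Fin (n + 1)) k))
    (h : StepWith (fun K _ D J => Equising n K D J) k φ f I) :
    StepWith (fun K _ D J => Equising n K D J) K (phiE σ φ) (mapE σ (n + 1) f)
      (I.map (mapE σ (n + 1) : _ →+* MvPowerSeries (Fin (n + 1)) K)) := by
  obtain ⟨Θ, G, D, ⟨hΘX, hΘZ⟩, ⟨hG, hfG⟩, ⟨hD, ⟨a, ha⟩, ⟨b, hb⟩⟩, hE⟩ := h
  obtain ⟨σ', hσ1, hσ2⟩ := exists_genIso n σ
  have hdis := discr_map_iso (mapE σ' n : _ →+* MvPowerSeries (Fin n) (GenField n K)) G hG.monic
  have hc : ∀ j, mapE σ' (n + 1) (coord φ j) = coord (phiE σ φ) j := by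
    intro j
    change mapE σ' (n + 1) (map (incl n k) (φ (X j))) = map (incl n K) (phiE σ φ (X j))
    rw [mapE_map σ σ' _ _ hσ2, phiE_apply, mapE_symm_X]
  refine ⟨ThE σ' Θ, G.map (mapE σ' n : _ →+* MvPowerSeries (Fin n) (GenField n K)), mapE σ' n D,
    ⟨fun i => ?_, ?_⟩, ⟨distinguished_map σ' G hG, ?_⟩, ⟨squarefree_map _ hD, ⟨a, ?_⟩, ⟨b, ?_⟩⟩, ?_⟩
  · rw [ThE_apply, pmapE_symm_C, mapE_symm_X, hΘX, map_sum]
    refine Finset.sum_congr rfl fun j _ => ?_
    rw [map_mul, mapE_C, hσ1, hc]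
  · rw [ThE_apply, pmapE_symm_X, hΘZ, hc]
  · rw [ThE_coe, H9.Zar.ext, ← mapE_map σ σ' _ _ hσ2]
    exact hfG.map (mapE σ' (n + 1))
  · rw [hdis, ← map_pow]
    exact map_dvd (mapE σ' n) ha
  · rw [hdis, ← map_pow]
    exact map_dvd (mapE σ' n) hb
  · have h1 := equising_fieldIso n _ _ σ' D _ hE
    have h2 := ideal_step σ σ' (incl n k) (incl n K) hσ2 I Θ
    have h3 : (projIdeal Θ (I.map (H9.Zar.ext n k))).map (map σ'.toRingHom) =
        projIdeal (ThE σ' Θ)
          ((I.map (mapE σ (n + 1) : _ →+* MvPowerSeries (Fin (n + 1)) K)).map (H9.Zar.ext n K)) := h2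
    rw [h3] at h1
    exact h1

/-- The expansion at a point commutes with isomorphisms of the ground field. -/
theorem germ_fieldIso {k K : Type v} [Field k] [Field K] (σ : k ≃+* K) {r : ℕ}
    (P : Fin (r + 1) → k) (q : MvPolynomial (Fin (r + 1)) k) :
    germ (fun i => σ (P i)) (MvPolynomial.map σ.toRingHom q) = mapE σ (r + 1) (germ P q) := by
  have : ((germ (fun i => σ (P i)) : _ →ₐ[K] _) : MvPolynomial (Fin (r + 1)) K →+* _).comp
      (MvPolynomial.map σ.toRingHom) =
      (mapE σ (r + 1) : MvPowerSeries (Fin (r + 1)) k →+* MvPowerSeries (Fin (r + 1)) K).comp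
        ((germ P : _ →ₐ[k] _) : MvPolynomial (Fin (r + 1)) k →+* _) := by
    refine MvPolynomial.ringHom_ext (fun a => ?_) (fun i => ?_)
    · change germ (fun i => σ (P i)) (MvPolynomial.map σ.toRingHom (MvPolynomial.C a)) =
        mapE σ (r + 1) (germ P (MvPolynomial.C a))
      rw [MvPolynomial.map_C, germ, germ, MvPolynomial.aeval_C, MvPolynomial.aeval_C,
        MvPowerSeries.algebraMap_apply, MvPowerSeries.algebraMap_apply]
      simp
    · change germ (fun i => σ (P i)) (MvPolynomial.map σ.toRingHom (MvPolynomial.X i)) =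
        mapE σ (r + 1) (germ P (MvPolynomial.X i))
      rw [MvPolynomial.map_X, germ, germ, MvPolynomial.aeval_X, MvPolynomial.aeval_X, map_add,
        mapE_X, mapE_C]
  exact DFunLike.congr_fun this q

theorem equisingAt_fieldIso {k K : Type v} [Field k] [Field K] (σ : k ≃+* K) {r : ℕ}
    (F : MvPolynomial (Fin (r + 1)) k) (P : Fin (r + 1) → k)
    (N : Ideal (MvPolynomial (Fin (r + 1)) k)) (h : EquisingAt F P N) :
    EquisingAt (MvPolynomial.map σ.toRingHom F) (fun i => σ (P i))
      (N.map (MvPolynomial.map σ.toRingHom)) := by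
  have hI : germIdeal (fun i => σ (P i)) (N.map (MvPolynomial.map σ.toRingHom)) =
      (germIdeal P N).map
        (mapE σ (r + 1) : MvPowerSeries (Fin (r + 1)) k →+* MvPowerSeries (Fin (r + 1)) K) := by
    have e1 : germIdeal (fun i => σ (P i)) (N.map (MvPolynomial.map σ.toRingHom)) =
        (N.map (MvPolynomial.map σ.toRingHom)).map
          ((germ (fun i => σ (P i)) : _ →ₐ[K] _) : MvPolynomial (Fin (r + 1)) K →+* _) := rfl
    have e2 : germIdeal P N =
        N.map ((germ P : _ →ₐ[k] _) : MvPolynomial (Fin (r + 1)) k →+* _) := rfl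
    rw [e1, e2, Ideal.map_map, Ideal.map_map]
    congr 1
    exact RingHom.ext fun q => germ_fieldIso σ P q
  have hle : singIdeal (mapE σ (r + 1) (germ P F)) ≤
      ((germIdeal P N).map
        (mapE σ (r + 1) : _ →+* MvPowerSeries (Fin (r + 1)) K)).radical ↔
      singIdeal (germ P F) ≤ (germIdeal P N).radical := by
    rw [singIdeal_map, radical_map_equiv, map_le_map_equiv]
  rw [EquisingAt, germ_fieldIso, hI]
  rcases h with ⟨h1, h2⟩ | ⟨h1, φ, hφ, hs⟩
  · exact Or.inl ⟨fun h => h1 (hle.1 h), isSimple_map σ h2⟩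
  · refine Or.inr ⟨hle.2 h1, phiE σ φ, fun j => ?_, stepWith_fieldIso σ φ _ _ hs⟩
    obtain ⟨g, h, he, hg⟩ := hφ j
    refine ⟨MvPolynomial.map σ.toRingHom g, MvPolynomial.map σ.toRingHom h, ?_, ?_⟩
    · have : MvPolynomial.eval (fun i => σ (P i)) (MvPolynomial.map σ.toRingHom h) =
          σ.toRingHom (MvPolynomial.eval P h) := by
        rw [MvPolynomial.eval_map]
        exact (MvPolynomial.eval₂_comp σ.toRingHom P h).symm
      rw [this]
      exact fun h0 => he (by simpa using h0)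
    · rw [germ_fieldIso, germ_fieldIso, phiE_apply, mapE_symm_X, ← map_mul, hg]

theorem exists_closed_point {k Ω : Type v} [Field k] [Field Ω] [IsAlgClosed k] [IsAlgClosed Ω]
    (j : k →+* Ω) (hcard : Cardinal.mk Ω ≤ Cardinal.mk k)
    (hunc : Cardinal.aleph0 < Cardinal.mk k) {r : ℕ}
    (F : MvPolynomial (Fin (r + 1)) k) (N c : Ideal (MvPolynomial (Fin (r + 1)) k))
    (P : Fin (r + 1) → Ω) (hP : ∀ q ∈ c, MvPolynomial.eval₂ j P q = 0)
    (hU : MvPolynomial (Fin (r + 1)) k) (hUP : MvPolynomial.eval₂ j P hU ≠ 0)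
    (h : EquisingAt (MvPolynomial.map j F) P (N.map (MvPolynomial.map j))) :
    ∃ P' ∈ MvPolynomial.zeroLocus k c, MvPolynomial.eval P' hU ≠ 0 ∧ EquisingAt F P' N := by
  obtain ⟨SN, hSN⟩ := (isNoetherianRing_iff_ideal_fg _).1 inferInstance N
  obtain ⟨Sc, hSc⟩ := (isNoetherianRing_iff_ideal_fg _).1 inferInstance c
  let T : Set (MvPolynomial (Fin (r + 1)) k) := {F} ∪ ↑SN ∪ ↑Sc ∪ {hU}
  have hT : T.Finite := (((Set.finite_singleton F).union SN.finite_toSet).union
    Sc.finite_toSet).union (Set.finite_singleton hU)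
  let s : Set k := ⋃ q ∈ T, Set.range fun m => MvPolynomial.coeff m q
  have hs : s.Countable := hT.countable.biUnion fun q _ => Set.countable_range _
  obtain ⟨σ, hσ⟩ := exists_fieldIso j hcard hunc s hs
  have hq : ∀ q ∈ T, MvPolynomial.map σ.toRingHom (MvPolynomial.map j q) = q := by
    intro q hq
    ext m
    rw [MvPolynomial.coeff_map, MvPolynomial.coeff_map]
    exact hσ _ (Set.mem_biUnion hq ⟨m, rfl⟩)
  have hN : (N.map (MvPolynomial.map j)).map (MvPolynomial.map σ.toRingHom) = N := by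
    rw [← hSN, Ideal.map_span, Ideal.map_span]
    congr 1
    rw [Set.image_image]
    conv_rhs => rw [← Set.image_id (↑SN : Set (MvPolynomial (Fin (r + 1)) k))]
    exact Set.image_congr fun q hq' => hq q (Or.inl (Or.inl (Or.inr hq')))
  have hev : ∀ q : MvPolynomial (Fin (r + 1)) k, q ∈ T →
      MvPolynomial.eval (fun i => σ (P i)) q = σ (MvPolynomial.eval₂ j P q) := by
    intro q hqT
    conv_lhs => rw [← hq q hqT]
    have : MvPolynomial.eval (fun i => σ (P i))
        (MvPolynomial.map σ.toRingHom (MvPolynomial.map j q)) =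
        σ.toRingHom (MvPolynomial.eval P (MvPolynomial.map j q)) := by
      rw [MvPolynomial.eval_map]
      exact (MvPolynomial.eval₂_comp σ.toRingHom P _).symm
    rw [this, MvPolynomial.eval_map]
    rfl
  refine ⟨fun i => σ (P i), ?_, ?_, ?_⟩
  · have hle : c ≤ RingHom.ker (MvPolynomial.eval fun i => σ (P i)) := by
      rw [← hSc, Ideal.span_le]
      intro q hq'
      have hc : q ∈ c := by
        rw [← hSc]; exact Ideal.subset_span hq'
      change MvPolynomial.eval (fun i => σ (P i)) q = 0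
      rw [hev q (Or.inl (Or.inr hq')), hP q hc, map_zero]
    intro q hq'
    have := hle hq'
    rw [RingHom.mem_ker] at this
    exact this
  · rw [hev hU (Or.inr rfl)]
    exact (map_ne_zero σ).2 hUP
  · have h1 := equisingAt_fieldIso σ _ P _ h
    rwa [hN, hq F (Or.inl (Or.inl (Or.inl rfl)))] at h1

end H85.Zar
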