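import Pool.Agent.H85.Zar.Closed

set_option linter.style.longLine false

/-! ZQ19: from a generic point to a closed point over a field of infinite transcendence degree. -/

namespace H85.Zar

open MvPowerSeries H9.Zar

universe v

/-- Over an algebraically closed field `k` of infinite transcendence degree, an algebraically
closed field `L` which is algebraic over `k(P)`, `P` a finite tuple, is isomorphic to `k` by an
isomorphism that is the identity on a given finite subset of `k`. -/
theorem exists_fieldIso_finite {k L : Type v} [Field k] [Field L] [IsAlgClosed k] [IsAlgClosed L]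
    [CharZero k] (hk : Cardinal.aleph0 ≤ Algebra.trdeg ℚ k)
    (j : k →+* L) {r : ℕ} (P : Fin (r + 1) → L)
    (halg : ∀ x : L, IsAlgebraic (Algebra.adjoin j.range (Set.range P)) x)
    (s : Set k) (hs : s.Finite) : ∃ σ : L ≃+* k, ∀ a ∈ s, σ (j a) = a := by
  have hfg : (IntermediateField.adjoin ℚ s).FG := IntermediateField.fg_adjoin_of_finite hs
  have : Algebra.EssFiniteType ℚ (IntermediateField.adjoin ℚ s) :=
    IntermediateField.essFiniteType_iff.2 hfg
  let _ : Algebra k L := j.toAlgebra
  have h0 : Algebra.trdeg ℚ (IntermediateField.adjoin ℚ s) < Cardinal.aleph0 :=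
    trdeg_lt_aleph0 ℚ (IntermediateField.adjoin ℚ s)
  have h1 : Algebra.trdeg ℚ (IntermediateField.adjoin ℚ s) +
      Algebra.trdeg (IntermediateField.adjoin ℚ s) k = Algebra.trdeg ℚ k :=
    trdeg_add_eq ℚ (IntermediateField.adjoin ℚ s)
  have h2 : Cardinal.aleph0 ≤ Algebra.trdeg (IntermediateField.adjoin ℚ s) k := by
    by_contra h
    exact absurd (h1 ▸ Cardinal.add_lt_aleph0 h0 (not_le.1 h)) (not_lt.2 hk)
  have hA : ∀ z ∈ Algebra.adjoin j.range (Set.range P), z ∈ Algebra.adjoin k (Set.range P) := by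
    intro z hz
    induction hz using Algebra.adjoin_induction with
    | mem x hx => exact Algebra.subset_adjoin hx
    | algebraMap a =>
      obtain ⟨_, b, rfl⟩ := a
      exact Subalgebra.algebraMap_mem (Algebra.adjoin k (Set.range P)) b
    | add x y _ _ hx hy => exact add_mem hx hy
    | mul x y _ _ hx hy => exact mul_mem hx hy
  have : Algebra.IsAlgebraic (Algebra.adjoin k (Set.range P)) L := ⟨fun x => by
    let f : Algebra.adjoin j.range (Set.range P) →+* Algebra.adjoin k (Set.range P) :=
      { toFun := fun z => ⟨z.1, hA z.1 z.2⟩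
        map_one' := rfl
        map_mul' := fun _ _ => rfl
        map_zero' := rfl
        map_add' := fun _ _ => rfl }
    refine (halg x).ringHom_of_comp_eq f (RingHom.id L) ?_ ?_
    · intro a b hab
      exact Subtype.ext (congrArg (fun z => (z.1 : L)) hab)
    · rfl⟩
  have h3 : Algebra.trdeg k L < Cardinal.aleph0 :=
    lt_of_le_of_lt (Algebra.IsAlgebraic.trdeg_le_cardinalMk k (Set.range P))
      (Cardinal.lt_aleph0_iff_set_finite.2 (Set.finite_range P))
  have h4 : Algebra.trdeg (IntermediateField.adjoin ℚ s) k +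
      Algebra.trdeg k L = Algebra.trdeg (IntermediateField.adjoin ℚ s) L :=
    trdeg_add_eq (IntermediateField.adjoin ℚ s) k
  have h5 : Algebra.trdeg (IntermediateField.adjoin ℚ s) L =
      Algebra.trdeg (IntermediateField.adjoin ℚ s) k := by
    rw [← h4]
    exact Cardinal.add_eq_left h2 (h3.le.trans h2)
  obtain ⟨ι, x, hx⟩ := exists_isTranscendenceBasis' (IntermediateField.adjoin ℚ s) L
  obtain ⟨κ, y, hy⟩ := exists_isTranscendenceBasis' (IntermediateField.adjoin ℚ s) k
  have he : Cardinal.mk ι = Cardinal.mk κ := by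
    rw [hx.cardinalMk_eq_trdeg, hy.cardinalMk_eq_trdeg, h5]
  obtain ⟨e⟩ := Cardinal.eq.1 he
  obtain ⟨σ, hσ⟩ := exists_equiv_of_basis e hx hy
  exact ⟨σ, fun a ha => hσ ⟨a, IntermediateField.subset_adjoin ℚ s ha⟩⟩

theorem exists_closed_point' {k L : Type v} [Field k] [Field L] [IsAlgClosed k] [IsAlgClosed L]
    [CharZero k] (hk : Cardinal.aleph0 ≤ Algebra.trdeg ℚ k)
    (j : k →+* L) {r : ℕ} (P : Fin (r + 1) → L)
    (halg : ∀ x : L, IsAlgebraic (Algebra.adjoin j.range (Set.range P)) x)
    (F : MvPolynomial (Fin (r + 1)) k) (N c : Ideal (MvPolynomial (Fin (r + 1)) k))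
    (hP : ∀ q ∈ c, MvPolynomial.eval₂ j P q = 0)
    (hU : MvPolynomial (Fin (r + 1)) k) (hUP : MvPolynomial.eval₂ j P hU ≠ 0)
    (h : EquisingAt (MvPolynomial.map j F) P (N.map (MvPolynomial.map j))) :
    ∃ P' ∈ MvPolynomial.zeroLocus k c, MvPolynomial.eval P' hU ≠ 0 ∧ EquisingAt F P' N := by
  obtain ⟨SN, hSN⟩ := (isNoetherianRing_iff_ideal_fg _).1 inferInstance N
  obtain ⟨Sc, hSc⟩ := (isNoetherianRing_iff_ideal_fg _).1 inferInstance c
  let T : Set (MvPolynomial (Fin (r + 1)) k) := {F} ∪ ↑SN ∪ ↑Sc ∪ {hU}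
  have hT : T.Finite := (((Set.finite_singleton F).union SN.finite_toSet).union
    Sc.finite_toSet).union (Set.finite_singleton hU)
  let s : Set k := ⋃ q ∈ T, (fun m => MvPolynomial.coeff m q) '' (↑q.support : Set _)
  have hs : s.Finite := hT.biUnion fun q _ => (q.support.finite_toSet).image _
  obtain ⟨σ, hσ⟩ := exists_fieldIso_finite hk j P halg s hs
  have hq : ∀ q ∈ T, MvPolynomial.map σ.toRingHom (MvPolynomial.map j q) = q := by
    intro q hq
    ext m
    rw [MvPolynomial.coeff_map, MvPolynomial.coeff_map]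
    by_cases hm : m ∈ q.support
    · exact hσ _ (Set.mem_biUnion hq ⟨m, hm, rfl⟩)
    · rw [MvPolynomial.notMem_support_iff.1 hm, map_zero, map_zero]
  have hN : (N.map (MvPolynomial.map j)).map (MvPolynomial.map σ.toRingHom) = N := by
    rw [← hSN, Ideal.map_span, Ideal.map_span]
    congr 1
    rw [Set.image_image]
    conv_rhs => rw [← Set.image_id (↑SN : Set (MvPolynomial (Fin (r + 1)) k))]
    exact Set.image_congr fun q hq' => hq q (Or.inl (Or.inl (Or.inr hq')))
  have hev : ∀ q : MvPolynomial (Fin (r + 1)) k, q ∈ T →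
      MvPolynomial.eval (fun i => σ (P i)) q = σ (MvPolynomial.eval₂ j P q) := by
    intro q hqT
    conv_lhs => rw [← hq q hqT]
    have : MvPolynomial.eval (fun i => σ (P i))
        (MvPolynomial.map σ.toRingHom (MvPolynomial.map j q)) =
        σ.toRingHom (MvPolynomial.eval P (MvPolynomial.map j q)) := by
      rw [MvPolynomial.eval_map]
      exact (MvPolynomial.eval₂_comp σ.toRingHom P _).symm
    rw [this, MvPolynomial.eval_map]
    rfl
  refine ⟨fun i => σ (P i), ?_, ?_, ?_⟩
  · have hle : c ≤ RingHom.ker (MvPolynomial.eval fun i => σ (P i)) := by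
      rw [← hSc, Ideal.span_le]
      intro q hq'
      have hc : q ∈ c := by
        rw [← hSc]; exact Ideal.subset_span hq'
      change MvPolynomial.eval (fun i => σ (P i)) q = 0
      rw [hev q (Or.inl (Or.inr hq')), hP q hc, map_zero]
    intro q hq'
    have := hle hq'
    rw [RingHom.mem_ker] at this
    exact this
  · rw [hev hU (Or.inr rfl)]
    exact (map_ne_zero σ).2 hUP
  · have h1 := equisingAt_fieldIso σ _ P _ h
    rwa [hN, hq F (Or.inl (Or.inl (Or.inl rfl)))] at h1

end H85.Zar
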