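import Pool.Agent.H9.Zar.Strata

set_option linter.style.longLine false

/-! ZQ8: the combinatorics of Zariski's strata. -/

namespace H85.Zar

open MvPolynomial H9.Zar

universe v

variable {k : Type v} [Field k] {r : ℕ}

private lemma subset_zcl (A : Set (Fin (r + 1) → k)) : A ⊆ zcl A :=
  zeroLocus_vanishingIdeal_le A

private lemma vanishingIdeal_zcl (A : Set (Fin (r + 1) → k)) :
    vanishingIdeal k (zcl A) = vanishingIdeal k A :=
  le_antisymm (vanishingIdeal_anti_mono (subset_zcl A)) (le_vanishingIdeal_zeroLocus _)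

private lemma singPts_eq (F : MvPolynomial (Fin (r + 1)) k) :
    singPts F = zeroLocus k (multIdeal F 2) := by
  rw [multIdeal, zeroLocus_span]
  ext Q
  simp only [singPts, Set.mem_ofPred_eq, forall_exists_index, and_imp]
  constructor
  · rintro ⟨h0, h1⟩ G w hw rfl
    match w, hw with
    | [], _ => simpa using h0
    | [i], _ => simpa using h1 i
    | _ :: _ :: _, hw => simp at hw
  · intro h
    refine ⟨?_, fun i => ?_⟩
    · simpa using h F [] (by simp) rfl
    · simpa using h (pderiv i F) [i] (by simp) rfl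

private lemma comp_minimalPrimes [IsAlgClosed k] {J : Ideal (MvPolynomial (Fin (r + 1)) k)}
    {W : Set (Fin (r + 1) → k)} (hW : IsComp (zeroLocus k J) W) :
    vanishingIdeal k W ∈ J.minimalPrimes := by
  obtain ⟨⟨hW1, hW2⟩, hW3, hW4⟩ := hW
  refine ⟨⟨hW2, le_zeroLocus_iff_le_vanishingIdeal.1 hW3⟩, ?_⟩
  rintro P ⟨hP, hJP⟩ hPW
  have := hP
  have h1 : vanishingIdeal k (zeroLocus k P) = P := MvPolynomial.IsPrime.vanishingIdeal_zeroLocus P
  have h2 : zeroLocus k P = W := by
    refine hW4 (zeroLocus k P) ⟨?_, ?_⟩ (zeroLocus_anti_mono hJP) ?_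
    · unfold zcl
      rw [h1]
    · rw [h1]
      exact hP
    · rw [← hW1]
      exact zeroLocus_anti_mono hPW
  rw [← h2, h1]

private lemma zeroLocus_point (x : Fin (r + 1) → k) :
    zeroLocus k (vanishingIdeal k ({x} : Set (Fin (r + 1) → k))) = {x} := by
  refine subset_antisymm (fun y hy => ?_) (subset_zcl _)
  rw [Set.mem_singleton_iff]
  funext i
  have h1 : (X i - C (x i) : MvPolynomial (Fin (r + 1)) k) ∈
      vanishingIdeal k ({x} : Set (Fin (r + 1) → k)) := by
    intro z hz
    rw [Set.mem_singleton_iff] at hz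
    simp [hz]
  have h2 := hy _ h1
  simpa [sub_eq_zero] using h2

private lemma isMaximal_of_height (hr : r ≤ 3) (I : Ideal (MvPolynomial (Fin (r + 1)) k))
    [I.IsPrime] (h : ¬ I.height ≤ 3) : I.IsMaximal := by
  have hdim : ringKrullDim (MvPolynomial (Fin (r + 1)) k) = (r + 1 : ℕ) := by
    rw [MvPolynomial.ringKrullDim_of_isNoetherianRing]
    simp
  obtain ⟨M, hM, hIM⟩ := Ideal.exists_le_maximal I (Ideal.IsPrime.ne_top inferInstance)
  by_cases he : I = M
  · rw [he]
    exact hM
  · exfalso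
    have := hM.isPrime
    have h1 := Ideal.height_add_one_le_of_lt_of_isPrime (lt_of_le_of_ne hIM he)
    have h2 : (M.height : WithBot ℕ∞) ≤ (r + 1 : ℕ) := by
      rw [← hdim]
      exact Ideal.height_le_ringKrullDim_of_isPrime
    have h3 : M.height ≤ (4 : ℕ) := by
      have h4 : (M.height : WithBot ℕ∞) ≤ ((4 : ℕ) : ℕ∞) :=
        h2.trans (by exact_mod_cast (by omega : r + 1 ≤ 4))
      exact_mod_cast h4
    apply h
    have h5 := h1.trans h3
    have h6 : I.height + 1 ≤ (3 : ℕ∞) + 1 := by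
      refine h5.trans (le_of_eq ?_)
      norm_num
    exact (ENat.add_le_add_iff_right (by simp)).1 h6

/-- `Eq Q p` stands for: the hypersurface is equisingular at `Q` along the variety of `p`. -/
theorem eq_of_height [IsAlgClosed k] (F : MvPolynomial (Fin (r + 1)) k)
    (Eq : (Fin (r + 1) → k) → Ideal (MvPolynomial (Fin (r + 1)) k) → Prop)
    (hTA : ∀ (Q : Fin (r + 1) → k) (p : Ideal (MvPolynomial (Fin (r + 1)) k)), p.IsPrime → F ∈ p →
      Q ∈ zeroLocus k p → Eq Q p → ∀ q ∈ (multIdeal F 2).minimalPrimes,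
      Q ∈ zeroLocus k q → q ≤ p)
    (hM1 : ∀ (Q : Fin (r + 1) → k) (p : Ideal (MvPolynomial (Fin (r + 1)) k)), p.IsPrime →
      multIdeal F 2 ≤ p → Q ∈ zeroLocus k p → Eq Q p →
      ∀ N : Ideal (MvPolynomial (Fin (r + 1)) k), N.IsPrime → multIdeal F 2 ≤ N →
      ∀ c : Ideal (MvPolynomial (Fin (r + 1)) k), c.IsPrime → N ≤ c → Q ∈ zeroLocus k c →
      c.height ≤ 3 → (∀ P ∈ zeroLocus k c, ¬ Eq P N) → c ≤ p)
    (N : ℕ) (E : Fin (N + 1) → Set (Fin (r + 1) → k))
    (hzero : E 0 = simplePts F) (hinj : Function.Injective E)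
    (hirr : ∀ i, i ≠ 0 → IrrClosed (zcl (E i)))
    (hchar : ∀ i, i ≠ 0 → E i = {Q ∈ zcl (E i) | Eq Q (vanishingIdeal k (E i))})
    (hcomp : ∀ a, a ≠ 0 → IsComp (singPts F) (zcl (E a)) ∨
      ∃ i, i ≠ 0 ∧ IsComp (zcl (E i) \ E i) (zcl (E a))) :
    (∀ a b, a ≠ b → (a ≠ 0 → (vanishingIdeal k (E a)).height ≤ 3) →
      (b ≠ 0 → (vanishingIdeal k (E b)).height ≤ 3) → Disjoint (E a) (E b)) ∧
    (r ≤ 3 → ∀ a b, a ≠ b → Disjoint (E a) (E b)) := by
  -- equality of closures gives equality of indices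
  have key : ∀ i j, i ≠ 0 → j ≠ 0 → zcl (E i) = zcl (E j) → i = j := by
    intro i j hi hj h
    have h1 : vanishingIdeal k (E i) = vanishingIdeal k (E j) := by
      rw [← vanishingIdeal_zcl (E i), h, vanishingIdeal_zcl]
    apply hinj
    rw [hchar i hi, hchar j hj, h, h1]
  have hprime : ∀ i, i ≠ 0 → (vanishingIdeal k (E i)).IsPrime := by
    intro i hi
    have h1 := (hirr i hi).2
    rwa [vanishingIdeal_zcl] at h1
  have hne : ∀ j, j ≠ 0 → (E j).Nonempty := by
    intro j hj
    rw [Set.nonempty_iff_ne_empty]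
    intro h0
    have h1 := (hirr j hj).2
    rw [vanishingIdeal_zcl, h0, vanishingIdeal_empty] at h1
    exact h1.ne_top rfl
  -- the closures lie in the singular locus
  have hsing : ∀ i, i ≠ 0 → zcl (E i) ⊆ singPts F := by
    intro i
    have wf : WellFounded fun i j : Fin (N + 1) => zcl (E j) ⊂ zcl (E i) := by
      have : IsTrans (Fin (N + 1)) fun i j : Fin (N + 1) => zcl (E j) ⊂ zcl (E i) :=
        ⟨fun x y z hxy hyz => hyz.trans hxy⟩
      have : Std.Irrefl fun i j : Fin (N + 1) => zcl (E j) ⊂ zcl (E i) :=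
        ⟨fun x hx => (ssubset_irrefl _ hx)⟩
      exact Finite.wellFounded_of_trans_of_irrefl _
    induction i using wf.induction with
    | _ i ih =>
      intro hi
      rcases hcomp i hi with h | ⟨j, hj, h⟩
      · exact h.2.1
      · have hss : zcl (E i) ⊂ zcl (E j) := by
          refine ⟨fun x hx => (h.2.1 hx).1, fun h2 => ?_⟩
          obtain ⟨x, hx⟩ := hne j hj
          exact (h.2.1 (h2 (subset_zcl _ hx))).2 hx
        exact hss.1.trans (ih j hss hj)
  have hmult : ∀ i, i ≠ 0 → multIdeal F 2 ≤ vanishingIdeal k (E i) := by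
    intro i hi
    rw [← le_zeroLocus_iff_le_vanishingIdeal, ← singPts_eq]
    exact (subset_zcl _).trans (hsing i hi)
  have hF : ∀ i, i ≠ 0 → F ∈ vanishingIdeal k (E i) := by
    intro i hi x hx
    have := (hsing i hi (subset_zcl _ hx)).1
    simpa using this
  have hEq : ∀ i, i ≠ 0 → ∀ Q ∈ E i, Eq Q (vanishingIdeal k (E i)) := by
    intro i hi Q hQ
    rw [hchar i hi] at hQ
    exact hQ.2
  -- closures through a component
  have hcp : ∀ a, a ≠ 0 → ∀ P ∈ E a, ∀ i, i ≠ 0 → P ∈ zcl (E i) →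
      IsComp (singPts F) (zcl (E i)) → zcl (E a) ⊆ zcl (E i) := by
    intro a ha P hP i hi hPi h
    have hq : vanishingIdeal k (zcl (E i)) ∈ (multIdeal F 2).minimalPrimes :=
      comp_minimalPrimes (by rw [← singPts_eq]; exact h)
    rw [vanishingIdeal_zcl] at hq
    exact zeroLocus_anti_mono
      (hTA P _ (hprime a ha) (hF a ha) (subset_zcl _ hP) (hEq a ha P hP) _ hq hPi)
  -- the main inclusion
  have hincl : ∀ a, a ≠ 0 → ∀ P ∈ E a, ∀ i, i ≠ 0 → P ∈ zcl (E i) →
      (vanishingIdeal k (E i)).height ≤ 3 → zcl (E a) ⊆ zcl (E i) := by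
    intro a ha P hP i hi hPi hht
    rcases hcomp i hi with h | ⟨j, hj, h⟩
    · exact hcp a ha P hP i hi hPi h
    · apply zeroLocus_anti_mono
      refine hM1 P _ (hprime a ha) (hmult a ha) (subset_zcl _ hP) (hEq a ha P hP)
        (vanishingIdeal k (E j)) (hprime j hj) (hmult j hj) (vanishingIdeal k (E i)) (hprime i hi)
        ?_ hPi hht ?_
      · rw [← le_zeroLocus_iff_le_vanishingIdeal]
        exact fun x hx => (h.2.1 (subset_zcl _ hx)).1
      · intro P' hP' hE
        have h1 := h.2.1 hP'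
        apply h1.2
        rw [hchar j hj]
        exact ⟨h1.1, hE⟩
  -- the simple points
  have hzero' : ∀ b, b ≠ 0 → ∀ Q ∈ E 0, Q ∉ E b := by
    intro b hb Q hQ0 hQb
    rw [hzero] at hQ0
    obtain ⟨-, i, hi⟩ := hQ0
    exact hi ((hsing b hb (subset_zcl _ hQb)).2 i)
  have hfirst : ∀ a b, a ≠ b → (a ≠ 0 → (vanishingIdeal k (E a)).height ≤ 3) →
      (b ≠ 0 → (vanishingIdeal k (E b)).height ≤ 3) → Disjoint (E a) (E b) := by
    intro a b hab hha hhb
    rw [Set.disjoint_left]
    intro Q hQa hQb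
    by_cases ha : a = 0
    · subst ha
      exact hzero' b (Ne.symm hab) Q hQa hQb
    by_cases hb : b = 0
    · subst hb
      exact hzero' a ha Q hQb hQa
    exact hab (key a b ha hb (subset_antisymm
      (hincl a ha Q hQa b hb (subset_zcl _ hQb) (hhb hb))
      (hincl b hb Q hQb a ha (subset_zcl _ hQa) (hha ha))))
  refine ⟨hfirst, fun hr => ?_⟩
  -- closures of large height are points
  have hpt : ∀ i, i ≠ 0 → ¬ (vanishingIdeal k (E i)).height ≤ 3 → ∀ Q ∈ zcl (E i),
      zcl (E i) = {Q} := by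
    intro i hi hht Q hQ
    have := hprime i hi
    have hmax := isMaximal_of_height hr _ hht
    obtain ⟨x, hx⟩ := isMaximal_iff_eq_vanishingIdeal_singleton.1 hmax
    have h1 : zcl (E i) = {x} := by
      unfold zcl
      rw [hx, zeroLocus_point]
    rw [h1] at hQ ⊢
    rw [Set.mem_singleton_iff] at hQ
    rw [hQ]
  -- one large height
  have hlarge : ∀ a b, a ≠ 0 → b ≠ 0 → a ≠ b → ∀ Q ∈ E a, Q ∈ E b →
      (vanishingIdeal k (E b)).height ≤ 3 := by
    intro a b ha hb hab Q hQa hQb
    by_contra hht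
    have hZb : zcl (E b) = {Q} := hpt b hb hht Q (subset_zcl _ hQb)
    have hnpt : zcl (E a) ≠ {Q} := by
      intro h
      exact hab (key a b ha hb (h.trans hZb.symm))
    have hQa' : Q ∈ zcl (E a) := subset_zcl _ hQa
    have hnsub : ¬ zcl (E a) ⊆ {Q} := by
      intro h
      exact hnpt (subset_antisymm h (Set.singleton_subset_iff.2 hQa'))
    have hhta : (vanishingIdeal k (E a)).height ≤ 3 := by
      by_contra h
      exact hnpt (hpt a ha h Q hQa')
    rcases hcomp b hb with h | ⟨j, hj, h⟩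
    · apply hnsub
      rw [← hZb]
      exact hcp a ha Q hQa b hb (subset_zcl _ hQb) h
    · have hQj := h.2.1 (subset_zcl _ hQb)
      have hhtj : (vanishingIdeal k (E j)).height ≤ 3 := by
        by_contra h1
        have h2 := hpt j hj h1 Q hQj.1
        have h3 := key j b hj hb (h2.trans hZb.symm)
        rw [h3] at hQj
        exact hQj.2 hQb
      have haj : zcl (E a) ⊆ zcl (E j) := hincl a ha Q hQa j hj hQj.1 hhtj
      by_cases hint : ∃ P ∈ zcl (E a), P ∈ E j
      · obtain ⟨P, hPa, hPj⟩ := hint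
        have hja : zcl (E j) ⊆ zcl (E a) := hincl j hj P hPj a ha hPa hhta
        have h3 := key j a hj ha (subset_antisymm hja haj)
        rw [h3] at hQj
        exact hQj.2 hQa
      · have hsub : zcl (E a) ⊆ zcl (E j) \ E j :=
          fun x hx => ⟨haj hx, fun hxj => hint ⟨x, hx, hxj⟩⟩
        have h4 : zcl (E a) = zcl (E b) := by
          refine h.2.2 _ (hirr a ha) hsub ?_
          rw [hZb]
          exact Set.singleton_subset_iff.2 hQa'
        exact hab (key a b ha hb h4)
  intro a b hab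
  rw [Set.disjoint_left]
  intro Q hQa hQb
  have h1 := hfirst a b hab
    (fun ha => by
      by_cases hb : b = 0
      · subst hb
        exact absurd hQa (hzero' a ha Q hQb)
      · exact hlarge b a hb ha (Ne.symm hab) Q hQb hQa)
    (fun hb => by
      by_cases ha : a = 0
      · subst ha
        exact absurd hQb (hzero' b hb Q hQa)
      · exact hlarge a b ha hb hab Q hQa hQb)
  exact Set.disjoint_left.1 h1 hQa hQb

end H85.Zar
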