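import Pool.Agent.H85.Zar.OpenDefs

set_option linter.style.longLine false

/-! ZQ16: the combinatorics of Zariski's strata of a quasi-affine hypersurface. -/

namespace H85.Zar

open MvPolynomial H9.Zar

universe v

variable {k : Type v} [Field k] {r : ℕ}

private lemma subset_zcl (A : Set (Fin (r + 1) → k)) : A ⊆ zcl A :=
  zeroLocus_vanishingIdeal_le A

private lemma vanishingIdeal_zcl_inter {A U : Set (Fin (r + 1) → k)} (hA : A ⊆ U) :
    vanishingIdeal k (zcl A ∩ U) = vanishingIdeal k A := by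
  refine le_antisymm (vanishingIdeal_anti_mono fun x hx => ⟨subset_zcl A hx, hA hx⟩) ?_
  exact (le_vanishingIdeal_zeroLocus _).trans (vanishingIdeal_anti_mono fun x hx => hx.1)

private lemma singPts_eq (F : MvPolynomial (Fin (r + 1)) k) :
    singPts F = zeroLocus k (multIdeal F 2) := by
  rw [multIdeal, zeroLocus_span]
  ext Q
  simp only [singPts, Set.mem_ofPred_eq, forall_exists_index, and_imp]
  constructor
  · rintro ⟨h0, h1⟩ G w hw rfl
    match w, hw with
    | [], _ => simpa using h0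
    | [i], _ => simpa using h1 i
    | _ :: _ :: _, hw => simp at hw
  · intro h
    refine ⟨?_, fun i => ?_⟩
    · simpa using h F [] (by simp) rfl
    · simpa using h (pderiv i F) [i] (by simp) rfl

private lemma vanishingIdeal_inter_open [IsAlgClosed k] (h : MvPolynomial (Fin (r + 1)) k)
    (P : Ideal (MvPolynomial (Fin (r + 1)) k)) [P.IsPrime]
    (hne : (zeroLocus k P ∩ openSet h).Nonempty) :
    vanishingIdeal k (zeroLocus k P ∩ openSet h) = P := by
  have h1 : vanishingIdeal k (zeroLocus k P) = P := MvPolynomial.IsPrime.vanishingIdeal_zeroLocus P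
  apply le_antisymm
  · intro q hq
    have hh : h ∉ P := by
      intro hh
      obtain ⟨x, hx1, hx2⟩ := hne
      apply hx2
      have := hx1 h hh
      simpa using this
    have hqh : q * h ∈ vanishingIdeal k (zeroLocus k P) := by
      intro x hx
      rw [map_mul]
      by_cases hxU : x ∈ openSet h
      · rw [hq x ⟨hx, hxU⟩, zero_mul]
      · have h0 : eval x h = 0 := by
          by_contra hcon
          exact hxU hcon
        have h2 : (aeval x) h = 0 := by simpa using h0
        rw [h2, mul_zero]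
    rw [h1] at hqh
    exact (Ideal.IsPrime.mem_or_mem inferInstance hqh).resolve_right hh
  · conv_lhs => rw [← h1]
    exact vanishingIdeal_anti_mono fun x hx => hx.1

private lemma irr_inter_open [IsAlgClosed k] (h : MvPolynomial (Fin (r + 1)) k)
    (P : Ideal (MvPolynomial (Fin (r + 1)) k)) [hP : P.IsPrime]
    (hne : (zeroLocus k P ∩ openSet h).Nonempty) :
    IrrClosedIn (openSet h) (zeroLocus k P ∩ openSet h) := by
  refine ⟨?_, ?_⟩
  · unfold zcl
    rw [vanishingIdeal_inter_open h P hne]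
  · rw [vanishingIdeal_inter_open h P hne]
    exact hP

private lemma comp_minimalPrimes [IsAlgClosed k] (h : MvPolynomial (Fin (r + 1)) k)
    {J : Ideal (MvPolynomial (Fin (r + 1)) k)} {W : Set (Fin (r + 1) → k)}
    (hW : IsCompIn (openSet h) (zeroLocus k J ∩ openSet h) W) :
    vanishingIdeal k W ∈ J.minimalPrimes := by
  obtain ⟨⟨hW1, hW2⟩, hW3, hW4⟩ := hW
  refine ⟨⟨hW2, le_zeroLocus_iff_le_vanishingIdeal.1 fun x hx => (hW3 hx).1⟩, ?_⟩
  rintro P ⟨hP, hJP⟩ hPW
  have := hP
  have hWne : W.Nonempty := by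
    rw [Set.nonempty_iff_ne_empty]
    intro h0
    rw [h0, vanishingIdeal_empty] at hW2
    exact hW2.ne_top rfl
  have hWP : W ⊆ zeroLocus k P ∩ openSet h := fun x hx =>
    ⟨zeroLocus_anti_mono hPW (subset_zcl W hx), (hW3 hx).2⟩
  have hne : (zeroLocus k P ∩ openSet h).Nonempty := hWne.mono hWP
  have h2 : zeroLocus k P ∩ openSet h = W :=
    hW4 _ (irr_inter_open h P hne) (fun x hx => ⟨zeroLocus_anti_mono hJP hx.1, hx.2⟩) hWP
  rw [← h2, vanishingIdeal_inter_open h P hne]

private lemma zeroLocus_point (x : Fin (r + 1) → k) :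
    zeroLocus k (vanishingIdeal k ({x} : Set (Fin (r + 1) → k))) = {x} := by
  refine subset_antisymm (fun y hy => ?_) (subset_zcl _)
  rw [Set.mem_singleton_iff]
  funext i
  have h1 : (X i - C (x i) : MvPolynomial (Fin (r + 1)) k) ∈
      vanishingIdeal k ({x} : Set (Fin (r + 1) → k)) := by
    intro z hz
    rw [Set.mem_singleton_iff] at hz
    simp [hz]
  have h2 := hy _ h1
  simpa [sub_eq_zero] using h2

private lemma isMaximal_of_height (hr : r ≤ 3) (I : Ideal (MvPolynomial (Fin (r + 1)) k))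
    [I.IsPrime] (h : ¬ I.height ≤ 3) : I.IsMaximal := by
  have hdim : ringKrullDim (MvPolynomial (Fin (r + 1)) k) = (r + 1 : ℕ) := by
    rw [MvPolynomial.ringKrullDim_of_isNoetherianRing]
    simp
  obtain ⟨M, hM, hIM⟩ := Ideal.exists_le_maximal I (Ideal.IsPrime.ne_top inferInstance)
  by_cases he : I = M
  · rw [he]
    exact hM
  · exfalso
    have := hM.isPrime
    have h1 := Ideal.height_add_one_le_of_lt_of_isPrime (lt_of_le_of_ne hIM he)
    have h2 : (M.height : WithBot ℕ∞) ≤ (r + 1 : ℕ) := by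
      rw [← hdim]
      exact Ideal.height_le_ringKrullDim_of_isPrime
    have h3 : M.height ≤ (4 : ℕ) := by
      have h4 : (M.height : WithBot ℕ∞) ≤ ((4 : ℕ) : ℕ∞) :=
        h2.trans (by exact_mod_cast (by omega : r + 1 ≤ 4))
      exact_mod_cast h4
    apply h
    have h5 := h1.trans h3
    have h6 : I.height + 1 ≤ (3 : ℕ∞) + 1 := by
      refine h5.trans (le_of_eq ?_)
      norm_num
    exact (ENat.add_le_add_iff_right (by simp)).1 h6

/-- `Eq Q p` stands for V is equisingular at Q along the variety of p -/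
theorem eq_of_height_open [IsAlgClosed k] (F h : MvPolynomial (Fin (r + 1)) k)
    (Eq : (Fin (r + 1) → k) → Ideal (MvPolynomial (Fin (r + 1)) k) → Prop)
    (hTA : ∀ (Q : Fin (r + 1) → k) (p : Ideal (MvPolynomial (Fin (r + 1)) k)), p.IsPrime → F ∈ p →
      Q ∈ zeroLocus k p → Eq Q p → ∀ q ∈ (multIdeal F 2).minimalPrimes,
      Q ∈ zeroLocus k q → q ≤ p)
    (hM1 : ∀ (Q : Fin (r + 1) → k) (p : Ideal (MvPolynomial (Fin (r + 1)) k)), p.IsPrime →
      multIdeal F 2 ≤ p → Q ∈ zeroLocus k p → Q ∈ openSet h → Eq Q p →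
      ∀ N : Ideal (MvPolynomial (Fin (r + 1)) k), multIdeal F 2 ≤ N →
      ∀ c : Ideal (MvPolynomial (Fin (r + 1)) k), c.IsPrime → N ≤ c → Q ∈ zeroLocus k c →
      (∀ P ∈ zeroLocus k c, P ∈ openSet h → ¬ Eq P N) →
      (c.height ≤ 3 → c ≤ p) ∧ (p.height ≤ 3 → p ≤ c))
    (N : ℕ) (E : Fin (N + 1) → Set (Fin (r + 1) → k))
    (hzero : E 0 = simplePts F ∩ openSet h) (hinj : Function.Injective E)
    (hirr : ∀ i, i ≠ 0 → IrrClosedIn (openSet h) (zcl (E i) ∩ openSet h))
    (hchar : ∀ i, i ≠ 0 → E i = {Q ∈ zcl (E i) ∩ openSet h | Eq Q (vanishingIdeal k (E i))})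
    (hcomp : ∀ a, a ≠ 0 → IsCompIn (openSet h) (singPts F ∩ openSet h) (zcl (E a) ∩ openSet h) ∨
      ∃ i, i ≠ 0 ∧ IsCompIn (openSet h) ((zcl (E i) ∩ openSet h) \ E i) (zcl (E a) ∩ openSet h)) :
    (∀ a b, a ≠ b → (a ≠ 0 → (vanishingIdeal k (E a)).height ≤ 3) → Disjoint (E a) (E b)) ∧
    (r ≤ 3 → ∀ a b, a ≠ b → Disjoint (E a) (E b)) := by
  have hEU : ∀ i, i ≠ 0 → E i ⊆ openSet h := by
    intro i hi x hx
    rw [hchar i hi] at hx
    exact hx.1.2
  have hEZ : ∀ i, i ≠ 0 → E i ⊆ zcl (E i) ∩ openSet h :=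
    fun i hi x hx => ⟨subset_zcl _ hx, hEU i hi hx⟩
  have hvI : ∀ i, i ≠ 0 → vanishingIdeal k (zcl (E i) ∩ openSet h) = vanishingIdeal k (E i) :=
    fun i hi => vanishingIdeal_zcl_inter (hEU i hi)
  -- equality of closures gives equality of indices
  have key : ∀ i j, i ≠ 0 → j ≠ 0 → zcl (E i) ∩ openSet h = zcl (E j) ∩ openSet h → i = j := by
    intro i j hi hj he
    have h1 : vanishingIdeal k (E i) = vanishingIdeal k (E j) := by
      rw [← hvI i hi, he, hvI j hj]
    apply hinj
    rw [hchar i hi, hchar j hj, he, h1]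
  have hprime : ∀ i, i ≠ 0 → (vanishingIdeal k (E i)).IsPrime := by
    intro i hi
    have h1 := (hirr i hi).2
    rwa [hvI i hi] at h1
  have hne : ∀ j, j ≠ 0 → (E j).Nonempty := by
    intro j hj
    rw [Set.nonempty_iff_ne_empty]
    intro h0
    have h1 := hprime j hj
    rw [h0, vanishingIdeal_empty] at h1
    exact h1.ne_top rfl
  -- the closures lie in the singular locus
  have wf : WellFounded fun i j : Fin (N + 1) =>
      zcl (E j) ∩ openSet h ⊂ zcl (E i) ∩ openSet h := by
    have : IsTrans (Fin (N + 1)) fun i j : Fin (N + 1) =>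
        zcl (E j) ∩ openSet h ⊂ zcl (E i) ∩ openSet h :=
      ⟨fun x y z hxy hyz => hyz.trans hxy⟩
    have : Std.Irrefl fun i j : Fin (N + 1) =>
        zcl (E j) ∩ openSet h ⊂ zcl (E i) ∩ openSet h :=
      ⟨fun x hx => (ssubset_irrefl _ hx)⟩
    exact Finite.wellFounded_of_trans_of_irrefl _
  have hsing : ∀ i, i ≠ 0 → zcl (E i) ∩ openSet h ⊆ singPts F := by
    intro i
    induction i using wf.induction with
    | _ i ih =>
      intro hi
      rcases hcomp i hi with h1 | ⟨j, hj, h1⟩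
      · exact fun x hx => (h1.2.1 hx).1
      · have hss : zcl (E i) ∩ openSet h ⊂ zcl (E j) ∩ openSet h := by
          refine ⟨fun x hx => (h1.2.1 hx).1, fun h2 => ?_⟩
          obtain ⟨x, hx⟩ := hne j hj
          exact (h1.2.1 (h2 (hEZ j hj hx))).2 hx
        exact hss.1.trans (ih j hss hj)
  have hmult : ∀ i, i ≠ 0 → multIdeal F 2 ≤ vanishingIdeal k (E i) := by
    intro i hi
    rw [← le_zeroLocus_iff_le_vanishingIdeal, ← singPts_eq]
    exact (hEZ i hi).trans (hsing i hi)
  have hF : ∀ i, i ≠ 0 → F ∈ vanishingIdeal k (E i) := by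
    intro i hi x hx
    have := (hsing i hi (hEZ i hi hx)).1
    simpa using this
  have hEq : ∀ i, i ≠ 0 → ∀ Q ∈ E i, Eq Q (vanishingIdeal k (E i)) := by
    intro i hi Q hQ
    rw [hchar i hi] at hQ
    exact hQ.2
  -- closures through a component
  have hcp : ∀ a, a ≠ 0 → ∀ P ∈ E a, ∀ i, i ≠ 0 → P ∈ zcl (E i) →
      IsCompIn (openSet h) (singPts F ∩ openSet h) (zcl (E i) ∩ openSet h) →
      zcl (E a) ∩ openSet h ⊆ zcl (E i) ∩ openSet h := by
    intro a ha P hP i hi hPi h1
    have hq : vanishingIdeal k (zcl (E i) ∩ openSet h) ∈ (multIdeal F 2).minimalPrimes :=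
      comp_minimalPrimes h (by rw [← singPts_eq]; exact h1)
    rw [hvI i hi] at hq
    have h2 : zcl (E a) ⊆ zcl (E i) := zeroLocus_anti_mono
      (hTA P _ (hprime a ha) (hF a ha) (subset_zcl _ hP) (hEq a ha P hP) _ hq hPi)
    exact Set.inter_subset_inter_left _ h2
  -- a component of the bad locus and a stratum with a common point
  have hboth : ∀ a, a ≠ 0 → ∀ P ∈ E a, ∀ i, i ≠ 0 → P ∈ zcl (E i) → ∀ j, j ≠ 0 →
      IsCompIn (openSet h) ((zcl (E j) ∩ openSet h) \ E j) (zcl (E i) ∩ openSet h) →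
      ((vanishingIdeal k (E i)).height ≤ 3 → zcl (E a) ∩ openSet h ⊆ zcl (E i) ∩ openSet h) ∧
      ((vanishingIdeal k (E a)).height ≤ 3 → zcl (E i) ∩ openSet h ⊆ zcl (E a) ∩ openSet h) := by
    intro a ha P hP i hi hPi j hj h1
    have h2 := hM1 P _ (hprime a ha) (hmult a ha) (subset_zcl _ hP) (hEU a ha hP)
      (hEq a ha P hP) (vanishingIdeal k (E j)) (hmult j hj) (vanishingIdeal k (E i))
      (hprime i hi) (by
        rw [← le_zeroLocus_iff_le_vanishingIdeal]
        exact fun x hx => (h1.2.1 (hEZ i hi hx)).1.1) hPi (by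
        intro P' hP' hP'U hE
        have h2 := h1.2.1 ⟨hP', hP'U⟩
        apply h2.2
        rw [hchar j hj]
        exact ⟨h2.1, hE⟩)
    exact ⟨fun hht => Set.inter_subset_inter_left _ (zeroLocus_anti_mono (h2.1 hht)),
      fun hht => Set.inter_subset_inter_left _ (zeroLocus_anti_mono (h2.2 hht))⟩
  -- the main inclusion
  have hincl : ∀ a, a ≠ 0 → ∀ P ∈ E a, ∀ i, i ≠ 0 → P ∈ zcl (E i) →
      (vanishingIdeal k (E i)).height ≤ 3 →
      zcl (E a) ∩ openSet h ⊆ zcl (E i) ∩ openSet h := by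
    intro a ha P hP i hi hPi hht
    rcases hcomp i hi with h1 | ⟨j, hj, h1⟩
    · exact hcp a ha P hP i hi hPi h1
    · exact (hboth a ha P hP i hi hPi j hj h1).1 hht
  -- the simple points
  have hzero' : ∀ b, b ≠ 0 → ∀ Q ∈ E 0, Q ∉ E b := by
    intro b hb Q hQ0 hQb
    rw [hzero] at hQ0
    obtain ⟨⟨-, i, hi⟩, -⟩ := hQ0
    exact hi ((hsing b hb (hEZ b hb hQb)).2 i)
  have hfirst : ∀ a b, a ≠ b → (a ≠ 0 → (vanishingIdeal k (E a)).height ≤ 3) →
      Disjoint (E a) (E b) := by
    intro a b hab hha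
    rw [Set.disjoint_left]
    intro Q hQa hQb
    by_cases ha : a = 0
    · subst ha
      exact hzero' b (Ne.symm hab) Q hQa hQb
    by_cases hb : b = 0
    · subst hb
      exact hzero' a ha Q hQb hQa
    have hht := hha ha
    have hQU : Q ∈ openSet h := hEU a ha hQa
    -- a component of the bad locus of a stratum through `Q` is the closure of `E a`
    have hL : ∀ i, i ≠ 0 → Q ∈ zcl (E i) → ∀ j, j ≠ 0 →
        IsCompIn (openSet h) ((zcl (E j) ∩ openSet h) \ E j) (zcl (E i) ∩ openSet h) →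
        i = a := by
      intro i
      induction i using wf.induction with
      | _ i ih =>
        intro hi hQi j hj h1
        have hQj := h1.2.1 ⟨hQi, hQU⟩
        have hja : j ≠ a := by
          rintro rfl
          exact hQj.2 hQa
        have hss : zcl (E i) ∩ openSet h ⊂ zcl (E j) ∩ openSet h := by
          refine ⟨fun x hx => (h1.2.1 hx).1, fun h2 => ?_⟩
          obtain ⟨x, hx⟩ := hne j hj
          exact (h1.2.1 (h2 (hEZ j hj hx))).2 hx
        have haj : zcl (E a) ∩ openSet h ⊆ zcl (E j) ∩ openSet h := by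
          rcases hcomp j hj with h2 | ⟨l, hl, h2⟩
          · exact hcp a ha Q hQa j hj hQj.1.1 h2
          · exact absurd (ih j hss hj hQj.1.1 l hl h2) hja
        by_cases hint : ∃ P ∈ zcl (E a) ∩ openSet h, P ∈ E j
        · obtain ⟨P, hPa, hPj⟩ := hint
          have h3 : zcl (E j) ∩ openSet h ⊆ zcl (E a) ∩ openSet h :=
            hincl j hj P hPj a ha hPa.1 hht
          exact absurd (key j a hj ha (subset_antisymm h3 haj)) hja
        · have hsub : zcl (E a) ∩ openSet h ⊆ (zcl (E j) ∩ openSet h) \ E j :=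
            fun x hx => ⟨haj hx, fun hxj => hint ⟨x, hx, hxj⟩⟩
          have h4 := (hboth a ha Q hQa i hi hQi j hj h1).2 hht
          have h5 : zcl (E a) ∩ openSet h = zcl (E i) ∩ openSet h :=
            h1.2.2 _ (hirr a ha) hsub h4
          exact (key a i ha hi h5).symm
    rcases hcomp b hb with h1 | ⟨j, hj, h1⟩
    · exact hab (key a b ha hb (subset_antisymm
        (hcp a ha Q hQa b hb (subset_zcl _ hQb) h1)
        (hincl b hb Q hQb a ha (subset_zcl _ hQa) hht)))
    · exact hab (hL b hb (subset_zcl _ hQb) j hj h1).symm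
  refine ⟨hfirst, fun hr => ?_⟩
  -- closures of large height are points
  have hpt : ∀ i, i ≠ 0 → ¬ (vanishingIdeal k (E i)).height ≤ 3 →
      ∀ Q ∈ zcl (E i) ∩ openSet h, zcl (E i) ∩ openSet h = {Q} := by
    intro i hi hht Q hQ
    have := hprime i hi
    have hmax := isMaximal_of_height hr _ hht
    obtain ⟨x, hx⟩ := isMaximal_iff_eq_vanishingIdeal_singleton.1 hmax
    have h1 : zcl (E i) = {x} := by
      unfold zcl
      rw [hx, zeroLocus_point]
    have h2 : Q = x := by
      have := hQ.1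
      rwa [h1, Set.mem_singleton_iff] at this
    rw [h1, ← h2]
    exact Set.inter_eq_left.2 (Set.singleton_subset_iff.2 hQ.2)
  intro a b hab
  by_cases ha : a = 0 ∨ (vanishingIdeal k (E a)).height ≤ 3
  · exact hfirst a b hab fun h0 => ha.resolve_left h0
  by_cases hb : b = 0 ∨ (vanishingIdeal k (E b)).height ≤ 3
  · exact (hfirst b a hab.symm fun h0 => hb.resolve_left h0).symm
  push Not at ha hb
  rw [Set.disjoint_left]
  intro Q hQa hQb
  have h1 := hpt a ha.1 (not_le.2 ha.2) Q (hEZ a ha.1 hQa)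
  have h2 := hpt b hb.1 (not_le.2 hb.2) Q (hEZ b hb.1 hQb)
  exact hab (key a b ha.1 hb.1 (h1.trans h2.symm))

end H85.Zar
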