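import Pool.Agent.H9.Zar.Defs

set_option autoImplicit false
set_option linter.style.longLine false

/-!
# Formal coordinate systems
-/

namespace H85.Zar

open MvPowerSeries H9.Zar

universe v

namespace Coord

/-- a power series without constant term is a combination of the variables -/
theorem exists_sum {n : ℕ} {k : Type*} [Field k] (f : MvPowerSeries (Fin n) k)
    (h0 : constantCoeff f = 0) :
    ∃ g : Fin n → MvPowerSeries (Fin n) k, f = ∑ i, X i * g i := by
  let g : Fin n → MvPowerSeries (Fin n) k := fun i d =>
    if ∀ j < i, d j = 0 then coeff (d + Finsupp.single i 1) f else 0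
  have hg : ∀ i d, coeff d (g i) = if ∀ j < i, d j = 0 then coeff (d + Finsupp.single i 1) f else 0 :=
    fun i d => rfl
  refine ⟨g, ?_⟩
  ext e
  rw [map_sum]
  have hX : ∀ i, coeff e (X i * g i) = if Finsupp.single i 1 ≤ e ∧ ∀ j < i, e j = 0 then
      coeff e f else 0 := by
    intro i
    rw [X, coeff_monomial_mul, one_mul, hg]
    by_cases h : Finsupp.single i 1 ≤ e
    · rw [if_pos h, tsub_add_cancel_of_le h]
      have h2 : (∀ j < i, (e - Finsupp.single i 1 : Fin n →₀ ℕ) j = 0) ↔ ∀ j < i, e j = 0 := by
        refine forall₂_congr fun j hj => ?_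
        rw [Finsupp.tsub_apply, Finsupp.single_apply, if_neg hj.ne', tsub_zero]
      simp only [h2, h, true_and]
    · rw [if_neg h, if_neg (fun h' => h h'.1)]
  rw [Finset.sum_congr rfl fun i _ => hX i]
  by_cases he : e = 0
  · subst he
    rw [coeff_zero_eq_constantCoeff_apply, h0]
    simp
  · have hs : e.support.Nonempty := Finsupp.support_nonempty_iff.mpr he
    rw [Finset.sum_eq_single (e.support.min' hs)]
    · rw [if_pos]
      constructor
      · rw [Finsupp.single_le_iff]
        have := Finsupp.mem_support_iff.mp (e.support.min'_mem hs)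
        omega
      · intro j hj
        by_contra hne
        exact absurd (e.support.min'_le j (Finsupp.mem_support_iff.mpr hne)) (not_le.mpr hj)
    · intro i _ hi
      rw [if_neg]
      rintro ⟨h1, h2⟩
      rw [Finsupp.single_le_iff] at h1
      have hmem : i ∈ e.support := Finsupp.mem_support_iff.mpr (by omega)
      have hle := e.support.min'_le i hmem
      rcases lt_or_eq_of_le hle with hlt | heq
      · exact Finsupp.mem_support_iff.mp (e.support.min'_mem hs) (h2 _ hlt)
      · exact hi heq.symm
    · intro h; exact absurd (Finset.mem_univ _) h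

/-- a surjective endomorphism of a Noetherian ring is injective -/
theorem inj_of_surj {R : Type*} [CommRing R] [IsNoetherianRing R] (f : R →+* R)
    (hf : Function.Surjective f) : Function.Injective f := by
  let I : ℕ → Ideal R := fun n => (Ideal.comap f)^[n] ⊥
  have hI0 : I 0 = ⊥ := rfl
  have hI : ∀ n, I (n + 1) = (I n).comap f := fun n => Function.iterate_succ_apply' _ _ _
  have hmono : Monotone I := by
    apply monotone_nat_of_le_succ
    intro n
    induction n with
    | zero => rw [hI0]; exact bot_le
    | succ n ih =>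
      rw [hI, hI (n + 1)]
      exact Ideal.comap_mono ih
  obtain ⟨n, hn⟩ := monotone_stabilizes_iff_noetherian.mpr
    (inferInstance : IsNoetherian R R) ⟨I, hmono⟩
  have h1 : I n = I (n + 1) := hn (n + 1) (Nat.le_succ n)
  have h2 : ∀ m, I m = I (m + 1) → I 0 = I 1 := by
    intro m
    induction m with
    | zero => exact id
    | succ m ih =>
      intro h
      apply ih
      rw [hI, hI (m + 1)] at h
      exact Ideal.comap_injective_of_surjective f hf h
  have h3 := h2 n h1
  rw [hI, hI0] at h3
  rw [RingHom.injective_iff_ker_eq_bot]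
  exact h3.symm

theorem pderiv_map {R S : Type*} [CommSemiring R] [CommSemiring S] {σ : Type*} (f : R →+* S)
    (i : σ) (r : MvPowerSeries σ R) : pderiv S i (map f r) = map f (pderiv R i r) := by
  ext n
  rw [coeff_pderiv, coeff_map, coeff_map, coeff_pderiv, map_mul, map_add, map_natCast, map_one]

end Coord

open Coord

theorem exists_equiv {L : Type*} [Field L] {m : ℕ} (x : Fin m → MvPowerSeries (Fin m) L)
    (h0 : ∀ i, constantCoeff (x i) = 0)
    (hJ : (Matrix.of fun i j => constantCoeff (pderiv L j (x i))).det ≠ 0) :
    ∃ φ : MvPowerSeries (Fin m) L ≃ₐ[L] MvPowerSeries (Fin m) L, ∀ i, φ (X i) = x i := by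
  classical
  have hs : HasSubst x := hasSubst_of_constantCoeff_zero h0
  let Φ : MvPowerSeries (Fin m) L →ₐ[L] MvPowerSeries (Fin m) L := substAlgHom hs
  have hΦX : ∀ i, Φ (X i) = x i := fun i => substAlgHom_X hs i
  -- the ideal of the `x i` is the maximal ideal
  choose g hg using fun i => exists_sum (x i) (h0 i)
  let A : Matrix (Fin m) (Fin m) (MvPowerSeries (Fin m) L) := Matrix.of g
  have hA0 : A.map (constantCoeff : MvPowerSeries (Fin m) L →+* L) =
      Matrix.of fun i j => constantCoeff (pderiv L j (x i)) := by
    ext i j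
    rw [Matrix.map_apply, Matrix.of_apply]
    conv_rhs => rw [hg i]
    rw [map_sum, map_sum, Finset.sum_eq_single j]
    · rw [Derivation.leibniz, pderiv_X_self]
      simp [A]
    · intro k _ hk
      rw [Derivation.leibniz, pderiv_X_of_ne hk]
      simp
    · intro h
      exact absurd (Finset.mem_univ _) h
  have hdet : IsUnit A.det := by
    rw [MvPowerSeries.isUnit_iff_constantCoeff, RingHom.map_det, RingHom.mapMatrix_apply]
    rw [hA0]
    exact isUnit_iff_ne_zero.2 hJ
  have hX : ∀ j, (X j : MvPowerSeries (Fin m) L) = ∑ i, A⁻¹ j i * x i := by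
    have h1 : A.mulVec (X : Fin m → MvPowerSeries (Fin m) L) = x := by
      funext i
      rw [Matrix.mulVec, dotProduct, hg i]
      exact Finset.sum_congr rfl fun j _ => mul_comm _ _
    have h2 : A⁻¹.mulVec x = X := by
      rw [← h1, Matrix.mulVec_mulVec, Matrix.nonsing_inv_mul _ hdet, Matrix.one_mulVec]
    intro j
    conv_lhs => rw [← h2]
    rfl
  have hspan : (Ideal.span (Set.range (X : Fin m → MvPowerSeries (Fin m) L))).map
      (Φ : MvPowerSeries (Fin m) L →+* MvPowerSeries (Fin m) L) =
      Ideal.span (Set.range (X : Fin m → MvPowerSeries (Fin m) L)) := by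
    rw [Ideal.map_span, ← Set.range_comp]
    apply le_antisymm
    · rw [Ideal.span_le]
      rintro _ ⟨i, rfl⟩
      have h1 : ((Φ : MvPowerSeries (Fin m) L →+* MvPowerSeries (Fin m) L) ∘ X) i = x i := hΦX i
      rw [h1, hg i]
      exact Ideal.sum_mem _ fun j _ => Ideal.mul_mem_right _ _ (Ideal.subset_span ⟨j, rfl⟩)
    · rw [Ideal.span_le]
      rintro _ ⟨j, rfl⟩
      rw [SetLike.mem_coe, hX j]
      refine Ideal.sum_mem _ fun i _ => Ideal.mul_mem_left _ _ (Ideal.subset_span ⟨i, ?_⟩)
      exact hΦX i
  have hhaus : IsHausdorff ((Ideal.span (Set.range (X : Fin m → MvPowerSeries (Fin m) L))).map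
      (Φ : MvPowerSeries (Fin m) L →+* MvPowerSeries (Fin m) L)) (MvPowerSeries (Fin m) L) := by
    rw [hspan]
    infer_instance
  have hsurj : Function.Surjective Φ := by
    apply surjective_of_mk_map_comp_surjective
      (I := Ideal.span (Set.range (X : Fin m → MvPowerSeries (Fin m) L)))
      (Φ : MvPowerSeries (Fin m) L →+* MvPowerSeries (Fin m) L)
    intro y
    obtain ⟨y, rfl⟩ := Ideal.Quotient.mk_surjective y
    refine ⟨C (constantCoeff y), ?_⟩
    rw [RingHom.comp_apply, Ideal.Quotient.eq, hspan]
    have h1 : (Φ : MvPowerSeries (Fin m) L →+* MvPowerSeries (Fin m) L) (C (constantCoeff y)) =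
        C (constantCoeff y) := Φ.commutes (constantCoeff y)
    rw [h1]
    obtain ⟨z, hz⟩ := exists_sum (C (constantCoeff y) - y) (by simp)
    rw [hz]
    exact Ideal.sum_mem _ fun j _ => Ideal.mul_mem_right _ _ (Ideal.subset_span ⟨j, rfl⟩)
  have hinj : Function.Injective Φ :=
    inj_of_surj (Φ : MvPowerSeries (Fin m) L →+* MvPowerSeries (Fin m) L) hsurj
  exact ⟨AlgEquiv.ofBijective Φ ⟨hinj, hsurj⟩, hΦX⟩

theorem exists_Theta {L : Type*} [Field L] {n : ℕ}
    (x : Fin (n + 1) → MvPowerSeries (Fin (n + 1)) L)
    (h0 : ∀ i, constantCoeff (x i) = 0)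
    (hJ : (Matrix.of fun i j => constantCoeff (pderiv L j (x i))).det ≠ 0) :
    ∃ Θ : PowerSeries (MvPowerSeries (Fin n) L) ≃ₐ[L] MvPowerSeries (Fin (n + 1)) L,
      (∀ i : Fin n, Θ (PowerSeries.C (X i)) = x i.castSucc) ∧
      Θ PowerSeries.X = x (Fin.last n) := by
  classical
  let σ : Equiv.Perm (Fin (n + 1)) := (finRotate (n + 1)).symm
  have hσ0 : σ 0 = Fin.last n := by
    rw [Equiv.symm_apply_eq, finRotate_last]
  have hσs : ∀ i : Fin n, σ i.succ = i.castSucc := by
    intro i
    rw [Equiv.symm_apply_eq, finRotate_apply, Fin.coeSucc_eq_succ]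
  obtain ⟨φ, hφ⟩ := exists_equiv (fun i => x (σ i)) (fun i => h0 _) (by
    have h1 : (Matrix.of fun i j => constantCoeff (pderiv L j (x (σ i)))) =
        (Matrix.of fun i j => constantCoeff (pderiv L j (x i))).submatrix σ id := rfl
    rw [h1, Matrix.det_permute]
    refine mul_ne_zero ?_ hJ
    have := (Equiv.Perm.sign σ).isUnit
    rcases Int.units_eq_one_or (Equiv.Perm.sign σ) with h | h <;> rw [h] <;> simp)
  refine ⟨(finSuccEquiv L n).symm.trans φ, ?_, ?_⟩
  · intro i
    have h1 : (finSuccEquiv L n).symm (PowerSeries.C (X i)) = X i.succ := by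
      rw [AlgEquiv.symm_apply_eq, finSuccEquiv_X_succ]
    rw [AlgEquiv.trans_apply, h1, hφ, hσs]
  · have h1 : (finSuccEquiv L n).symm PowerSeries.X = X 0 := by
      rw [AlgEquiv.symm_apply_eq, finSuccEquiv_X_zero]
    rw [AlgEquiv.trans_apply, h1, hφ, hσ0]

namespace Coord

/-- the matrix of the generic projection over the polynomial ring -/
noncomputable def MM (n : ℕ) (L : Type v) [Field L] :
    Matrix (Fin (n + 1)) (Fin (n + 1)) (MvPolynomial (Fin n × Fin (n + 1)) L) :=
  Matrix.of fun i j => Fin.lastCases (motive := fun _ => MvPolynomial (Fin n × Fin (n + 1)) L)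
    (if j = Fin.last n then 1 else 0) (fun i => MvPolynomial.X (i, j)) i

theorem det_MM (n : ℕ) (L : Type v) [Field L] : (MM n L).det ≠ 0 := by
  classical
  intro h
  let e : MvPolynomial (Fin n × Fin (n + 1)) L →+* L :=
    MvPolynomial.eval (fun p => if p.1.castSucc = p.2 then 1 else 0)
  have h1 : e.mapMatrix (MM n L) = 1 := by
    ext i j
    rw [RingHom.mapMatrix_apply, Matrix.map_apply, MM, Matrix.of_apply, Matrix.one_apply]
    induction i using Fin.lastCases with
    | last =>
      rw [Fin.lastCases_last]
      by_cases hj : j = Fin.last n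
      · rw [if_pos hj, if_pos hj.symm, map_one]
      · rw [if_neg hj, if_neg (Ne.symm hj), map_zero]
    | cast i =>
      rw [Fin.lastCases_castSucc]
      simp [e]
  have h2 := congrArg e h
  rw [RingHom.map_det, h1, Matrix.det_one, map_zero] at h2
  exact one_ne_zero h2

/-- the embedding of the polynomial ring in the field `GenField` -/
noncomputable def emb (n : ℕ) (L : Type v) [Field L] :
    MvPolynomial (Fin n × Fin (n + 1)) L →+* GenField n L := toGen n L

theorem toRat_injective (n : ℕ) (L : Type v) [Field L] : Function.Injective (toRat n L) :=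
  IsFractionRing.injective (MvPolynomial (Fin n × Fin (n + 1)) L)
    (FractionRing (MvPolynomial (Fin n × Fin (n + 1)) L))

theorem emb_injective (n : ℕ) (L : Type v) [Field L] : Function.Injective (emb n L) := by
  have h1 : Function.Injective (algebraMap (RatField n L) (AlgebraicClosure (RatField n L))) :=
    (algebraMap (RatField n L) (AlgebraicClosure (RatField n L))).injective
  exact h1.comp (toRat_injective n L)

end Coord

open Coord

theorem exists_Theta_gen {L : Type v} [Field L] {n : ℕ}
    (x : Fin (n + 1) → MvPowerSeries (Fin (n + 1)) L)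
    (h0 : ∀ i, constantCoeff (x i) = 0)
    (hJ : (Matrix.of fun i j => constantCoeff (pderiv L j (x i))).det ≠ 0) :
    ∃ Θ : PowerSeries (MvPowerSeries (Fin n) (GenField n L)) ≃ₐ[GenField n L]
        MvPowerSeries (Fin (n + 1)) (GenField n L),
      (∀ i : Fin n, Θ (PowerSeries.C (X i)) = ∑ j, C (gen L i j) * map (incl n L) (x j)) ∧
      Θ PowerSeries.X = map (incl n L) (x (Fin.last n)) := by
  classical
  let x' : Fin (n + 1) → MvPowerSeries (Fin (n + 1)) (GenField n L) := fun i =>
    Fin.lastCases (motive := fun _ => MvPowerSeries (Fin (n + 1)) (GenField n L))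
      (map (incl n L) (x (Fin.last n))) (fun i => ∑ j, C (gen L i j) * map (incl n L) (x j)) i
  have hl : x' (Fin.last n) = map (incl n L) (x (Fin.last n)) := Fin.lastCases_last
  have hc : ∀ i : Fin n, x' i.castSucc = ∑ j, C (gen L i j) * map (incl n L) (x j) :=
    fun i => Fin.lastCases_castSucc i
  obtain ⟨Θ, h1, h2⟩ := exists_Theta x' (by
    intro i
    induction i using Fin.lastCases with
    | last => rw [hl, constantCoeff_map, h0, map_zero]
    | cast i =>
      rw [hc, map_sum]
      exact Finset.sum_eq_zero fun j _ => by rw [map_mul, constantCoeff_map, h0, map_zero, mul_zero])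
    (by
      have hprod : (Matrix.of fun i j => constantCoeff (pderiv (GenField n L) j (x' i))) =
          (emb n L).mapMatrix (MM n L) *
            (incl n L).mapMatrix (Matrix.of fun i j => constantCoeff (pderiv L j (x i))) := by
        ext i j
        rw [Matrix.mul_apply, Matrix.of_apply]
        have h3 : ∀ k, (incl n L).mapMatrix (Matrix.of fun i j => constantCoeff (pderiv L j (x i))) k j =
            constantCoeff (pderiv (GenField n L) j (map (incl n L) (x k))) := by
          intro k
          rw [RingHom.mapMatrix_apply, Matrix.map_apply, Matrix.of_apply, pderiv_map,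
            constantCoeff_map]
        simp only [h3]
        induction i using Fin.lastCases with
        | last =>
          rw [hl, Finset.sum_eq_single (Fin.last n)]
          · rw [RingHom.mapMatrix_apply, Matrix.map_apply, MM, Matrix.of_apply,
              Fin.lastCases_last, if_pos rfl, map_one, one_mul]
          · intro k _ hk
            rw [RingHom.mapMatrix_apply, Matrix.map_apply, MM, Matrix.of_apply,
              Fin.lastCases_last, if_neg hk, map_zero, zero_mul]
          · intro h
            exact absurd (Finset.mem_univ _) h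
        | cast i =>
          rw [hc, map_sum, map_sum]
          refine Finset.sum_congr rfl fun k _ => ?_
          rw [RingHom.mapMatrix_apply, Matrix.map_apply, MM, Matrix.of_apply,
            Fin.lastCases_castSucc, Derivation.leibniz, pderiv_C, smul_zero, add_zero, smul_eq_mul,
            map_mul, constantCoeff_C]
          rfl
      rw [hprod, Matrix.det_mul, ← RingHom.map_det, ← RingHom.map_det]
      refine mul_ne_zero ?_ ?_
      · rw [Ne, map_eq_zero_iff _ (emb_injective n L)]
        exact det_MM n L
      · rw [Ne, map_eq_zero_iff _ (incl n L).injective]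
        exact hJ)
  exact ⟨Θ, fun i => by rw [h1, hc], by rw [h2, hl]⟩

end H85.Zar
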