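import Mathlib

/-!
# The discriminant of a factor

If `G` and `H` are monic and `G` divides `H (Z + ζ)`, then the discriminant of `G` divides a power
of the discriminant of `H`: every prime ideal containing the discriminant of `G` contains the
discriminant of `H`.
-/

set_option autoImplicit false

namespace H85.Zar

open Polynomial

theorem discr_eq {R : Type*} [CommRing R] {f : R[X]} (hf : f.Monic) (h : 0 < f.natDegree) :
    f.discr = (-1) ^ (f.natDegree * (f.natDegree - 1) / 2) *
      resultant f f.derivative f.natDegree (f.natDegree - 1) := by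
  rw [resultant_deriv (natDegree_pos_iff_degree_pos.1 h), hf.leadingCoeff, mul_one, ← mul_assoc,
    ← pow_add, ← two_mul, pow_mul]
  simp

theorem discr_map {R S : Type*} [CommRing R] [CommRing S] [Nontrivial S] (φ : R →+* S) {f : R[X]}
    (hf : f.Monic) : (f.map φ).discr = φ f.discr := by
  rcases Nat.eq_zero_or_pos f.natDegree with h | h
  · obtain rfl := eq_one_of_monic_natDegree_zero hf h
    rw [Polynomial.map_one, ← C_1, ← C_1, discr_C, discr_C, map_one]
  · have h1 : (f.map φ).natDegree = f.natDegree := hf.natDegree_map φ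
    rw [discr_eq hf h, discr_eq (hf.map φ) (by rw [h1]; exact h), h1, derivative_map,
      resultant_map_map]
    simp

theorem discr_eq_zero_iff {L : Type*} [Field L] {f : L[X]} (hf : f.Monic) :
    f.discr = 0 ↔ ¬ f.Separable := by
  rcases Nat.eq_zero_or_pos f.natDegree with h | h
  · obtain rfl := eq_one_of_monic_natDegree_zero hf h
    have h1 : (1 : L[X]).discr = 1 := by
      rw [← C_1, discr_C]
    rw [h1]
    simp [Polynomial.separable_one]
  · rw [discr_eq hf h]
    have h1 : f.derivative.natDegree ≤ f.natDegree - 1 := natDegree_derivative_le f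
    obtain ⟨k, hk⟩ := Nat.exists_eq_add_of_le h1
    have h2 : resultant f f.derivative f.natDegree (f.natDegree - 1) =
        resultant f f.derivative := by
      rw [hk, resultant_add_right_deg _ _ _ _ _ le_rfl]
      simp [hf.coeff_natDegree]
    rw [h2]
    have h3 : ((-1 : L) ^ (f.natDegree * (f.natDegree - 1) / 2)) ≠ 0 :=
      pow_ne_zero _ (neg_ne_zero.2 one_ne_zero)
    rw [mul_eq_zero, or_iff_right h3, resultant_eq_zero_iff]
    constructor
    · rintro ⟨-, h4⟩
      exact h4
    · intro h4
      exact ⟨Or.inl hf.ne_zero, h4⟩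

theorem separable_comp {L : Type*} [Field L] {f : L[X]} (ζ : L) (hf : f.Separable) :
    (f.comp (X + C ζ)).Separable := by
  have h := IsCoprime.map hf (compRingHom (X + C ζ))
  rw [coe_compRingHom_apply, coe_compRingHom_apply] at h
  have h1 : derivative (f.comp (X + C ζ)) = (derivative f).comp (X + C ζ) := by
    rw [derivative_comp]
    simp
  unfold Polynomial.Separable
  rw [h1]
  exact h

theorem discr_dvd_pow {R : Type*} [CommRing R] (G H : Polynomial R) (hG : G.Monic)
    (hH : H.Monic) (ζ : R) (hdvd : G ∣ H.comp (Polynomial.X + Polynomial.C ζ)) :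
    ∃ N, G.discr ∣ H.discr ^ N := by
  have hrad : H.discr ∈ (Ideal.span {G.discr}).radical := by
    rw [Ideal.radical_eq_sInf, Submodule.mem_sInf]
    rintro p ⟨hle, hp⟩
    have hGp : G.discr ∈ p := hle (Ideal.subset_span rfl)
    let φ : R →+* FractionRing (R ⧸ p) :=
      (algebraMap (R ⧸ p) (FractionRing (R ⧸ p))).comp (Ideal.Quotient.mk p)
    have hφ : ∀ x, φ x = 0 ↔ x ∈ p := by
      intro x
      rw [RingHom.comp_apply, ← Ideal.Quotient.eq_zero_iff_mem]
      exact (map_eq_zero_iff _ (IsFractionRing.injective (R ⧸ p) (FractionRing (R ⧸ p))))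
    rw [← hφ, ← discr_map φ hH, discr_eq_zero_iff (hH.map φ)]
    intro hsep
    have h1 : (G.map φ).discr = 0 := by rw [discr_map φ hG, hφ]; exact hGp
    rw [discr_eq_zero_iff (hG.map φ)] at h1
    apply h1
    have h2 := separable_comp (φ ζ) hsep
    obtain ⟨Q, hQ⟩ := hdvd
    have h3 : (H.map φ).comp (X + C (φ ζ)) = G.map φ * Q.map φ := by
      rw [← Polynomial.map_mul, ← hQ, Polynomial.map_comp]
      simp
    rw [h3] at h2
    exact h2.of_mul_left
  obtain ⟨N, hN⟩ := hrad
  exact ⟨N, Ideal.mem_span_singleton.1 hN⟩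

end H85.Zar
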