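import Pool.Agent.H9.Zar.Defs

set_option linter.style.longLine false

/-! ZQ3: `Equising` is invariant under isomorphisms of the ground field. -/

namespace H85.Zar

open MvPowerSeries H9.Zar

universe v

section gen

/-- An isomorphism of ground fields extends to the fields with indeterminates. -/
theorem exists_genIso {k K : Type v} [Field k] [Field K] (n : ℕ) (σ : k ≃+* K) :
    ∃ σ' : GenField n k ≃+* GenField n K,
      (∀ i j, σ' (gen k i j) = gen K i j) ∧ ∀ a, σ' (incl n k a) = incl n K (σ a) := by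
  let e1 : MvPolynomial (Fin n × Fin (n + 1)) k ≃+* MvPolynomial (Fin n × Fin (n + 1)) K :=
    MvPolynomial.mapEquiv _ σ
  let e2 : FractionRing (MvPolynomial (Fin n × Fin (n + 1)) k) ≃+*
      FractionRing (MvPolynomial (Fin n × Fin (n + 1)) K) :=
    IsFractionRing.ringEquivOfRingEquiv e1
  let e2' : RatField n k ≃+* RatField n K := e2
  have h1 : ∀ x, e2 (algebraMap _ (FractionRing (MvPolynomial (Fin n × Fin (n + 1)) k)) x) =
      algebraMap _ (FractionRing (MvPolynomial (Fin n × Fin (n + 1)) K)) (e1 x) := fun x =>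
    IsFractionRing.ringEquivOfRingEquiv_algebraMap e1 x
  have h2 : ∀ x, e2' (toRat n k x) = toRat n K (e1 x) := h1
  let e3 : AlgebraicClosure (RatField n k) ≃+* AlgebraicClosure (RatField n K) :=
    IsAlgClosure.equivOfEquiv _ _ e2'
  have h3 : ∀ x, e3 (algebraMap (RatField n k) (AlgebraicClosure (RatField n k)) x) =
      algebraMap (RatField n K) (AlgebraicClosure (RatField n K)) (e2' x) := fun x =>
    IsAlgClosure.equivOfEquiv_algebraMap _ _ e2' x
  let e4 : GenField n k ≃+* GenField n K := e3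
  have h4 : ∀ x, e4 (toGen n k x) = toGen n K (e1 x) := fun x => by
    change e3 (algebraMap (RatField n k) (AlgebraicClosure (RatField n k)) (toRat n k x)) =
      algebraMap (RatField n K) (AlgebraicClosure (RatField n K)) (toRat n K (e1 x))
    rw [h3, h2]
  refine ⟨e4, fun i j => ?_, fun a => ?_⟩
  · rw [gen, gen, h4]
    congr 1
    simp [e1]
  · rw [incl, incl, RingHom.comp_apply, RingHom.comp_apply, h4]
    congr 1
    simp [e1]

end gen

section mapE

variable {k K : Type*} [Field k] [Field K]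

/-- The isomorphism of power series rings induced by an isomorphism of fields. -/
noncomputable def mapE (σ : k ≃+* K) (m : ℕ) :
    MvPowerSeries (Fin m) k ≃+* MvPowerSeries (Fin m) K :=
  RingEquiv.ofRingHom (map σ.toRingHom) (map σ.symm.toRingHom)
    (by
      ext f d
      simp)
    (by
      ext f d
      simp)

theorem mapE_apply (σ : k ≃+* K) (m : ℕ) (f : MvPowerSeries (Fin m) k) :
    mapE σ m f = map σ.toRingHom f := rfl

theorem mapE_toRingHom (σ : k ≃+* K) (m : ℕ) :
    (mapE σ m : MvPowerSeries (Fin m) k →+* MvPowerSeries (Fin m) K) = map σ.toRingHom := rfl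

theorem mapE_symm_apply (σ : k ≃+* K) (m : ℕ) (f : MvPowerSeries (Fin m) K) :
    (mapE σ m).symm f = map σ.symm.toRingHom f := rfl

@[simp] theorem mapE_X (σ : k ≃+* K) (m : ℕ) (i : Fin m) : mapE σ m (X i) = X i := by
  rw [mapE_apply, map_X]

@[simp] theorem mapE_C (σ : k ≃+* K) (m : ℕ) (a : k) : mapE σ m (C a) = C (σ a) := by
  rw [mapE_apply, map_C]; rfl

@[simp] theorem mapE_symm_X (σ : k ≃+* K) (m : ℕ) (i : Fin m) : (mapE σ m).symm (X i) = X i := by
  rw [mapE_symm_apply, map_X]

@[simp] theorem mapE_symm_C (σ : k ≃+* K) (m : ℕ) (a : K) :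
    (mapE σ m).symm (C a) = C (σ.symm a) := by
  rw [mapE_symm_apply, map_C]; rfl

theorem map_pderiv {R S : Type*} [CommRing R] [CommRing S] {m : ℕ} (g : R →+* S) (i : Fin m)
    (f : MvPowerSeries (Fin m) R) : pderiv S i (map g f) = map g (pderiv R i f) := by
  ext d
  simp [coeff_pderiv]

theorem isUnit_mapE {σ : k ≃+* K} {m : ℕ} {f : MvPowerSeries (Fin m) k} :
    IsUnit (mapE σ m f) ↔ IsUnit f := MulEquiv.isUnit_map (mapE σ m)

end mapE

section ideals

variable {A B : Type*} [CommRing A] [CommRing B]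

theorem map_eq_comap (e : A ≃+* B) (I : Ideal A) :
    I.map (e : A →+* B) = I.comap (e.symm : B →+* A) := Ideal.map_comap_of_equiv e

theorem radical_map_equiv (e : A ≃+* B) (I : Ideal A) :
    (I.map (e : A →+* B)).radical = I.radical.map (e : A →+* B) := by
  rw [map_eq_comap, map_eq_comap, Ideal.comap_radical]

theorem map_le_map_equiv (e : A ≃+* B) (I J : Ideal A) :
    I.map (e : A →+* B) ≤ J.map (e : A →+* B) ↔ I ≤ J := by
  constructor
  · intro h x hx
    rw [map_eq_comap e J] at h
    have h1 : e x ∈ J.comap (e.symm : B →+* A) := h (Ideal.mem_map_of_mem (e : A →+* B) hx)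
    rw [Ideal.mem_comap] at h1
    simpa using h1
  · exact Ideal.map_mono

theorem singIdeal_map {k K : Type*} [Field k] [Field K] {m : ℕ} (σ : k ≃+* K)
    (f : MvPowerSeries (Fin m) k) :
    singIdeal (mapE σ m f) = (singIdeal f).map (mapE σ m : _ →+* _) := by
  rw [singIdeal, singIdeal, Ideal.map_span]
  congr 1
  ext x
  simp only [Set.mem_union, Set.mem_singleton_iff, Set.mem_range, Set.mem_image, RingEquiv.coe_toRingHom]
  constructor
  · rintro (rfl | ⟨i, rfl⟩)
    · exact ⟨f, Or.inl rfl, rfl⟩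
    · exact ⟨pderiv k i f, Or.inr ⟨i, rfl⟩, (map_pderiv σ.toRingHom i f).symm⟩
  · rintro ⟨y, (rfl | ⟨i, rfl⟩), rfl⟩
    · exact Or.inl rfl
    · exact Or.inr ⟨i, map_pderiv σ.toRingHom i f⟩

theorem isSimple_map {k K : Type*} [Field k] [Field K] {m : ℕ} (σ : k ≃+* K)
    {f : MvPowerSeries (Fin m) k} (h : IsSimple f) : IsSimple (mapE σ m f) := by
  obtain ⟨h0, i, hi⟩ := h
  refine ⟨?_, i, ?_⟩
  · rw [mapE_apply, constantCoeff_map, h0, map_zero]
  · rw [mapE_apply, map_pderiv, constantCoeff_map]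
    intro h
    apply hi
    have : σ (constantCoeff (pderiv k i f)) = 0 := h
    simpa using this

theorem squarefree_map {A B : Type*} [CommRing A] [CommRing B] (e : A ≃+* B) {x : A}
    (h : Squarefree x) : Squarefree (e x) := by
  intro y hy
  have h1 : e.symm y * e.symm y ∣ x := by
    have := map_dvd e.symm hy
    rwa [map_mul, RingEquiv.symm_apply_apply] at this
  have h2 := h _ h1
  have h3 : IsUnit (e (e.symm y)) := (MulEquiv.isUnit_map e).2 h2
  rwa [RingEquiv.apply_symm_apply] at h3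

theorem discr_map_iso {A B : Type*} [CommRing A] [CommRing B] (g : A →+* B) (G : Polynomial A)
    (hG : G.Monic) : (G.map g).discr = g G.discr := by
  nontriviality B
  have : Nontrivial A := g.domain_nontrivial
  have hdeg : (G.map g).natDegree = G.natDegree := hG.natDegree_map g
  by_cases h0 : G.natDegree = 0
  · have h1 : G = 1 := by
      rwa [hG.natDegree_eq_zero] at h0
    subst h1
    rw [Polynomial.map_one, ← Polynomial.C_1, ← Polynomial.C_1, Polynomial.discr_C,
      Polynomial.discr_C, map_one]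
  · have hp : 0 < G.degree := Polynomial.natDegree_pos_iff_degree_pos.1 (Nat.pos_of_ne_zero h0)
    have hp' : 0 < (G.map g).degree := by
      rw [hG.degree_map g]; exact hp
    have e1 := Polynomial.resultant_deriv hp
    have e2 := Polynomial.resultant_deriv hp'
    rw [hdeg, (hG.map g).leadingCoeff, mul_one, Polynomial.derivative_map,
      Polynomial.resultant_map_map, e1, hG.leadingCoeff, mul_one, map_mul, map_pow, map_neg,
      map_one] at e2
    have hu : IsUnit ((-1 : B) ^ (G.natDegree * (G.natDegree - 1) / 2)) := (isUnit_one.neg).pow _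
    exact (hu.mul_left_cancel e2).symm

end ideals

section step

variable {n : ℕ} {k K L L' : Type*} [Field k] [Field K] [Field L] [Field L']

/-- The transported automorphism. -/
noncomputable def phiE (σ : k ≃+* K) {m : ℕ}
    (φ : MvPowerSeries (Fin m) k ≃ₐ[k] MvPowerSeries (Fin m) k) :
    MvPowerSeries (Fin m) K ≃ₐ[K] MvPowerSeries (Fin m) K :=
  AlgEquiv.ofRingEquiv (f := (mapE σ m).symm.trans (φ.toRingEquiv.trans (mapE σ m)))
    (fun r => by
      have h : (mapE σ m).symm (algebraMap K (MvPowerSeries (Fin m) K) r) =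
          algebraMap k (MvPowerSeries (Fin m) k) (σ.symm r) := by
        rw [MvPowerSeries.algebraMap_apply, MvPowerSeries.algebraMap_apply]
        exact mapE_symm_C σ m r
      have h2 : mapE σ m (φ ((mapE σ m).symm (algebraMap K (MvPowerSeries (Fin m) K) r))) =
          algebraMap K (MvPowerSeries (Fin m) K) r := by
        rw [h, AlgEquiv.commutes, MvPowerSeries.algebraMap_apply, MvPowerSeries.algebraMap_apply]
        simp
      exact h2)

theorem phiE_apply (σ : k ≃+* K) {m : ℕ}
    (φ : MvPowerSeries (Fin m) k ≃ₐ[k] MvPowerSeries (Fin m) k) (x : MvPowerSeries (Fin m) K) :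
    phiE σ φ x = mapE σ m (φ ((mapE σ m).symm x)) := rfl

/-- The isomorphism of power series rings over power series rings. -/
noncomputable def pmapE (σ : L ≃+* L') (m : ℕ) :
    PowerSeries (MvPowerSeries (Fin m) L) ≃+* PowerSeries (MvPowerSeries (Fin m) L') :=
  RingEquiv.ofRingHom (PowerSeries.map (mapE σ m : _ →+* _))
    (PowerSeries.map ((mapE σ m).symm : _ →+* _))
    (by
      ext f d : 2
      simp)
    (by
      ext f d : 2
      simp)

theorem pmapE_apply (σ : L ≃+* L') (m : ℕ) (f : PowerSeries (MvPowerSeries (Fin m) L)) :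
    pmapE σ m f = PowerSeries.map (mapE σ m : _ →+* _) f := rfl

theorem pmapE_symm_apply (σ : L ≃+* L') (m : ℕ) (f : PowerSeries (MvPowerSeries (Fin m) L')) :
    (pmapE σ m).symm f = PowerSeries.map ((mapE σ m).symm : _ →+* _) f := rfl

theorem pmapE_symm_C (σ : L ≃+* L') (m : ℕ) (x : MvPowerSeries (Fin m) L') :
    (pmapE σ m).symm (PowerSeries.C x) = PowerSeries.C ((mapE σ m).symm x) := by
  rw [pmapE_symm_apply, PowerSeries.map_C]; rfl

theorem pmapE_symm_X (σ : L ≃+* L') (m : ℕ) :
    (pmapE σ m).symm PowerSeries.X = PowerSeries.X := by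
  rw [pmapE_symm_apply, PowerSeries.map_X]

/-- The transported coordinate isomorphism. -/
noncomputable def ThE (σ : L ≃+* L')
    (Θ : PowerSeries (MvPowerSeries (Fin n) L) ≃ₐ[L] MvPowerSeries (Fin (n + 1)) L) :
    PowerSeries (MvPowerSeries (Fin n) L') ≃ₐ[L'] MvPowerSeries (Fin (n + 1)) L' :=
  AlgEquiv.ofRingEquiv (f := (pmapE σ n).symm.trans (Θ.toRingEquiv.trans (mapE σ (n + 1))))
    (fun r => by
      have h : (pmapE σ n).symm (algebraMap L' (PowerSeries (MvPowerSeries (Fin n) L')) r) =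
          algebraMap L (PowerSeries (MvPowerSeries (Fin n) L)) (σ.symm r) := by
        rw [PowerSeries.algebraMap_apply, PowerSeries.algebraMap_apply, pmapE_symm_C,
          MvPowerSeries.algebraMap_apply, MvPowerSeries.algebraMap_apply]
        exact congrArg _ (mapE_symm_C σ n r)
      have h2 : mapE σ (n + 1)
          (Θ ((pmapE σ n).symm (algebraMap L' (PowerSeries (MvPowerSeries (Fin n) L')) r))) =
          algebraMap L' (MvPowerSeries (Fin (n + 1)) L') r := by
        rw [h, AlgEquiv.commutes, MvPowerSeries.algebraMap_apply, MvPowerSeries.algebraMap_apply]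
        simp
      exact h2)

theorem ThE_apply (σ : L ≃+* L')
    (Θ : PowerSeries (MvPowerSeries (Fin n) L) ≃ₐ[L] MvPowerSeries (Fin (n + 1)) L)
    (x : PowerSeries (MvPowerSeries (Fin n) L')) :
    ThE σ Θ x = mapE σ (n + 1) (Θ ((pmapE σ n).symm x)) := rfl

variable (σ : k ≃+* K) (σ' : L ≃+* L') (i : k →+* L) (i' : K →+* L')
  (hi : ∀ a, σ' (i a) = i' (σ a))

include hi in
theorem mapE_map (m : ℕ) (x : MvPowerSeries (Fin m) k) :
    mapE σ' m (map i x) = map i' (mapE σ m x) := by
  ext d
  rw [mapE_apply, mapE_apply, coeff_map, coeff_map, coeff_map, coeff_map]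
  exact hi _

include hi in
theorem ideal_step (I : Ideal (MvPowerSeries (Fin (n + 1)) k))
    (Θ : PowerSeries (MvPowerSeries (Fin n) L) ≃ₐ[L] MvPowerSeries (Fin (n + 1)) L) :
    ((I.map (map i)).comap (Θ.toAlgHom.toRingHom.comp PowerSeries.C)).map
        (mapE σ' n : _ →+* MvPowerSeries (Fin n) L') =
      ((I.map (mapE σ (n + 1) : _ →+* MvPowerSeries (Fin (n + 1)) K)).map (map i')).comap
        ((ThE σ' Θ).toAlgHom.toRingHom.comp PowerSeries.C) := by
  have e1 : (map (σ := Fin (n + 1)) i').comp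
      (mapE σ (n + 1) : _ →+* MvPowerSeries (Fin (n + 1)) K) =
      (mapE σ' (n + 1) : MvPowerSeries (Fin (n + 1)) L →+* MvPowerSeries (Fin (n + 1)) L').comp
        (map i) := by
    ext1 x
    exact (mapE_map σ σ' i i' hi (n + 1) x).symm
  rw [Ideal.map_map, e1, ← Ideal.map_map, map_eq_comap, map_eq_comap, Ideal.comap_comap,
    Ideal.comap_comap]
  congr 1
  ext1 x
  change Θ (PowerSeries.C ((mapE σ' n).symm x)) =
    (mapE σ' (n + 1)).symm (mapE σ' (n + 1) (Θ ((pmapE σ' n).symm (PowerSeries.C x))))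
  rw [RingEquiv.symm_apply_apply, pmapE_symm_C]

theorem mem_max_mapE {m : ℕ} (x : MvPowerSeries (Fin m) L)
    (hx : x ∈ IsLocalRing.maximalIdeal (MvPowerSeries (Fin m) L)) :
    mapE σ' m x ∈ IsLocalRing.maximalIdeal (MvPowerSeries (Fin m) L') := by
  rw [IsLocalRing.mem_maximalIdeal, mem_nonunits_iff] at hx ⊢
  exact fun h => hx (isUnit_mapE.1 h)

theorem distinguished_map (G : Polynomial (MvPowerSeries (Fin n) L))
    (hG : G.IsDistinguishedAt (IsLocalRing.maximalIdeal _)) :
    (G.map (mapE σ' n : _ →+* MvPowerSeries (Fin n) L')).IsDistinguishedAt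
      (IsLocalRing.maximalIdeal _) where
  mem := by
    intro l hl
    rw [hG.monic.natDegree_map] at hl
    rw [Polynomial.coeff_map]
    exact mem_max_mapE σ' _ (hG.mem hl)
  monic := hG.monic.map _

theorem ThE_coe (Θ : PowerSeries (MvPowerSeries (Fin n) L) ≃ₐ[L] MvPowerSeries (Fin (n + 1)) L)
    (G : Polynomial (MvPowerSeries (Fin n) L)) :
    ThE σ' Θ ((G.map (mapE σ' n : _ →+* MvPowerSeries (Fin n) L') :
      Polynomial (MvPowerSeries (Fin n) L')) : PowerSeries (MvPowerSeries (Fin n) L')) =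
      mapE σ' (n + 1) (Θ (G : PowerSeries (MvPowerSeries (Fin n) L))) := by
  rw [ThE_apply, Polynomial.polynomial_map_coe, ← pmapE_apply, RingEquiv.symm_apply_apply]

end step

theorem equising_succ {n : ℕ} {k : Type v} [Field k] (f : MvPowerSeries (Fin (n + 1)) k)
    (I : Ideal (MvPowerSeries (Fin (n + 1)) k)) : Equising (n + 1) k f I ↔
    ((¬ singIdeal f ≤ I.radical ∧ IsSimple f) ∨
    (singIdeal f ≤ I.radical ∧
      ∃ (φ : MvPowerSeries (Fin (n + 1)) k ≃ₐ[k] MvPowerSeries (Fin (n + 1)) k)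
        (Θ : PowerSeries (MvPowerSeries (Fin n) (GenField n k)) ≃ₐ[GenField n k]
          MvPowerSeries (Fin (n + 1)) (GenField n k))
        (G : Polynomial (MvPowerSeries (Fin n) (GenField n k)))
        (D : MvPowerSeries (Fin n) (GenField n k)),
        (∀ i : Fin n, Θ (PowerSeries.C (X i)) =
          ∑ j, C (gen k i j) * map (incl n k) (φ (X j))) ∧
        Θ PowerSeries.X = map (incl n k) (φ (X (Fin.last n))) ∧
        G.IsDistinguishedAt (IsLocalRing.maximalIdeal _) ∧
        Associated (map (incl n k) f) (Θ (G : PowerSeries (MvPowerSeries (Fin n) (GenField n k)))) ∧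
        Squarefree D ∧ (∃ a, D ∣ G.discr ^ a) ∧ (∃ b, G.discr ∣ D ^ b) ∧
        Equising n (GenField n k) D
          ((I.map (map (incl n k))).comap (Θ.toAlgHom.toRingHom.comp PowerSeries.C)))) := by
  rw [Equising]
  refine or_congr Iff.rfl (and_congr Iff.rfl (exists_congr fun φ => ?_))
  constructor
  · rintro ⟨Θ, G, D, ⟨h1, h2⟩, ⟨h3, h4⟩, ⟨h5, h6, h7⟩, h8⟩
    exact ⟨Θ, G, D, h1, h2, h3, h4, h5, h6, h7, h8⟩
  · rintro ⟨Θ, G, D, h1, h2, h3, h4, h5, h6, h7, h8⟩
    exact ⟨Θ, G, D, ⟨h1, h2⟩, ⟨h3, h4⟩, ⟨h5, h6, h7⟩, h8⟩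

theorem equising_fieldIso : ∀ (n : ℕ) (k K : Type v) [Field k] [Field K] (σ : k ≃+* K)
    (f : MvPowerSeries (Fin n) k) (I : Ideal (MvPowerSeries (Fin n) k)),
    Equising n k f I → Equising n K (map σ.toRingHom f) (I.map (map σ.toRingHom)) := by
  intro n
  induction n with
  | zero => intro k K _ _ σ f I h; exact h.elim
  | succ n ih =>
    intro k K _ _ σ f I h
    have goal : Equising (n + 1) K (mapE σ (n + 1) f)
        (I.map (mapE σ (n + 1) : _ →+* MvPowerSeries (Fin (n + 1)) K)) := by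
      rw [equising_succ] at h ⊢
      have hle : singIdeal (mapE σ (n + 1) f) ≤
          (I.map (mapE σ (n + 1) : _ →+* MvPowerSeries (Fin (n + 1)) K)).radical ↔
          singIdeal f ≤ I.radical := by
        rw [singIdeal_map, radical_map_equiv, map_le_map_equiv]
      rcases h with ⟨h1, h2⟩ | ⟨h1, φ, Θ, G, D, hΘX, hΘZ, hG, hfG, hD, ⟨a, ha⟩, ⟨b, hb⟩, hE⟩
      · exact Or.inl ⟨fun h => h1 (hle.1 h), isSimple_map σ h2⟩
      · obtain ⟨σ', hσ1, hσ2⟩ := exists_genIso n σ
        have hdis := discr_map_iso (mapE σ' n : _ →+* MvPowerSeries (Fin n) (GenField n K)) G hG.monic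
        refine Or.inr ⟨hle.2 h1, phiE σ φ, ThE σ' Θ,
          G.map (mapE σ' n : _ →+* MvPowerSeries (Fin n) (GenField n K)), mapE σ' n D,
          fun i => ?_, ?_, distinguished_map σ' G hG, ?_, squarefree_map _ hD, ⟨a, ?_⟩, ⟨b, ?_⟩, ?_⟩
        · rw [ThE_apply, pmapE_symm_C, mapE_symm_X, hΘX, map_sum]
          refine Finset.sum_congr rfl fun j _ => ?_
          rw [map_mul, mapE_C, hσ1, mapE_map σ σ' _ _ hσ2, phiE_apply, mapE_symm_X]
        · rw [ThE_apply, pmapE_symm_X, hΘZ, mapE_map σ σ' _ _ hσ2, phiE_apply, mapE_symm_X]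
        · rw [ThE_coe, ← mapE_map σ σ' _ _ hσ2]
          exact hfG.map (mapE σ' (n + 1))
        · rw [hdis, ← map_pow]
          exact map_dvd (mapE σ' n) ha
        · rw [hdis, ← map_pow]
          exact map_dvd (mapE σ' n) hb
        · rw [← ideal_step σ σ' _ _ hσ2]
          exact ih _ _ σ' D _ hE
    exact goal

end H85.Zar
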