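import Pool.Agent.H85.Zar.Basic

set_option autoImplicit false
set_option linter.style.longLine false

/-!
# The Jacobian determinant of an automorphism of the power series ring
-/

namespace H85.Zar

open MvPowerSeries H9.Zar

/-- the derivation `φ⁻¹ ∘ ∂_j ∘ φ` -/
noncomputable def conjDer {L : Type*} [Field L] {m : ℕ}
    (φ : MvPowerSeries (Fin m) L ≃ₐ[L] MvPowerSeries (Fin m) L) (j : Fin m) :
    Derivation L (MvPowerSeries (Fin m) L) (MvPowerSeries (Fin m) L) :=
  Derivation.mk'
    { toFun := fun x => φ.symm (pderiv L j (φ x))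
      map_add' := fun x y => by rw [map_add, map_add, map_add]
      map_smul' := fun c x => by rw [map_smul, Derivation.map_smul, map_smul, RingHom.id_apply] }
    (fun x y => by
      show φ.symm (pderiv L j (φ (x * y))) =
        x • φ.symm (pderiv L j (φ y)) + y • φ.symm (pderiv L j (φ x))
      rw [map_mul, Derivation.leibniz, map_add, smul_eq_mul, smul_eq_mul, map_mul, map_mul,
        AlgEquiv.symm_apply_apply, AlgEquiv.symm_apply_apply, smul_eq_mul, smul_eq_mul])

theorem conjDer_apply {L : Type*} [Field L] {m : ℕ}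
    (φ : MvPowerSeries (Fin m) L ≃ₐ[L] MvPowerSeries (Fin m) L) (j : Fin m)
    (x : MvPowerSeries (Fin m) L) : conjDer φ j x = φ.symm (pderiv L j (φ x)) := rfl

/-- the chain rule for an automorphism -/
theorem pderiv_algEquiv {L : Type*} [Field L] {m : ℕ}
    (φ : MvPowerSeries (Fin m) L ≃ₐ[L] MvPowerSeries (Fin m) L) (j : Fin m)
    (f : MvPowerSeries (Fin m) L) :
    pderiv L j (φ f) = ∑ i, pderiv L j (φ (X i)) * φ (pderiv L i f) := by
  have h := congrArg φ (der_eq (conjDer φ j) f)
  rw [conjDer_apply, AlgEquiv.apply_symm_apply, map_sum] at h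
  rw [h]
  refine Finset.sum_congr rfl fun i _ => ?_
  rw [map_mul, conjDer_apply, AlgEquiv.apply_symm_apply]

theorem det_jacobian_ne_zero {L Ω : Type*} [Field L] [Field Ω] {m : ℕ}
    (φ : MvPowerSeries (Fin m) L ≃ₐ[L] MvPowerSeries (Fin m) L)
    (g : MvPowerSeries (Fin m) L →+* Ω) :
    (Matrix.of fun i j => g (pderiv L j (φ (X i)))).det ≠ 0 := by
  classical
  let J : Matrix (Fin m) (Fin m) (MvPowerSeries (Fin m) L) :=
    Matrix.of fun i j => pderiv L j (φ (X i))
  let B : Matrix (Fin m) (Fin m) (MvPowerSeries (Fin m) L) :=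
    Matrix.of fun l i => φ (pderiv L i (φ.symm (X l)))
  have h1 : B * J = 1 := by
    ext l j
    rw [Matrix.mul_apply]
    have h2 := pderiv_algEquiv φ j (φ.symm (X l))
    rw [AlgEquiv.apply_symm_apply] at h2
    have h3 : ∑ i, B l i * J i j = pderiv L j (X l) := by
      rw [h2]
      exact Finset.sum_congr rfl fun i _ => mul_comm _ _
    rw [h3, Matrix.one_apply]
    by_cases h : l = j
    · rw [if_pos h, h, pderiv_X_self]
    · rw [if_neg h, pderiv_X_of_ne h]
  have h2 : B.det * J.det = 1 := by rw [← Matrix.det_mul, h1, Matrix.det_one]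
  have h3 : (Matrix.of fun i j => g (pderiv L j (φ (X i)))) = g.mapMatrix J := rfl
  rw [h3, ← RingHom.map_det]
  intro h0
  have h4 := congrArg g h2
  rw [map_mul, h0, mul_zero, map_one] at h4
  exact zero_ne_one h4

end H85.Zar
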