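import Pool.Agent.H85.Zar.Sp1
import Pool.Agent.H85.Zar.Jacobian
import Pool.Agent.H9.Zar.Alg
import Pool.Agent.H9.Zar.Transfer

set_option linter.style.longLine false

/-! ZQ12: if the reduced discriminant is simple at the generic point of `c`, the hypersurface is
equisingular there. -/

namespace H85.Zar

open MvPowerSeries H9.Zar

universe v

section aux

variable {k : Type v} [Field k] {r : ℕ}

theorem germ_X (Q : Fin (r + 1) → k) (i : Fin (r + 1)) :
    germ Q (MvPolynomial.X i) = X i + C (Q i) := by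
  rw [germ, MvPolynomial.aeval_X]

theorem germ_C (Q : Fin (r + 1) → k) (a : k) : germ Q (MvPolynomial.C a) = C a := by
  rw [germ, MvPolynomial.aeval_C]
  rfl

theorem constantCoeff_germ (Q : Fin (r + 1) → k) (q : MvPolynomial (Fin (r + 1)) k) :
    constantCoeff (germ Q q) = MvPolynomial.eval Q q := by
  have h : (constantCoeff (σ := Fin (r + 1)) (R := k)).comp (germ Q).toRingHom
      = MvPolynomial.eval Q := by
    apply MvPolynomial.ringHom_ext
    · intro a
      rw [RingHom.comp_apply, MvPolynomial.eval_C]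
      change constantCoeff (germ Q (MvPolynomial.C a)) = a
      rw [germ_C, constantCoeff_C]
    · intro i
      rw [RingHom.comp_apply, MvPolynomial.eval_X]
      change constantCoeff (germ Q (MvPolynomial.X i)) = Q i
      rw [germ_X, map_add, constantCoeff_X, constantCoeff_C, zero_add]
  exact DFunLike.congr_fun h q

theorem tau_germ {Ω : Type v} [Field Ω] (Q : Fin (r + 1) → k)
    (g : MvPowerSeries (Fin (r + 1)) k →+* Ω) (q : MvPolynomial (Fin (r + 1)) k) :
    tau g (germ Q q) = germ (fun i => g (germ Q (MvPolynomial.X i)))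
      (MvPolynomial.map (g.comp MvPowerSeries.C) q) := by
  have h : (tau g).comp (germ Q).toRingHom =
      (germ (fun i => g (germ Q (MvPolynomial.X i)))).toRingHom.comp
        (MvPolynomial.map (g.comp MvPowerSeries.C)) := by
    apply MvPolynomial.ringHom_ext
    · intro a
      rw [RingHom.comp_apply, RingHom.comp_apply, MvPolynomial.map_C]
      change tau g (germ Q (MvPolynomial.C a)) = germ _ (MvPolynomial.C (g (MvPowerSeries.C a)))
      rw [germ_C, germ_C, tau_C]
    · intro i
      rw [RingHom.comp_apply, RingHom.comp_apply, MvPolynomial.map_X]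
      change tau g (germ Q (MvPolynomial.X i)) = germ _ (MvPolynomial.X i)
      rw [germ_X, germ_X, map_add, tau_X, tau_C, germ_X, map_add, map_add]
      ring
  exact DFunLike.congr_fun h q

theorem self_mem_multIdeal (F : MvPolynomial (Fin (r + 1)) k) : F ∈ multIdeal F 2 :=
  Ideal.subset_span ⟨[], by simp, rfl⟩

theorem pderiv_mem_multIdeal (F : MvPolynomial (Fin (r + 1)) k) (i : Fin (r + 1)) :
    MvPolynomial.pderiv i F ∈ multIdeal F 2 :=
  Ideal.subset_span ⟨[i], by simp, rfl⟩

end aux

theorem equisingAt_generic {k Ω Ω' : Type v} [Field k] [Field Ω] [Field Ω'] [CharZero Ω'] {r : ℕ}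
    (F : MvPolynomial (Fin (r + 1)) k) (Q : Fin (r + 1) → k)
    (N c : Ideal (MvPolynomial (Fin (r + 1)) k)) (hN : multIdeal F 2 ≤ N) (hNc : N ≤ c)
    (g : MvPowerSeries (Fin (r + 1)) k →+* Ω) (hgc : ∀ q ∈ c, g (germ Q q) = 0)
    (φ : SerAut (r + 1) k) (hφ : IsAlgCoord Q φ)
    (Θ : ProjIso r (GenField r k)) (G : Polynomial (MvPowerSeries (Fin r) (GenField r k)))
    (D : MvPowerSeries (Fin r) (GenField r k))
    (hΘ : IsProj (gen k) (coord φ) Θ) (hG : IsEq Θ (ext r k (germ Q F)) G) (hD : IsRedDiscr G D)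
    (h : MvPowerSeries (Fin (r + 1)) (GenField r k) →+* Ω')
    (ι : GenField r Ω →+* Ω')
    (hgh : h.comp (map (incl r k)) = (ι.comp (incl r Ω)).comp g)
    (hgen : ∀ i j, h (C (gen k i j)) = ι (gen Ω i j))
    (hD0 : h (Θ (PowerSeries.C D)) = 0) (j : Fin r)
    (hD1 : h (Θ (PowerSeries.C (pderiv _ j D))) ≠ 0) :
    EquisingAt (MvPolynomial.map (g.comp MvPowerSeries.C) F)
      (fun i => g (germ Q (MvPolynomial.X i)))
      (N.map (MvPolynomial.map (g.comp MvPowerSeries.C))) := by
  classical
  obtain ⟨hΘ1, hΘ2⟩ := hΘ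
  obtain ⟨hG1, hG2⟩ := hG
  obtain ⟨-, -, b, hb⟩ := hD
  set jj : k →+* Ω := g.comp MvPowerSeries.C with hjj
  set P : Fin (r + 1) → Ω := fun i => g (germ Q (MvPolynomial.X i)) with hP
  have htau : ∀ q, tau g (germ Q q) = germ P (MvPolynomial.map jj q) := fun q => tau_germ Q g q
  have hFN : F ∈ N := hN (self_mem_multIdeal F)
  have hdN : ∀ i, MvPolynomial.pderiv i F ∈ N := fun i => hN (pderiv_mem_multIdeal F i)
  -- the singular locus of the germ
  have hsing : singIdeal (germ Q F) ≤ RingHom.ker g := by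
    rw [singIdeal, Ideal.span_le]
    rintro _ (rfl | ⟨i, rfl⟩)
    · exact hgc F (hNc hFN)
    · rw [SetLike.mem_coe, RingHom.mem_ker]
      beta_reduce
      rw [pderiv_germ]
      exact hgc _ (hNc (hdN i))
  obtain ⟨φ', Θ', G', D', hφ', hΘ'1, hΘ'2, hG', hfG', hD'sq, hD'a, hD'b, -, hE⟩ :=
    sp1_core (germ Q F) (fun i => φ (X i)) Θ G D hΘ1 hΘ2 hG1 hG2 b hb g h ι hgh hgen hsing hD0 j
      hD1 (det_jacobian_ne_zero φ g)
  right
  constructor
  · refine le_trans ?_ Ideal.le_radical
    rw [singIdeal, Ideal.span_le]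
    rintro _ (rfl | ⟨i, rfl⟩)
    · exact Ideal.mem_map_of_mem _ (Ideal.mem_map_of_mem _ hFN)
    · rw [SetLike.mem_coe]
      beta_reduce
      rw [pderiv_germ, MvPolynomial.pderiv_map]
      exact Ideal.mem_map_of_mem _ (Ideal.mem_map_of_mem _ (hdN i))
  · refine ⟨φ', ?_, Θ', G', D', ⟨hΘ'1, hΘ'2⟩, ⟨hG', ?_⟩, ⟨hD'sq, hD'a, hD'b⟩, ?_⟩
    · intro i
      obtain ⟨g0, h0, heval, heq⟩ := hφ i
      refine ⟨MvPolynomial.map jj g0 - MvPolynomial.C (g (φ (X i))) * MvPolynomial.map jj h0,
        MvPolynomial.map jj h0, ?_, ?_⟩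
      · rw [← constantCoeff_germ, ← htau, constantCoeff_tau]
        have hu : IsUnit (germ Q h0) := by
          rw [MvPowerSeries.isUnit_iff_constantCoeff, constantCoeff_germ]
          exact isUnit_iff_ne_zero.2 heval
        exact (hu.map g).ne_zero
      · have h1 := congrArg (tau g) heq
        rw [map_mul, htau, htau] at h1
        rw [hφ', mul_sub, h1, map_sub, map_mul, germ_C]
        ring
    · rw [← htau]
      exact hfG'
    · refine hE (germIdeal P (N.map (MvPolynomial.map jj))) ?_
      intro htop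
      have hle : germIdeal P (N.map (MvPolynomial.map jj)) ≤
          RingHom.ker (constantCoeff (σ := Fin (r + 1)) (R := Ω)) := by
        rw [germIdeal, Ideal.map_le_iff_le_comap, Ideal.map_le_iff_le_comap]
        intro q hq
        rw [Ideal.mem_comap, Ideal.mem_comap, RingHom.mem_ker, ← htau, constantCoeff_tau]
        exact hgc q (hNc hq)
      have h1 : (1 : MvPowerSeries (Fin (r + 1)) Ω) ∈
          RingHom.ker (constantCoeff (σ := Fin (r + 1)) (R := Ω)) := by
        apply hle
        rw [htop]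
        trivial
      rw [RingHom.mem_ker, map_one] at h1
      exact one_ne_zero h1

end H85.Zar
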