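import Pool.Agent.H85.Zar.Sp1

set_option linter.style.longLine false

/-! ZQ17: abstract version of `sp1_core`. -/

namespace H85.Zar

open MvPowerSeries H9.Zar

universe v

open Sp

theorem sp1_abs {k L Ω' : Type v} [Field k] [Field L] [Field Ω'] [CharZero Ω'] {n : ℕ}
    (f : MvPowerSeries (Fin (n + 1)) k)
    (x : Fin (n + 1) → MvPowerSeries (Fin (n + 1)) k)
    (Θ : PowerSeries (MvPowerSeries (Fin n) (GenField n k)) ≃ₐ[GenField n k]
      MvPowerSeries (Fin (n + 1)) (GenField n k))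
    (G : Polynomial (MvPowerSeries (Fin n) (GenField n k)))
    (D : MvPowerSeries (Fin n) (GenField n k))
    (hΘ1 : ∀ i : Fin n, Θ (PowerSeries.C (X i)) = ∑ j, C (gen k i j) * map (incl n k) (x j))
    (hΘ2 : Θ PowerSeries.X = map (incl n k) (x (Fin.last n)))
    (hG : G.IsDistinguishedAt (IsLocalRing.maximalIdeal _))
    (hf : Associated (map (incl n k) f)
      (Θ (G : PowerSeries (MvPowerSeries (Fin n) (GenField n k)))))
    (b : ℕ) (hb : G.discr ∣ D ^ b)
    (h : MvPowerSeries (Fin (n + 1)) (GenField n k) →+* Ω')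
    (ι : GenField n L →+* Ω')
    (hgen : ∀ i j, h (C (gen k i j)) = ι (gen L i j))
    (fL : MvPowerSeries (Fin (n + 1)) L) (xL : Fin (n + 1) → MvPowerSeries (Fin (n + 1)) L)
    (hfL : map (ι.comp (incl n L)) fL = tau h (map (incl n k) f))
    (hxL : ∀ i, map (ι.comp (incl n L)) (xL i) =
      tau h (map (incl n k) (x i)) - C (h (map (incl n k) (x i))))
    (hsing : constantCoeff fL = 0 ∧ ∀ i, constantCoeff (pderiv L i fL) = 0)
    (hD0 : h (Θ (PowerSeries.C D)) = 0) (j : Fin n)
    (hD1 : h (Θ (PowerSeries.C (pderiv _ j D))) ≠ 0)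
    (hJ : (Matrix.of fun i j => constantCoeff (pderiv L j (xL i))).det ≠ 0) :
    ∃ (φ' : MvPowerSeries (Fin (n + 1)) L ≃ₐ[L] MvPowerSeries (Fin (n + 1)) L)
      (Θ' : PowerSeries (MvPowerSeries (Fin n) (GenField n L)) ≃ₐ[GenField n L]
        MvPowerSeries (Fin (n + 1)) (GenField n L))
      (G' : Polynomial (MvPowerSeries (Fin n) (GenField n L)))
      (D' : MvPowerSeries (Fin n) (GenField n L)),
      (∀ i, φ' (X i) = xL i) ∧
      (∀ i : Fin n, Θ' (PowerSeries.C (X i)) =
        ∑ j, C (gen L i j) * map (incl n L) (φ' (X j))) ∧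
      Θ' PowerSeries.X = map (incl n L) (φ' (X (Fin.last n))) ∧
      G'.IsDistinguishedAt (IsLocalRing.maximalIdeal _) ∧
      Associated (map (incl n L) fL)
        (Θ' (G' : PowerSeries (MvPowerSeries (Fin n) (GenField n L)))) ∧
      Squarefree D' ∧ (∃ a, D' ∣ G'.discr ^ a) ∧ (∃ b, G'.discr ∣ D' ^ b) ∧
      IsSimple D' ∧
      ∀ J : Ideal (MvPowerSeries (Fin (n + 1)) L), J ≠ ⊤ →
        Equising n (GenField n L) D'
          ((J.map (map (incl n L))).comap (Θ'.toAlgHom.toRingHom.comp PowerSeries.C)) := by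
  classical
  -- step 1
  have hx0 : ∀ i, constantCoeff (xL i) = 0 := fun i => by
    have h0 := congrArg constantCoeff (hxL i)
    rw [constantCoeff_map, map_sub, constantCoeff_tau, constantCoeff_C, sub_self] at h0
    exact (map_eq_zero_iff _ (ι.comp (incl n L)).injective).1 h0
  obtain ⟨φ', hφ'⟩ := exists_equiv xL hx0 hJ
  obtain ⟨Θ', hΘ'1, hΘ'2⟩ := exists_Theta_gen xL hx0 hJ
  -- step 2
  obtain ⟨Θ'', hΘ''⟩ := exists_baseChange ι Θ'
  have hmm : ∀ r : MvPowerSeries (Fin (n + 1)) L,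
      map ι (map (incl n L) r) = map (ι.comp (incl n L)) r := fun r => by
    rw [map_comp]
    rfl
  have hdiff : ∀ i, tau h (map (incl n k) (x i)) - C (h (map (incl n k) (x i))) =
      map ι (map (incl n L) (xL i)) := fun i => by
    rw [hmm, hxL]
  have h1 : ∀ i, Θ'' (PowerSeries.C (X i)) =
      tau h (Θ (PowerSeries.C (X i))) - C (h (Θ (PowerSeries.C (X i)))) := by
    intro i
    have e1 : (PowerSeries.C (X i) : PowerSeries (MvPowerSeries (Fin n) Ω')) =
        PowerSeries.map (map ι) (PowerSeries.C (X i)) := by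
      rw [PowerSeries.map_C, map_X]
    rw [e1, hΘ'', hΘ'1, hΘ1, map_sum, map_sum, map_sum, map_sum, ← Finset.sum_sub_distrib]
    refine Finset.sum_congr rfl fun j _ => ?_
    rw [map_mul, map_mul, map_mul, map_mul, tau_C, hgen, map_C, ← mul_sub, hdiff]
  have h2 : Θ'' PowerSeries.X = tau h (Θ PowerSeries.X) - C (h (Θ PowerSeries.X)) := by
    have e1 : (PowerSeries.X : PowerSeries (MvPowerSeries (Fin n) Ω')) =
        PowerSeries.map (map ι) PowerSeries.X := by
      rw [PowerSeries.map_X]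
    rw [e1, hΘ'', hΘ'2, hΘ2, hdiff]
  have hΘ0 : ∀ i, constantCoeff (Θ (PowerSeries.C (X i))) = 0 := fun i => by
    rw [constantCoeff_Theta, PowerSeries.coeff_zero_C, constantCoeff_X]
  set ψ : MvPowerSeries (Fin n) (GenField n k) →+* Ω' :=
    h.comp (Θ.toAlgHom.toRingHom.comp PowerSeries.C) with hψ
  have hT := tau_Theta h Θ.toAlgHom hΘ0 Θ''.toAlgHom h1 h2 G
  set H₀ : Polynomial (MvPowerSeries (Fin n) Ω') := G.map (tau ψ) with hH₀
  set ζ : MvPowerSeries (Fin n) Ω' := C (h (Θ PowerSeries.X)) with hζ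
  set H : Polynomial (MvPowerSeries (Fin n) Ω') :=
    H₀.comp (Polynomial.X + Polynomial.C ζ) with hH
  have hH₀m : H₀.Monic := hG.monic.map _
  have hHm : H.Monic := hH₀m.comp_X_add_C ζ
  replace hT : tau h (Θ (G : PowerSeries (MvPowerSeries (Fin n) (GenField n k)))) =
    Θ'' (H : PowerSeries (MvPowerSeries (Fin n) Ω')) := hT
  -- step 3
  set f' := map (incl n L) fL with hf'
  set F' := Θ'.symm f' with hF'
  have hΘF : Θ' F' = f' := Θ'.apply_symm_apply f'
  have hass : Associated (PowerSeries.map (map ι) F')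
      (H : PowerSeries (MvPowerSeries (Fin n) Ω')) := by
    have e1 := hf.map (tau h)
    rw [← hfL, ← hmm, hT, ← hf', ← hΘF, ← hΘ''] at e1
    have e2 := e1.map (Θ''.symm : MvPowerSeries (Fin (n + 1)) Ω' ≃ₐ[Ω'] _)
    rw [AlgEquiv.symm_apply_apply, AlgEquiv.symm_apply_apply] at e2
    exact e2
  -- step 4
  have hF'ne : F'.map (IsLocalRing.residue (MvPowerSeries (Fin n) (GenField n L))) ≠ 0 := by
    by_contra hcon
    have e1 : ∀ m, constantCoeff (PowerSeries.coeff m F') = 0 := by
      intro m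
      by_contra hm
      exact map_residue_ne_zero F' m hm hcon
    have e2 : PowerSeries.map (constantCoeff (σ := Fin n) (R := Ω'))
        (PowerSeries.map (map ι) F') = 0 := by
      ext m
      rw [PowerSeries.coeff_map, PowerSeries.coeff_map, constantCoeff_map, e1, map_zero, map_zero]
    have e3 := hass.map (PowerSeries.map (constantCoeff (σ := Fin n) (R := Ω')))
    rw [e2] at e3
    have e4 := (associated_zero_iff_eq_zero _).1 e3.symm
    have e5 := congrArg (PowerSeries.coeff H.natDegree) e4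
    rw [PowerSeries.coeff_map, Polynomial.coeff_coe, hHm.coeff_natDegree, map_one, map_zero] at e5
    exact one_ne_zero e5
  have hcompl := isAdicComplete n (GenField n L)
  obtain ⟨G', u, HW⟩ := PowerSeries.exists_isWeierstrassFactorization hF'ne
  have hG' : G'.IsDistinguishedAt (IsLocalRing.maximalIdeal _) := HW.isDistinguishedAt
  have hFG : Associated F' (G' : PowerSeries (MvPowerSeries (Fin n) (GenField n L))) := by
    obtain ⟨u', hu'⟩ := HW.isUnit
    rw [HW.eq_mul, ← hu']
    exact (associated_mul_unit_left _ _ u'.isUnit)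
  have hfG : Associated f' (Θ' (G' : PowerSeries (MvPowerSeries (Fin n) (GenField n L)))) := by
    rw [← hΘF]
    exact hFG.map Θ'
  -- step 5
  set Gh : Polynomial (MvPowerSeries (Fin n) Ω') := G'.map (map ι) with hGh
  have hGhm : Gh.Monic := hG'.monic.map _
  have hGhd : Gh.IsDistinguishedAt (IsLocalRing.maximalIdeal _) := by
    refine ⟨⟨fun {i} hi => ?_⟩, hGhm⟩
    rw [hG'.monic.natDegree_map] at hi
    rw [Polynomial.coeff_map, mem_maximalIdeal_iff, constantCoeff_map,
      (mem_maximalIdeal_iff _).1 (hG'.mem hi), map_zero]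
  have hGhc : (Gh : PowerSeries (MvPowerSeries (Fin n) Ω')) =
      PowerSeries.map (map ι) (G' : PowerSeries (MvPowerSeries (Fin n) (GenField n L))) := by
    ext m : 1
    rw [Polynomial.coeff_coe, Polynomial.coeff_map, PowerSeries.coeff_map, Polynomial.coeff_coe]
  have hGhH : Gh ∣ H := by
    apply dvd_of_coe_dvd hGhd
    rw [hGhc]
    exact ((hFG.map (PowerSeries.map (map (σ := Fin n) ι))).symm.trans hass).dvd
  obtain ⟨N, hN⟩ := discr_dvd_pow Gh H₀ hGhm hH₀m ζ hGhH
  rw [hGh, discr_map _ hG'.monic, hH₀, discr_map _ hG.monic] at hN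
  -- step 6
  set s : MvPowerSeries (Fin n) Ω' := tau ψ D with hs
  have hsN : map ι G'.discr ∣ s ^ (b * N) := by
    refine hN.trans ?_
    rw [pow_mul]
    exact pow_dvd_pow_of_dvd (by rw [hs, ← map_pow]; exact map_dvd _ hb) N
  have hs0 : constantCoeff s = 0 := by
    rw [hs, constantCoeff_tau]
    exact hD0
  have hs1 : constantCoeff (pderiv Ω' j s) ≠ 0 := by
    rw [hs, pderiv_tau, constantCoeff_tau]
    exact hD1
  have hsne : s ≠ 0 := by
    intro h0
    apply hs1
    rw [h0, map_zero, map_zero]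
  have hsp : Prime s := (Ideal.span_singleton_prime hsne).1
    (span_isPrime_of_isSimple s ⟨hs0, j, hs1⟩)
  obtain ⟨a, -, ha⟩ := (dvd_prime_pow hsp _).1 hsN
  -- step 7
  have ha0 : a ≠ 0 := by
    rintro rfl
    rw [pow_zero, associated_one_iff_isUnit, MvPowerSeries.isUnit_iff_constantCoeff,
      constantCoeff_map] at ha
    have hdeg : 2 ≤ G'.natDegree := by
      refine two_le_natDegree Θ' F' ?_ (fun i => ?_) HW
      · rw [hΘF, hf', constantCoeff_map, hsing.1, map_zero]
      · rw [hΘF, hf', pderiv_map', constantCoeff_map, hsing.2 i, map_zero]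
    rw [constantCoeff_discr hG' hdeg, map_zero] at ha
    exact not_isUnit_zero ha
  -- step 8
  obtain ⟨D', hD's, hD'j, hD'sq, hD'1, hD'2⟩ := exists_radical ι G'.discr s hs0 j hs1 a ha0 ha
  refine ⟨φ', Θ', G', D', hφ', ?_, ?_, hG', hfG, hD'sq, ⟨1, ?_⟩, ⟨a, hD'2⟩, hD's, ?_⟩
  · intro i
    rw [hΘ'1]
    exact Finset.sum_congr rfl fun j _ => by rw [hφ']
  · rw [hΘ'2, hφ']
  · rw [pow_one]
    exact (dvd_pow_self D' ha0).trans hD'1
  -- step 9
  · intro J hJtop
    obtain ⟨n', rfl⟩ : ∃ n', n = n' + 1 := ⟨n - 1, by have := j.2; omega⟩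
    unfold Equising
    left
    refine ⟨fun hle => ?_, hD's⟩
    have e1 : pderiv _ j D' ∈ singIdeal D' := Ideal.subset_span (Or.inr ⟨j, rfl⟩)
    have e2 : IsUnit (pderiv (GenField (n' + 1) L) j D') := by
      rw [MvPowerSeries.isUnit_iff_constantCoeff]
      exact isUnit_iff_ne_zero.2 hD'j
    have e3 := Ideal.eq_top_of_isUnit_mem _ (hle e1) e2
    rw [Ideal.radical_eq_top, Ideal.eq_top_iff_one, Ideal.mem_comap, map_one,
      ← Ideal.eq_top_iff_one] at e3
    apply hJtop
    have e4 := comap_map_map (incl (n' + 1) L) J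
    rw [e3, Ideal.comap_top] at e4
    exact e4.symm

end H85.Zar
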