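import Pool.Agent.H85.Zar.Generic
import Pool.Agent.H85.Zar.Sp1Abs

set_option linter.style.longLine false

/-! ZQ18: equisingularity at the generic point of `c`, over a small field `L`. -/

namespace H85.Zar

open MvPowerSeries H9.Zar

universe v

/-- A homomorphism of ground fields extends to the fields with indeterminates. -/
theorem exists_genHom {L K : Type v} [Field L] [Field K] (n : ℕ) (e : L →+* K) :
    ∃ e' : GenField n L →+* GenField n K,
      (∀ i j, e' (gen L i j) = gen K i j) ∧ ∀ a, e' (incl n L a) = incl n K (e a) := by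
  let e1 : MvPolynomial (Fin n × Fin (n + 1)) L →+* MvPolynomial (Fin n × Fin (n + 1)) K :=
    MvPolynomial.map e
  have h1i : Function.Injective e1 := MvPolynomial.map_injective e e.injective
  let e2 : FractionRing (MvPolynomial (Fin n × Fin (n + 1)) L) →+*
      FractionRing (MvPolynomial (Fin n × Fin (n + 1)) K) :=
    IsFractionRing.map (A := MvPolynomial (Fin n × Fin (n + 1)) L)
      (B := MvPolynomial (Fin n × Fin (n + 1)) K) h1i
  have h2 : ∀ x, e2 (algebraMap _ (FractionRing (MvPolynomial (Fin n × Fin (n + 1)) L)) x) =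
      algebraMap _ (FractionRing (MvPolynomial (Fin n × Fin (n + 1)) K)) (e1 x) := fun x =>
    IsLocalization.map_eq _ x
  let e2' : RatField n L →+* RatField n K := e2
  have h2' : ∀ x, e2' (toRat n L x) = toRat n K (e1 x) := h2
  let f : RatField n L →+* AlgebraicClosure (RatField n K) :=
    (algebraMap (RatField n K) (AlgebraicClosure (RatField n K))).comp e2'
  let _ : Algebra (RatField n L) (AlgebraicClosure (RatField n K)) := f.toAlgebra
  let e3 : AlgebraicClosure (RatField n L) →ₐ[RatField n L] AlgebraicClosure (RatField n K) :=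
    IsAlgClosed.lift
  let e4 : GenField n L →+* GenField n K := e3.toRingHom
  have h4 : ∀ x, e4 (toGen n L x) = toGen n K (e1 x) := fun x => by
    change e3 (algebraMap (RatField n L) (AlgebraicClosure (RatField n L)) (toRat n L x)) =
      algebraMap (RatField n K) (AlgebraicClosure (RatField n K)) (toRat n K (e1 x))
    rw [e3.commutes, ← h2']
    rfl
  refine ⟨e4, fun i j => ?_, fun a => ?_⟩
  · rw [gen, gen, h4]
    congr 1
    simp [e1]
  · rw [incl, incl, RingHom.comp_apply, RingHom.comp_apply, h4]
    congr 1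
    simp [e1]

/-- The germ of a polynomial and a homomorphism of the ground field. -/
theorem map_germ {L K : Type*} [Field L] [Field K] {r : ℕ} (e : L →+* K) (P : Fin (r + 1) → L)
    (q : MvPolynomial (Fin (r + 1)) L) :
    map e (germ P q) = germ (fun i => e (P i)) (MvPolynomial.map e q) := by
  have h : (map (σ := Fin (r + 1)) e).comp (germ P).toRingHom =
      (germ (fun i => e (P i))).toRingHom.comp (MvPolynomial.map e) := by
    apply MvPolynomial.ringHom_ext
    · intro a
      rw [RingHom.comp_apply, RingHom.comp_apply, MvPolynomial.map_C]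
      change map e (germ P (MvPolynomial.C a)) = germ _ (MvPolynomial.C (e a))
      rw [germ_C, germ_C, map_C]
    · intro i
      rw [RingHom.comp_apply, RingHom.comp_apply, MvPolynomial.map_X]
      change map e (germ P (MvPolynomial.X i)) = germ _ (MvPolynomial.X i)
      rw [germ_X, germ_X, map_add, map_X, map_C]
  exact DFunLike.congr_fun h q

/-! ZQ18 -/
theorem equisingAt_generic' {k L Ω Ω' : Type v} [Field k] [Field L] [Field Ω] [Field Ω']
    [CharZero Ω'] {r : ℕ}
    (F : MvPolynomial (Fin (r + 1)) k) (Q : Fin (r + 1) → k)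
    (N c : Ideal (MvPolynomial (Fin (r + 1)) k)) (hN : multIdeal F 2 ≤ N) (hNc : N ≤ c)
    (g : MvPowerSeries (Fin (r + 1)) k →+* Ω) (hgc : ∀ q ∈ c, g (germ Q q) = 0)
    (j : k →+* L) (e : L →+* Ω) (P : Fin (r + 1) → L) (hje : ∀ a, e (j a) = g (C a))
    (hP : ∀ i, e (P i) = g (germ Q (MvPolynomial.X i)))
    (φ : SerAut (r + 1) k) (hφ : IsAlgCoord Q φ)
    (Θ : ProjIso r (GenField r k)) (G : Polynomial (MvPowerSeries (Fin r) (GenField r k)))
    (D : MvPowerSeries (Fin r) (GenField r k))
    (hΘ : IsProj (gen k) (coord φ) Θ) (hG : IsEq Θ (ext r k (germ Q F)) G) (hD : IsRedDiscr G D)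
    (h : MvPowerSeries (Fin (r + 1)) (GenField r k) →+* Ω')
    (ι : GenField r Ω →+* Ω')
    (hgh : h.comp (map (incl r k)) = (ι.comp (incl r Ω)).comp g)
    (hgen : ∀ i j, h (C (gen k i j)) = ι (gen Ω i j))
    (hD0 : h (Θ (PowerSeries.C D)) = 0) (j0 : Fin r)
    (hD1 : h (Θ (PowerSeries.C (pderiv _ j0 D))) ≠ 0) :
    EquisingAt (MvPolynomial.map j F) P (N.map (MvPolynomial.map j)) := by
  classical
  obtain ⟨hΘ1, hΘ2⟩ := hΘ
  obtain ⟨hG1, hG2⟩ := hG
  obtain ⟨-, -, b, hb⟩ := hD
  -- germs over `L` and over `Ω`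
  have hej : e.comp j = g.comp MvPowerSeries.C := RingHom.ext hje
  have htau : ∀ q, map e (germ P (MvPolynomial.map j q)) = tau g (germ Q q) := by
    intro q
    rw [map_germ, tau_germ, MvPolynomial.map_map, hej]
    congr 2
    funext i
    exact hP i
  have heval : ∀ q, e (MvPolynomial.eval P (MvPolynomial.map j q)) = g (germ Q q) := by
    intro q
    rw [← constantCoeff_germ, ← constantCoeff_map, htau, constantCoeff_tau]
  have heval0 : ∀ q ∈ c, MvPolynomial.eval P (MvPolynomial.map j q) = 0 := by
    intro q hq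
    apply e.injective
    rw [heval, hgc q hq, map_zero]
  have hFN : F ∈ N := hN (self_mem_multIdeal F)
  have hdN : ∀ i, MvPolynomial.pderiv i F ∈ N := fun i => hN (pderiv_mem_multIdeal F i)
  -- the field homomorphisms
  obtain ⟨e', he'1, he'2⟩ := exists_genHom r e
  have hinc : (ι.comp e').comp (incl r L) = (ι.comp (incl r Ω)).comp e := by
    ext a
    exact congrArg ι (he'2 a)
  have hmapL : ∀ y : MvPowerSeries (Fin (r + 1)) L,
      map ((ι.comp e').comp (incl r L)) y = map ι (map (incl r Ω) (map e y)) := by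
    intro y
    rw [hinc]
    ext d
    rfl
  have htauh : ∀ y, tau h (map (incl r k) y) = map ι (map (incl r Ω) (tau g y)) := fun y => by
    rw [tau_map, hgh, map_tau, map_tau]
    rfl
  -- the coordinates
  choose g0 h0 hh0 hgh0 using hφ
  have hunit : ∀ i, MvPolynomial.eval P (MvPolynomial.map j (h0 i)) ≠ 0 := by
    intro i h1
    have hu : IsUnit (germ Q (h0 i)) := by
      rw [MvPowerSeries.isUnit_iff_constantCoeff, constantCoeff_germ]
      exact isUnit_iff_ne_zero.2 (hh0 i)
    apply (hu.map g).ne_zero
    rw [← heval, h1, map_zero]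
  have hy : ∀ i, ∃ y : MvPowerSeries (Fin (r + 1)) L,
      germ P (MvPolynomial.map j (h0 i)) * y = germ P (MvPolynomial.map j (g0 i)) := by
    intro i
    have hu : IsUnit (germ P (MvPolynomial.map j (h0 i))) := by
      rw [MvPowerSeries.isUnit_iff_constantCoeff, constantCoeff_germ]
      exact isUnit_iff_ne_zero.2 (hunit i)
    obtain ⟨u, hu⟩ := hu
    exact ⟨↑u⁻¹ * germ P (MvPolynomial.map j (g0 i)), by rw [← hu, ← mul_assoc, u.mul_inv, one_mul]⟩
  choose y hy using hy
  have hey : ∀ i, map e (y i) = tau g (φ (X i)) := by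
    intro i
    have h1 := congrArg (map e) (hy i)
    have h2 := congrArg (tau g) (hgh0 i)
    rw [map_mul, htau, htau] at h1
    rw [map_mul] at h2
    have hne : tau g (germ Q (h0 i)) ≠ 0 := by
      rw [← htau]
      intro h3
      apply hunit i
      apply e.injective
      rw [map_zero, ← constantCoeff_germ, ← constantCoeff_map, h3, map_zero]
    exact mul_left_cancel₀ hne (h1.trans h2.symm)
  have hec : ∀ i, e (constantCoeff (y i)) = g (φ (X i)) := by
    intro i
    rw [← constantCoeff_map, hey, constantCoeff_tau]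
  obtain ⟨φ', Θ', G', D', hφ', hΘ'1, hΘ'2, hG', hfG', hD'sq, hD'a, hD'b, -, hE⟩ :=
    sp1_abs (germ Q F) (fun i => φ (X i)) Θ G D hΘ1 hΘ2 hG1 hG2 b hb h (ι.comp e')
      (fun i j => by rw [hgen, RingHom.comp_apply, he'1]) (germ P (MvPolynomial.map j F))
      (fun i => y i - C (constantCoeff (y i)))
      (by rw [hmapL, htau, htauh])
      (fun i => by
        have h1 : h (map (incl r k) (φ (X i))) = ι (incl r Ω (g (φ (X i)))) :=
          RingHom.congr_fun hgh _
        rw [hmapL, map_sub, map_sub, map_sub, hey, htauh, h1, map_C, map_C, map_C, hec])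
      ⟨by rw [constantCoeff_germ]; exact heval0 F (hNc hFN), fun i => by
        rw [pderiv_germ, constantCoeff_germ, MvPolynomial.pderiv_map]
        exact heval0 _ (hNc (hdN i))⟩
      hD0 j0 hD1 (by
        intro h1
        have h2 := congrArg e h1
        rw [map_zero, RingHom.map_det] at h2
        apply det_jacobian_ne_zero φ g
        rw [← h2]
        congr 1
        ext i l
        rw [RingHom.mapMatrix_apply, Matrix.map_apply, Matrix.of_apply, Matrix.of_apply,
          ← constantCoeff_map, ← pderiv_map', map_sub, map_C, hey, map_sub, pderiv_C, sub_zero,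
          pderiv_tau, constantCoeff_tau])
  right
  constructor
  · refine le_trans ?_ Ideal.le_radical
    rw [singIdeal, Ideal.span_le]
    rintro _ (rfl | ⟨i, rfl⟩)
    · exact Ideal.mem_map_of_mem _ (Ideal.mem_map_of_mem _ hFN)
    · rw [SetLike.mem_coe]
      beta_reduce
      rw [pderiv_germ, MvPolynomial.pderiv_map]
      exact Ideal.mem_map_of_mem _ (Ideal.mem_map_of_mem _ (hdN i))
  · refine ⟨φ', ?_, Θ', G', D', ⟨hΘ'1, hΘ'2⟩, ⟨hG', ?_⟩, ⟨hD'sq, hD'a, hD'b⟩, ?_⟩
    · intro i
      refine ⟨MvPolynomial.map j (g0 i) -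
        MvPolynomial.C (constantCoeff (y i)) * MvPolynomial.map j (h0 i),
        MvPolynomial.map j (h0 i), hunit i, ?_⟩
      rw [hφ', mul_sub, hy, map_sub, map_mul, germ_C]
      ring
    · exact hfG'
    · refine hE (germIdeal P (N.map (MvPolynomial.map j))) ?_
      intro htop
      have hle : germIdeal P (N.map (MvPolynomial.map j)) ≤
          RingHom.ker (constantCoeff (σ := Fin (r + 1)) (R := L)) := by
        rw [germIdeal, Ideal.map_le_iff_le_comap, Ideal.map_le_iff_le_comap]
        intro q hq
        rw [Ideal.mem_comap, Ideal.mem_comap, RingHom.mem_ker, constantCoeff_germ]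
        exact heval0 q (hNc hq)
      have h1 : (1 : MvPowerSeries (Fin (r + 1)) L) ∈
          RingHom.ker (constantCoeff (σ := Fin (r + 1)) (R := L)) := by
        apply hle
        rw [htop]
        trivial
      rw [RingHom.mem_ker, map_one] at h1
      exact one_ne_zero h1

end H85.Zar
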