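import Mathlib

set_option linter.style.longLine false

/-! A prime minimal over the extension of a prime and lying over it has no larger height. -/

namespace H85.Zar

theorem height_le {A B : Type*} [CommRing A] [CommRing B] [IsNoetherianRing A] [IsNoetherianRing B]
    (f : A →+* B) (p : Ideal A) [p.IsPrime] (q : Ideal B) (hq : q ∈ (p.map f).minimalPrimes)
    (hqp : q.comap f = p) : q.height ≤ p.height := by
  let _ : Algebra A B := f.toAlgebra
  have hqprime : q.IsPrime := hq.1.1
  have hlo : q.LiesOver p := ⟨hqp.symm⟩
  have h1 := Ideal.height_le_height_add_of_liesOver (R := A) (S := B) p q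
  have h2 : (q.map (Ideal.Quotient.mk (p.map (algebraMap A B)))).height = 0 := by
    set J : Ideal B := p.map (algebraMap A B) with hJ
    have hJq : J ≤ q := hq.1.2
    have hker : RingHom.ker (Ideal.Quotient.mk J) ≤ q := by rwa [Ideal.mk_ker]
    have hQ : (q.map (Ideal.Quotient.mk J)).IsPrime :=
      Ideal.map_isPrime_of_surjective Ideal.Quotient.mk_surjective hker
    have hQc : (q.map (Ideal.Quotient.mk J)).comap (Ideal.Quotient.mk J) = q := by
      rw [Ideal.comap_map_of_surjective _ Ideal.Quotient.mk_surjective]
      refine le_antisymm (sup_le le_rfl fun x hx => hker (RingHom.mem_ker.2 (by simpa using hx)))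
        le_sup_left
    rw [Ideal.height_eq_zero_iff]
    refine ⟨⟨hQ, bot_le⟩, fun P hP hPle => ?_⟩
    have hPp : P.IsPrime := hP.1
    have h3 : q ≤ P.comap (Ideal.Quotient.mk J) := by
      refine hq.2 ⟨Ideal.comap_isPrime _ _, ?_⟩ ?_
      · intro x hx
        have hx0 : Ideal.Quotient.mk J x = 0 := Ideal.Quotient.eq_zero_iff_mem.2 hx
        rw [Ideal.mem_comap, hx0]
        exact P.zero_mem
      · rw [← hQc]
        exact Ideal.comap_mono hPle
    rw [Ideal.map_le_iff_le_comap]
    exact h3
  rw [h2, add_zero] at h1
  exact h1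

end H85.Zar
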