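import Pool.Agent.H9.Zar.Lift
import Pool.Agent.H85.Zar.Height

set_option linter.style.longLine false

/-! A prime at which the reduced discriminant is singular has height at least two. -/

namespace H85.Zar

open MvPowerSeries H9.Zar

universe v

theorem two_le_height {n : ℕ} {K : Type v} [Field K] [CharZero K] (D : MvPowerSeries (Fin n) K)
    (J : Ideal (MvPowerSeries (Fin n) K)) (hE : Equising n K D J)
    (w : Ideal (MvPowerSeries (Fin n) K)) [w.IsPrime] (hJw : J ≤ w)
    (c : Ideal (MvPowerSeries (Fin n) K)) [c.IsPrime] (hcw : c ≤ w) (hm : HM K 2 D c) :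
    2 ≤ c.height := by
  cases n with
  | zero => exact absurd hE not_false
  | succ n =>
    rcases hE with ⟨-, hs⟩ | ⟨hsing, φ, Θ, G, D2, -, ⟨hG, hass⟩, ⟨hDsq, -, ⟨b, hD⟩⟩, hE⟩
    · -- simple point
      exfalso
      obtain ⟨i, hi⟩ := hs.2
      have h3 : MvPowerSeries.pderiv K i D ∈ c := (hm.2 (MvPowerSeries.pderiv K i)).1
      have hcP : c.IsPrime := inferInstance
      exact hcP.ne_top (Ideal.eq_top_of_isUnit_mem _ h3
        (MvPowerSeries.isUnit_iff_constantCoeff.mpr (isUnit_iff_ne_zero.mpr hi)))
    · have hchar : CharZero (GenField n K) := charZero_of_injective_ringHom (incl n K).injective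
      set μ : MvPowerSeries (Fin (n + 1)) K →+* MvPowerSeries (Fin (n + 1)) (GenField n K) :=
        ext n K with hμ
      obtain ⟨c0, hc0, hcc0⟩ := exists_lift μ c (comap_map_map (incl n K) c)
      have hle0 : c.map μ ≤ c0 := Ideal.map_le_iff_le_comap.mpr (le_of_eq hcc0.symm)
      obtain ⟨c', hc'min, hc'le⟩ := Ideal.exists_minimalPrimes_le hle0
      have hc'P : c'.IsPrime := hc'min.1.1
      have hcc' : c'.comap μ = c := by
        refine le_antisymm ?_ (Ideal.map_le_iff_le_comap.mp hc'min.1.2)
        rw [← hcc0]
        exact Ideal.comap_mono hc'le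
      have hh1 : c'.height ≤ c.height := height_le μ c c' hc'min hcc'
      set E : PowerSeries (MvPowerSeries (Fin n) (GenField n K)) →+*
        MvPowerSeries (Fin (n + 1)) (GenField n K) := RingHomClass.toRingHom Θ with hE'
      have hqP : (c'.comap E).IsPrime := Ideal.IsPrime.comap _
      have hh2 : (c'.comap E).height = c'.height := RingEquiv.height_comap Θ.toRingEquiv c'
      have htr : HM (GenField n K) 2
          (G : PowerSeries (MvPowerSeries (Fin n) (GenField n K))) (c'.comap E) := by
        have h1 : HM K 2 D (c'.comap μ) := by rw [hcc']; exact hm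
        have hμ' : μ = MvPowerSeries.map (incl n K) := rfl
        rw [hμ', ← HM_map] at h1
        rw [hE', ← HM_equiv]
        exact HM_of_associated hass _ h1
      have hGq : (G : PowerSeries (MvPowerSeries (Fin n) (GenField n K))) ∈ c'.comap E := htr.1
      have hdq : G.discr ∈ (c'.comap E).comap
          (PowerSeries.C (R := MvPowerSeries (Fin n) (GenField n K))) :=
        discr_mem G hG.monic G.discr 1 (by rw [pow_one]) (c'.comap E) hGq
          (htr.2 (DP (GenField n K) n 0)).1
      have hd0 : G.discr ≠ 0 := ne_zero_of_dvd_ne_zero (pow_ne_zero b hDsq.ne_zero) hD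
      have hAC : IsAdicComplete
        (IsLocalRing.maximalIdeal (MvPowerSeries (Fin n) (GenField n K)))
        (MvPowerSeries (Fin n) (GenField n K)) := adicComplete
      obtain ⟨c1, hc1, hc1q, hGc1, hc1b⟩ := exists_prime_le G hG (c'.comap E) hGq ⊥ bot_le
      have hlt0 : (⊥ : Ideal (PowerSeries (MvPowerSeries (Fin n) (GenField n K)))) < c1 := by
        rw [bot_lt_iff_ne_bot]
        rintro rfl
        rw [Ideal.mem_bot, Polynomial.coe_eq_zero_iff] at hGc1
        exact hG.monic.ne_zero hGc1
      have hlt1 : c1 < c'.comap E := by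
        refine lt_of_le_of_ne hc1q ?_
        intro h
        rw [← h, hc1b, Ideal.mem_bot] at hdq
        exact hd0 hdq
      have hbP : (⊥ : Ideal (PowerSeries (MvPowerSeries (Fin n) (GenField n K)))).IsPrime :=
        Ideal.isPrime_bot
      have e1 := Ideal.height_add_one_le_of_lt_of_isPrime hlt0
      have e2 := Ideal.height_add_one_le_of_lt_of_isPrime hlt1
      calc (2 : ℕ∞) = 0 + 1 + 1 := by norm_num
        _ ≤ (⊥ : Ideal (PowerSeries (MvPowerSeries (Fin n) (GenField n K)))).height + 1 + 1 := by
          gcongr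
          exact bot_le
        _ ≤ c1.height + 1 := by gcongr
        _ ≤ (c'.comap E).height := e2
        _ = c'.height := hh2
        _ ≤ c.height := hh1

end H85.Zar
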