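import Pool.Agent.H9.Zar.Step

set_option linter.style.longLine false

/-! ZQ15: height of a prime of `K[[y]][[z]]` containing a distinguished polynomial. -/

namespace H85.Zar

open H9.Zar

universe v

/-- The induction for `height_add_one_le`. -/
theorem height_add_one_le_aux {n : ℕ} {K : Type v} [Field K]
    (G : Polynomial (MvPowerSeries (Fin n) K))
    (hG : G.IsDistinguishedAt (IsLocalRing.maximalIdeal (MvPowerSeries (Fin n) K))) (h : ℕ) :
    ∀ (q : Ideal (PowerSeries (MvPowerSeries (Fin n) K))) (_ : q.IsPrime),
      (G : PowerSeries (MvPowerSeries (Fin n) K)) ∈ q →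
      (h : ℕ∞) ≤ (q.comap (PowerSeries.C (R := MvPowerSeries (Fin n) K))).height →
      ((h + 1 : ℕ) : ℕ∞) ≤ q.height := by
  induction h with
  | zero =>
    intro q hqp hq _
    have hne : q ≠ ⊥ := by
      rintro rfl
      rw [Ideal.mem_bot] at hq
      have h1 : G = 0 := by
        refine Polynomial.coe_injective _ ?_
        rw [hq, Polynomial.coe_zero]
      exact hG.monic.ne_zero h1
    rw [zero_add, Nat.cast_one, Order.one_le_iff_ne_zero]
    intro h0
    have hdom : IsDomain (PowerSeries (MvPowerSeries (Fin n) K)) := NoZeroDivisors.to_isDomain _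
    exact hne (Ideal.height_eq_zero_iff_eq_bot.1 h0)
  | succ h ih =>
    intro q hqp hq hh
    have : (q.comap (PowerSeries.C (R := MvPowerSeries (Fin n) K))).IsPrime :=
      Ideal.comap_isPrime _ _
    have h1 : ¬ (q.comap (PowerSeries.C (R := MvPowerSeries (Fin n) K))).height ≤ (h : ℕ∞) := by
      intro hle
      have h2 := hh.trans hle
      have h3 : h + 1 ≤ h := by exact_mod_cast h2
      omega
    rw [Ideal.height_le_iff] at h1
    push Not at h1
    obtain ⟨p1, hp1, hlt, hle⟩ := h1
    let _ := adicComplete (K := K) (n := n)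
    obtain ⟨c, hc, hcq, hGc, hcp⟩ := exists_prime_le G hG q hq p1 hlt.le
    have hne : c ≠ q := by
      rintro rfl
      rw [hcp] at hlt
      exact lt_irrefl _ hlt
    have h4 := ih c hc hGc (by rw [hcp]; exact hle)
    have h5 := Ideal.height_add_one_le_of_lt_of_isPrime (lt_of_le_of_ne hcq hne)
    refine le_trans ?_ h5
    push_cast at h4 ⊢
    exact add_le_add_left h4 1

theorem height_add_one_le {n : ℕ} {K : Type v} [Field K]
    (G : Polynomial (MvPowerSeries (Fin n) K))
    (hG : G.IsDistinguishedAt (IsLocalRing.maximalIdeal (MvPowerSeries (Fin n) K)))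
    (q : Ideal (PowerSeries (MvPowerSeries (Fin n) K))) [q.IsPrime]
    (hq : (G : PowerSeries (MvPowerSeries (Fin n) K)) ∈ q) :
    (q.comap (PowerSeries.C (R := MvPowerSeries (Fin n) K))).height + 1 ≤ q.height := by
  by_cases hfin : (q.comap (PowerSeries.C (R := MvPowerSeries (Fin n) K))).height = ⊤
  · have key : q.height = ⊤ := by
      refine ENat.eq_top_iff_forall_ge.2 fun m => ?_
      have := height_add_one_le_aux G hG m q inferInstance hq (by rw [hfin]; exact le_top)
      refine le_trans ?_ this
      exact_mod_cast Nat.le_succ m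
    rw [key]; exact le_top
  · obtain ⟨m, hm⟩ := ENat.ne_top_iff_exists.1 hfin
    have := height_add_one_le_aux G hG m q inferInstance hq hm.le
    rw [← hm]
    exact_mod_cast this

end H85.Zar
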