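import Pool.Agent.H85.Zar.Height

set_option linter.style.longLine false

/-! Heights of primes under extension of rings. -/

namespace H85.Zar

/-- If `c ≤ q` are primes and `q` has height at most that of `c`, which is finite, then `c = q`. -/
theorem eq_of_height_le {A : Type*} [CommRing A] [IsNoetherianRing A] (c q : Ideal A) [c.IsPrime]
    [q.IsPrime] (h : c ≤ q) (hh : q.height ≤ c.height) : c = q := by
  by_contra hne
  have h1 := Ideal.height_add_one_le_of_lt_of_isPrime (lt_of_le_of_ne h hne)
  have h2 : c.height < ⊤ := Ideal.height_lt_top_of_isPrime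
  have h3 := (h1.trans hh)
  exact absurd h3 (not_le.2 (by
    rw [ENat.lt_add_one_iff h2.ne]))

end H85.Zar
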