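import Pool.Agent.H9.Zar.Transfer

set_option linter.style.longLine false

/-! Generic lift of a prime of a power series ring to the field with indeterminates. -/

namespace H85.Zar

open MvPowerSeries H9.Zar

universe v

section step1

/-- Coefficient functionals. -/
theorem exists_coeff_functional {k K σ : Type*} [Field k] [Field K] (i : k →+* K)
    (p : MvPolynomial σ k →+* K) (hp : Function.Injective p)
    (hpi : ∀ a, p (MvPolynomial.C a) = i a) :
    ∃ L : K →+ MvPolynomial σ k,
      (∀ (a : k) (x : K), L (i a * x) = MvPolynomial.C a * L x) ∧ ∀ P, L (p P) = P := by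
  let _ : Algebra k K := i.toAlgebra
  let f : MvPolynomial σ k →ₗ[k] K :=
    { toFun := p
      map_add' := map_add _
      map_smul' := by
        intro a x
        rw [MvPolynomial.smul_eq_C_mul, map_mul, hpi, RingHom.id_apply]
        rfl }
  obtain ⟨L, hL⟩ := f.exists_leftInverse_of_injective
    (by
      rw [LinearMap.ker_eq_bot]
      exact hp)
  refine ⟨L.toAddMonoidHom, fun a x => ?_, fun P => LinearMap.congr_fun hL P⟩
  have h : i a * x = a • x := rfl
  rw [h]
  change L (a • x) = _
  rw [map_smul, MvPolynomial.smul_eq_C_mul]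
  rfl

variable {k : Type v} [Field k] (n : ℕ) {m : ℕ}

/-- The canonical linear embedding of the polynomials in the `u_ij`. -/
noncomputable def polyToGen (k : Type v) [Field k] :
    MvPolynomial (Fin n × Fin (n + 1)) k →+* GenField n k := toGen n k

theorem polyToGen_injective : Function.Injective (polyToGen n k) := by
  have h1 : Function.Injective (toRat n k) :=
    IsFractionRing.injective (MvPolynomial (Fin n × Fin (n + 1)) k)
      (FractionRing (MvPolynomial (Fin n × Fin (n + 1)) k))
  have h2 : Function.Injective (algebraMap (RatField n k) (AlgebraicClosure (RatField n k))) :=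
    (algebraMap (RatField n k) (AlgebraicClosure (RatField n k))).injective
  intro x y hxy
  exact h1 (h2 hxy)

theorem polyToGen_C (a : k) : polyToGen n k (MvPolynomial.C a) = incl n k a := rfl

theorem polyToGen_X (s : Fin n × Fin (n + 1)) :
    polyToGen n k (MvPolynomial.X s) = gen k s.1 s.2 := rfl

variable {n}

/-- The polynomials over the power series ring mapped to power series over the big field. -/
noncomputable def theta (n : ℕ) (k : Type v) [Field k] (m : ℕ) :
    MvPolynomial (Fin n × Fin (n + 1)) (MvPowerSeries (Fin m) k) →+*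
      MvPowerSeries (Fin m) (GenField n k) :=
  MvPolynomial.eval₂Hom (MvPowerSeries.map (incl n k)) fun s => C (gen k s.1 s.2)

theorem theta_C (f : MvPowerSeries (Fin m) k) :
    theta n k m (MvPolynomial.C f) = MvPowerSeries.map (incl n k) f := by
  simp [theta]

theorem theta_X (s : Fin n × Fin (n + 1)) :
    theta n k m (MvPolynomial.X s) = C (gen k s.1 s.2) := by
  simp [theta]

theorem theta_monomial (a : Fin n × Fin (n + 1) →₀ ℕ) (f : MvPowerSeries (Fin m) k) :
    theta n k m (MvPolynomial.monomial a f) =
      MvPowerSeries.map (incl n k) f * C (polyToGen n k (MvPolynomial.monomial a 1)) := by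
  classical
  have h1 : C (polyToGen n k (MvPolynomial.monomial a 1)) =
      a.prod fun s e => (C (gen k s.1 s.2) : MvPowerSeries (Fin m) (GenField n k)) ^ e := by
    rw [MvPolynomial.monomial_eq, map_one, one_mul, Finsupp.prod, Finsupp.prod, map_prod, map_prod]
    refine Finset.prod_congr rfl fun s _ => ?_
    rw [map_pow, map_pow, polyToGen_X]
  rw [h1]
  simp [theta, MvPolynomial.eval₂_monomial]

theorem retr_map_mul' (L : GenField n k →+ MvPolynomial (Fin n × Fin (n + 1)) k)
    (hL : ∀ (a : k) (x : GenField n k), L (incl n k a * x) = MvPolynomial.C a * L x)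
    (b : Fin n × Fin (n + 1) →₀ ℕ)
    (f : MvPowerSeries (Fin m) k) (g : MvPowerSeries (Fin m) (GenField n k)) :
    retr ((MvPolynomial.lcoeff k b).toAddMonoidHom.comp L) (MvPowerSeries.map (incl n k) f * g) =
      f * retr ((MvPolynomial.lcoeff k b).toAddMonoidHom.comp L) g := by
  classical
  ext d
  rw [coeff_retr, MvPowerSeries.coeff_mul, MvPowerSeries.coeff_mul, map_sum]
  refine Finset.sum_congr rfl fun x _ => ?_
  rw [MvPowerSeries.coeff_map, coeff_retr]
  simp [hL]

theorem retr_theta (L : GenField n k →+ MvPolynomial (Fin n × Fin (n + 1)) k)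
    (hL : ∀ (a : k) (x : GenField n k), L (incl n k a * x) = MvPolynomial.C a * L x)
    (hL' : ∀ P, L (polyToGen n k P) = P)
    (b : Fin n × Fin (n + 1) →₀ ℕ)
    (P : MvPolynomial (Fin n × Fin (n + 1)) (MvPowerSeries (Fin m) k)) :
    retr ((MvPolynomial.lcoeff k b).toAddMonoidHom.comp L) (theta n k m P) =
      MvPolynomial.coeff b P := by
  classical
  induction P using MvPolynomial.induction_on' with
  | monomial a f =>
    rw [theta_monomial, retr_map_mul' L hL, MvPolynomial.coeff_monomial]
    have h1 : retr ((MvPolynomial.lcoeff k b).toAddMonoidHom.comp L)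
        (C (polyToGen n k (MvPolynomial.monomial a 1)) : MvPowerSeries (Fin m) (GenField n k)) =
        C (if a = b then (1 : k) else 0) := by
      ext d
      rw [coeff_retr, MvPowerSeries.coeff_C, MvPowerSeries.coeff_C]
      by_cases hd : d = 0
      · simp [hd, hL', MvPolynomial.coeff_monomial]
      · simp [hd]
    rw [h1]
    by_cases hab : a = b
    · simp [hab]
    · simp [hab]
  | add p q hp hq =>
    rw [map_add, retr_add, hp, hq, MvPolynomial.coeff_add]

/-- The extended ideal pulls back to the polynomials with coefficients in the ideal. -/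
theorem theta_mem (c : Ideal (MvPowerSeries (Fin m) k))
    (P : MvPolynomial (Fin n × Fin (n + 1)) (MvPowerSeries (Fin m) k))
    (h : theta n k m P ∈ c.map (MvPowerSeries.map (incl n k))) (b : Fin n × Fin (n + 1) →₀ ℕ) :
    MvPolynomial.coeff b P ∈ c := by
  obtain ⟨L, hL, hL'⟩ := exists_coeff_functional (incl n k) (polyToGen n k)
    (polyToGen_injective n) (polyToGen_C n)
  rw [← retr_theta L hL hL' b P]
  have key : ∀ x ∈ c.map (MvPowerSeries.map (σ := Fin m) (incl n k)), ∀ y,
      retr ((MvPolynomial.lcoeff k b).toAddMonoidHom.comp L) (y * x) ∈ c := by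
    intro x hx
    refine Submodule.span_induction ?_ ?_ ?_ ?_ hx
    · rintro _ ⟨p, hp, rfl⟩ y
      rw [mul_comm, retr_map_mul' L hL]
      exact c.mul_mem_right _ hp
    · intro y
      rw [mul_zero, retr_zero]
      exact c.zero_mem
    · intro x y _ _ hx hy z
      rw [mul_add, retr_add]
      exact c.add_mem (hx z) (hy z)
    · intro a x _ hx y
      rw [smul_eq_mul, ← mul_assoc]
      exact hx _
  have := key _ h 1
  rwa [one_mul] at this

theorem comap_theta (c : Ideal (MvPowerSeries (Fin m) k)) :
    (c.map (MvPowerSeries.map (incl n k))).comap (theta n k m) = c.map MvPolynomial.C := by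
  apply le_antisymm
  · intro P hP
    rw [MvPolynomial.mem_map_C_iff]
    exact theta_mem c P hP
  · rw [Ideal.map_le_iff_le_comap]
    intro f hf
    rw [Ideal.mem_comap, Ideal.mem_comap, theta_C]
    exact Ideal.mem_map_of_mem _ hf

/-- The minimal prime. -/
theorem exists_min_prime (c : Ideal (MvPowerSeries (Fin m) k)) [c.IsPrime] :
    ∃ c' ∈ (c.map (MvPowerSeries.map (incl n k))).minimalPrimes,
      c'.comap (theta n k m) = c.map MvPolynomial.C ∧
      c'.comap (MvPowerSeries.map (incl n k)) = c := by
  have hprime : (c.map (MvPolynomial.C : _ →+* MvPolynomial (Fin n × Fin (n + 1))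
    (MvPowerSeries (Fin m) k))).IsPrime := by
    have h : c.map (MvPolynomial.C : _ →+* MvPolynomial (Fin n × Fin (n + 1))
        (MvPowerSeries (Fin m) k)) =
        RingHom.ker (MvPolynomial.map (σ := Fin n × Fin (n + 1)) (Ideal.Quotient.mk c)) := by
      ext P
      rw [MvPolynomial.mem_map_C_iff, RingHom.mem_ker, MvPolynomial.ext_iff]
      refine forall_congr' fun b => ?_
      rw [MvPolynomial.coeff_map, MvPolynomial.coeff_zero, Ideal.Quotient.eq_zero_iff_mem]
    rw [h]
    exact RingHom.ker_isPrime _
  have hmap : (c.map (MvPolynomial.C : _ →+* MvPolynomial (Fin n × Fin (n + 1))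
      (MvPowerSeries (Fin m) k))).map (theta n k m) = c.map (MvPowerSeries.map (incl n k)) := by
    rw [Ideal.map_map]
    congr 1
    ext1 f
    exact theta_C f
  obtain ⟨q, hq, hqc⟩ := (Ideal.comap_map_eq_self_iff_of_isPrime (f := theta n k m)
    (c.map (MvPolynomial.C : _ →+* MvPolynomial (Fin n × Fin (n + 1))
      (MvPowerSeries (Fin m) k)))).1 (by rw [hmap, comap_theta])
  have hle : c.map (MvPowerSeries.map (incl n k)) ≤ q := by
    rw [← hmap, Ideal.map_le_iff_le_comap, hqc]
  obtain ⟨c', hc', hc'q⟩ := Ideal.exists_minimalPrimes_le hle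
  have h1 : c'.comap (theta n k m) = c.map MvPolynomial.C := by
    apply le_antisymm
    · rw [← hqc]
      exact Ideal.comap_mono hc'q
    · rw [← comap_theta]
      exact Ideal.comap_mono hc'.1.2
  refine ⟨c', hc', h1, ?_⟩
  ext f
  have h2 : f ∈ c'.comap (MvPowerSeries.map (incl n k)) ↔
      MvPolynomial.C f ∈ c'.comap (theta n k m) := by
    rw [Ideal.mem_comap, Ideal.mem_comap, theta_C]
  rw [h2, h1, MvPolynomial.mem_map_C_iff]
  constructor
  · intro h
    have := h 0
    simpa using this
  · intro h b
    classical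
    rw [MvPolynomial.coeff_C]
    split_ifs
    · exact h
    · exact c.zero_mem

end step1

section step2

open Cardinal

/-- The canonical map to an algebraic closure of the fraction field of a quotient domain. -/
noncomputable def toOmega {A : Type v} [CommRing A] (c : Ideal A) [c.IsPrime] :
    A →+* AlgebraicClosure (FractionRing (A ⧸ c)) :=
  (algebraMap (FractionRing (A ⧸ c)) (AlgebraicClosure (FractionRing (A ⧸ c)))).comp
    ((algebraMap (A ⧸ c) (FractionRing (A ⧸ c))).comp (Ideal.Quotient.mk c))

theorem ker_toOmega {A : Type v} [CommRing A] (c : Ideal A) [c.IsPrime] :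
    RingHom.ker (toOmega c) = c := by
  ext x
  rw [RingHom.mem_ker]
  change algebraMap (FractionRing (A ⧸ c)) (AlgebraicClosure (FractionRing (A ⧸ c)))
    (algebraMap (A ⧸ c) (FractionRing (A ⧸ c)) (Ideal.Quotient.mk c x)) = 0 ↔ _
  rw [FaithfulSMul.algebraMap_eq_zero_iff, FaithfulSMul.algebraMap_eq_zero_iff,
    Ideal.Quotient.eq_zero_iff_mem]

theorem card_omega {A : Type v} [CommRing A] (c : Ideal A) [c.IsPrime] :
    #(AlgebraicClosure (FractionRing (A ⧸ c))) ≤ max #A ℵ₀ := by
  refine (Algebra.IsAlgebraic.cardinalMk_le_max (FractionRing (A ⧸ c)) _).trans ?_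
  refine max_le_max_right _ ?_
  refine (IsLocalization.cardinalMk_le (L := FractionRing (A ⧸ c)) (nonZeroDivisors (A ⧸ c))).trans ?_
  exact Cardinal.mk_le_of_surjective Ideal.Quotient.mk_surjective

/-- Extension of an algebraically independent family to the generic field. -/
theorem exists_iota {R : Type v} [CommRing R] [IsDomain R] {n : ℕ}
    (Ω' : Type v) [Field Ω'] [IsAlgClosed Ω'] (j : R →+* Ω') (hj : Function.Injective j)
    (u : Fin n × Fin (n + 1) → Ω')
    (hu : Function.Injective (MvPolynomial.eval₂Hom j u)) :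
    ∃ ι : GenField n (AlgebraicClosure (FractionRing R)) →+* Ω',
      (∀ r, ι (incl n _ (algebraMap (FractionRing R) (AlgebraicClosure (FractionRing R))
        (algebraMap R (FractionRing R) r))) = j r) ∧
      ∀ s : Fin n × Fin (n + 1), ι (gen _ s.1 s.2) = u s := by
  -- the map of the fraction field
  let j₁ : FractionRing R →+* Ω' := IsFractionRing.lift hj
  let _ : Algebra (FractionRing R) Ω' := j₁.toAlgebra
  let j₂ : AlgebraicClosure (FractionRing R) →ₐ[FractionRing R] Ω' := IsAlgClosed.lift
  let _ : Algebra R Ω' := j.toAlgebra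
  let _ : Algebra (AlgebraicClosure (FractionRing R)) Ω' := j₂.toRingHom.toAlgebra
  have hj₁ : ∀ r, j₁ (algebraMap R (FractionRing R) r) = j r := fun r =>
    IsFractionRing.lift_algebraMap hj r
  have hj₂ : ∀ r, j₂ (algebraMap (FractionRing R) (AlgebraicClosure (FractionRing R)) r) = j₁ r :=
    fun r => j₂.commutes r
  have htower : IsScalarTower R (AlgebraicClosure (FractionRing R)) Ω' := by
    apply IsScalarTower.of_algebraMap_eq
    intro r
    change j r = j₂ (algebraMap R (AlgebraicClosure (FractionRing R)) r)
    rw [IsScalarTower.algebraMap_apply R (FractionRing R) (AlgebraicClosure (FractionRing R)),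
      hj₂, hj₁]
  have halg : Algebra.IsAlgebraic R (AlgebraicClosure (FractionRing R)) :=
    (IsFractionRing.comap_isAlgebraic_iff (A := R) (K := FractionRing R)
      (C := AlgebraicClosure (FractionRing R))).mpr inferInstance
  have hu' : AlgebraicIndependent R u := hu
  have hu₂ : AlgebraicIndependent (AlgebraicClosure (FractionRing R)) u := hu'.extendScalars _
  have hinj : Function.Injective (MvPolynomial.aeval (R := AlgebraicClosure (FractionRing R)) u) := hu₂
  let j₃ : RatField n (AlgebraicClosure (FractionRing R)) →+* Ω' :=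
    (IsFractionRing.lift (K := FractionRing (MvPolynomial (Fin n × Fin (n + 1))
      (AlgebraicClosure (FractionRing R))))
      (g := (MvPolynomial.aeval (R := AlgebraicClosure (FractionRing R)) u).toRingHom) hinj :
      FractionRing (MvPolynomial (Fin n × Fin (n + 1)) (AlgebraicClosure (FractionRing R))) →+* Ω')
  let _ : Algebra (RatField n (AlgebraicClosure (FractionRing R))) Ω' := j₃.toAlgebra
  let j₄ : AlgebraicClosure (RatField n (AlgebraicClosure (FractionRing R))) →ₐ[RatField n
      (AlgebraicClosure (FractionRing R))] Ω' := IsAlgClosed.lift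
  have hj₃ : ∀ P, j₃ (toRat n (AlgebraicClosure (FractionRing R)) P) =
      MvPolynomial.aeval (R := AlgebraicClosure (FractionRing R)) u P := fun P =>
    IsFractionRing.lift_algebraMap (K := FractionRing (MvPolynomial (Fin n × Fin (n + 1))
      (AlgebraicClosure (FractionRing R))))
      (g := (MvPolynomial.aeval (R := AlgebraicClosure (FractionRing R)) u).toRingHom) hinj P
  have hj₄ : ∀ P, j₄.toRingHom (toGen n (AlgebraicClosure (FractionRing R)) P) =
      MvPolynomial.aeval (R := AlgebraicClosure (FractionRing R)) u P := fun P => by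
    rw [← hj₃]
    exact j₄.commutes _
  refine ⟨j₄.toRingHom, fun r => ?_, fun s => ?_⟩
  · change j₄.toRingHom (toGen n (AlgebraicClosure (FractionRing R))
      (MvPolynomial.C (algebraMap (FractionRing R) (AlgebraicClosure (FractionRing R))
        (algebraMap R (FractionRing R) r)))) = j r
    rw [hj₄, MvPolynomial.aeval_C]
    change j₂ _ = j r
    rw [hj₂, hj₁]
  · change j₄.toRingHom (toGen n (AlgebraicClosure (FractionRing R)) (MvPolynomial.X s)) = u s
    rw [hj₄, MvPolynomial.aeval_X]

/-- A minimal prime of the extension of a prime to the power series over the generic field,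
together with compatible embeddings of the quotients in algebraically closed fields. -/
theorem exists_generic_lift {k : Type v} [Field k] {n m : ℕ}
    (c : Ideal (MvPowerSeries (Fin m) k)) [c.IsPrime] :
    ∃ (c' : Ideal (MvPowerSeries (Fin m) (GenField n k)))
      (Ω Ω' : Type v) (_ : Field Ω) (_ : Field Ω') (_ : IsAlgClosed Ω)
      (g : MvPowerSeries (Fin m) k →+* Ω)
      (h : MvPowerSeries (Fin m) (GenField n k) →+* Ω')
      (ι : GenField n Ω →+* Ω'),
      c' ∈ (c.map (map (incl n k))).minimalPrimes ∧ c'.comap (map (incl n k)) = c ∧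
      RingHom.ker g = c ∧ RingHom.ker h = c' ∧
      Cardinal.mk Ω ≤ max (Cardinal.mk (MvPowerSeries (Fin m) k)) Cardinal.aleph0 ∧
      h.comp (map (incl n k)) = (ι.comp (incl n Ω)).comp g ∧
      ∀ i j, h (C (gen k i j)) = ι (gen Ω i j) := by
  obtain ⟨c', hc', hθ, hcomap⟩ := exists_min_prime (n := n) c
  have hc'p : c'.IsPrime := hc'.1.1
  -- the embedding of the quotient
  have hle : c ≤ RingHom.ker ((toOmega c').comp (map (incl n k))) := by
    rw [← RingHom.comap_ker, ker_toOmega, hcomap]
  let j : MvPowerSeries (Fin m) k ⧸ c →+* AlgebraicClosure (FractionRing (MvPowerSeries (Fin m) (GenField n k) ⧸ c')) :=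
    Ideal.Quotient.lift c ((toOmega c').comp (map (incl n k))) fun a ha => hle ha
  have hjmk : ∀ a, j (Ideal.Quotient.mk c a) = toOmega c' (map (incl n k) a) := fun a =>
    Ideal.Quotient.lift_mk _ _ _
  have hj : Function.Injective j := by
    rw [injective_iff_map_eq_zero]
    intro x hx
    obtain ⟨a, rfl⟩ := Ideal.Quotient.mk_surjective x
    rw [hjmk, ← RingHom.mem_ker, ker_toOmega, ← Ideal.mem_comap, hcomap] at hx
    exact Ideal.Quotient.eq_zero_iff_mem.2 hx
  let u : Fin n × Fin (n + 1) → AlgebraicClosure (FractionRing (MvPowerSeries (Fin m) (GenField n k) ⧸ c')) :=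
    fun s => toOmega c' (C (gen k s.1 s.2))
  have hcomp : ∀ P : MvPolynomial (Fin n × Fin (n + 1)) (MvPowerSeries (Fin m) k),
      MvPolynomial.eval₂Hom j u (MvPolynomial.map (Ideal.Quotient.mk c) P) =
        toOmega c' (theta n k m P) := by
    intro P
    have h : (MvPolynomial.eval₂Hom j u).comp (MvPolynomial.map (Ideal.Quotient.mk c)) =
        (toOmega c').comp (theta n k m) := by
      apply MvPolynomial.ringHom_ext
      · intro a
        rw [RingHom.comp_apply, RingHom.comp_apply, MvPolynomial.map_C, theta_C,
          MvPolynomial.coe_eval₂Hom, MvPolynomial.eval₂_C, hjmk]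
      · intro s
        rw [RingHom.comp_apply, RingHom.comp_apply, MvPolynomial.map_X, theta_X,
          MvPolynomial.coe_eval₂Hom, MvPolynomial.eval₂_X]
    exact DFunLike.congr_fun h P
  have hu : Function.Injective (MvPolynomial.eval₂Hom j u) := by
    rw [injective_iff_map_eq_zero]
    intro Q hQ
    obtain ⟨P, rfl⟩ := MvPolynomial.map_surjective (Ideal.Quotient.mk c)
      Ideal.Quotient.mk_surjective Q
    rw [hcomp, ← RingHom.mem_ker, ker_toOmega, ← Ideal.mem_comap, hθ,
      MvPolynomial.mem_map_C_iff] at hQ
    ext b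
    rw [MvPolynomial.coeff_map, MvPolynomial.coeff_zero, Ideal.Quotient.eq_zero_iff_mem]
    exact hQ b
  obtain ⟨ι, hι1, hι2⟩ := exists_iota _ j hj u hu
  refine ⟨c', AlgebraicClosure (FractionRing (MvPowerSeries (Fin m) k ⧸ c)),
    AlgebraicClosure (FractionRing (MvPowerSeries (Fin m) (GenField n k) ⧸ c')),
    inferInstance, inferInstance, inferInstance, toOmega c, toOmega c', ι, hc', hcomap,
    ker_toOmega c, ker_toOmega c', card_omega c, ?_, ?_⟩
  · ext1 a
    have h1 := hι1 (Ideal.Quotient.mk c a)
    rw [hjmk] at h1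
    exact h1.symm
  · intro i l
    exact (hι2 (i, l)).symm

end step2

end H85.Zar
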