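import Mathlib

set_option autoImplicit false

/-!
# The algebraic closure of a finitely generated extension inside a large field
-/

universe v

namespace H85.Zar

/-- Algebraicity over a finitely generated subring is reflected by an injection. -/
theorem isAlgebraic_adjoin_of_map {k L Ω : Type v} [Field k] [Field L] [Field Ω] [Algebra k Ω]
    {ι : Type} (j : k →+* L) (e : L →+* Ω) (P : ι → L) (P0 : ι → Ω)
    (he : ∀ a, e (j a) = algebraMap k Ω a) (hP : ∀ i, e (P i) = P0 i) (x : L)
    (hx : IsAlgebraic (Algebra.adjoin k (Set.range P0)) (e x)) :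
    IsAlgebraic (Algebra.adjoin j.range (Set.range P)) x := by
  have hmem : ∀ y : L, y ∈ Algebra.adjoin j.range (Set.range P) →
      e y ∈ Algebra.adjoin k (Set.range P0) := by
    intro y hy
    induction hy using Algebra.adjoin_induction with
    | mem z hz =>
      obtain ⟨i, rfl⟩ := hz
      exact Algebra.subset_adjoin ⟨i, (hP i).symm⟩
    | algebraMap a =>
      obtain ⟨b, hb⟩ := a.2
      have : e (algebraMap j.range L a) = algebraMap k Ω b := by
        rw [← he b, hb]
        rfl
      rw [this]
      exact Subalgebra.algebraMap_mem _ b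
    | add z w _ _ hz hw => rw [map_add]; exact Subalgebra.add_mem _ hz hw
    | mul z w _ _ hz hw => rw [map_mul]; exact Subalgebra.mul_mem _ hz hw
  let f : Algebra.adjoin j.range (Set.range P) →+* Algebra.adjoin k (Set.range P0) :=
    { toFun := fun y => ⟨e (y : L), hmem y y.2⟩
      map_one' := Subtype.ext (map_one e)
      map_mul' := fun a b => Subtype.ext (map_mul e _ _)
      map_zero' := Subtype.ext (map_zero e)
      map_add' := fun a b => Subtype.ext (map_add e _ _) }
  have hsurj : Function.Surjective f := by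
    have : ∀ z : Ω, z ∈ Algebra.adjoin k (Set.range P0) →
        ∃ y : L, y ∈ Algebra.adjoin j.range (Set.range P) ∧ e y = z := by
      intro z hz
      induction hz using Algebra.adjoin_induction with
      | mem z hz =>
        obtain ⟨i, rfl⟩ := hz
        exact ⟨P i, Algebra.subset_adjoin ⟨i, rfl⟩, hP i⟩
      | algebraMap a =>
        exact ⟨j a, Subalgebra.algebraMap_mem (Algebra.adjoin j.range (Set.range P))
          ⟨j a, ⟨a, rfl⟩⟩, he a⟩
      | add z w _ _ hz hw =>
        obtain ⟨y1, h1, rfl⟩ := hz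
        obtain ⟨y2, h2, rfl⟩ := hw
        exact ⟨y1 + y2, Subalgebra.add_mem _ h1 h2, map_add e _ _⟩
      | mul z w _ _ hz hw =>
        obtain ⟨y1, h1, rfl⟩ := hz
        obtain ⟨y2, h2, rfl⟩ := hw
        exact ⟨y1 * y2, Subalgebra.mul_mem _ h1 h2, map_mul e _ _⟩
    rintro ⟨z, hz⟩
    obtain ⟨y, hy, hyz⟩ := this z hz
    exact ⟨⟨y, hy⟩, Subtype.ext hyz⟩
  refine IsAlgebraic.of_ringHom_of_comp_eq (S := Algebra.adjoin k (Set.range P0)) f
    e (a := x) hx hsurj e.injective ?_
  ext y
  rfl

open scoped IntermediateField.algebraAdjoinAdjoin in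
theorem isAlgebraic_adjoin_of_field {k Ω : Type v} [Field k] [Field Ω] [Algebra k Ω]
    (s : Set Ω) (x : Ω) (hx : IsAlgebraic (IntermediateField.adjoin k s) x) :
    IsAlgebraic (Algebra.adjoin k s) x :=
  hx.restrictScalars _

theorem exists_small_field {k Ω : Type v} [Field k] [Field Ω] [IsAlgClosed Ω]
    (j0 : k →+* Ω) {r : ℕ} (P0 : Fin (r + 1) → Ω) :
    ∃ (L : Type v) (_ : Field L) (_ : IsAlgClosed L) (j : k →+* L) (e : L →+* Ω)
      (P : Fin (r + 1) → L), (∀ a, e (j a) = j0 a) ∧ (∀ i, e (P i) = P0 i) ∧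
      ∀ x : L, IsAlgebraic (Algebra.adjoin j.range (Set.range P)) x := by
  let _ : Algebra k Ω := j0.toAlgebra
  have hK : ∀ i, P0 i ∈ IntermediateField.adjoin k (Set.range P0) :=
    fun i => IntermediateField.subset_adjoin k _ ⟨i, rfl⟩
  refine ⟨algebraicClosure (IntermediateField.adjoin k (Set.range P0)) Ω, inferInstance,
    IsAlgClosure.isAlgClosed (IntermediateField.adjoin k (Set.range P0)),
    (algebraMap (IntermediateField.adjoin k (Set.range P0)) _).comp
      (algebraMap k (IntermediateField.adjoin k (Set.range P0))), algebraMap _ Ω,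
    fun i => algebraMap (IntermediateField.adjoin k (Set.range P0)) _ ⟨P0 i, hK i⟩,
    fun a => rfl, fun i => rfl, ?_⟩
  intro x
  refine isAlgebraic_adjoin_of_map _ (algebraMap _ Ω) _ P0 (fun a => rfl) (fun i => rfl) x ?_
  exact isAlgebraic_adjoin_of_field _ _ (mem_algebraicClosure_iff.1 x.2)

end H85.Zar
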