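import Pool.Agent.H9.Zar.Lift
import Pool.Agent.H85.Zar.Generic2
import Pool.Agent.H85.Zar.Closed2
import Pool.Agent.H85.Zar.SmallField
import Pool.Agent.H85.Zar.Lift
import Pool.Agent.H85.Zar.Heights
import Pool.Agent.H85.Zar.HeightD
import Pool.Agent.H85.Zar.HeightG

set_option linter.style.longLine false

/-! Theorem M1: a subvariety of codimension at most two contained in the bad locus of a subvariety
of the singular locus contains every subvariety along which `V` is equisingular. -/

namespace H85.Zar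

open MvPowerSeries H9.Zar

universe v

/-- A prime that is the contraction of its extension is the contraction of a minimal prime of its
extension. -/
theorem exists_min_lift {A B : Type*} [CommRing A] [CommRing B] (f : A →+* B)
    (p : Ideal A) [hp : p.IsPrime] (h : (p.map f).comap f = p) :
    ∃ P ∈ (p.map f).minimalPrimes, P.comap f = p := by
  obtain ⟨P0, hP0, hc0⟩ := exists_lift f p h
  obtain ⟨P, hP, hle⟩ := Ideal.exists_minimalPrimes_le (I := p.map f) (J := P0)
    (Ideal.map_le_iff_le_comap.2 hc0.ge)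
  refine ⟨P, hP, le_antisymm ?_ ?_⟩
  · rw [← hc0]
    exact Ideal.comap_mono hle
  · exact Ideal.map_le_iff_le_comap.1 hP.1.2

variable {k : Type v} [Field k] [IsAlgClosed k] [CharZero k] {r : ℕ}

omit [IsAlgClosed k] [CharZero k] in
theorem singIdeal_le_map (F : MvPolynomial (Fin (r + 1)) k) (Q : Fin (r + 1) → k)
    (p : Ideal (MvPolynomial (Fin (r + 1)) k)) (hp : multIdeal F 2 ≤ p) :
    singIdeal (germ Q F) ≤ p.map (germ Q) := by
  unfold singIdeal
  rw [Ideal.span_le]
  rintro x (hx | ⟨i, rfl⟩)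
  · rw [Set.mem_singleton_iff] at hx
    subst hx
    exact Ideal.mem_map_of_mem _ (hp (Ideal.subset_span ⟨[], by simp, rfl⟩))
  · rw [SetLike.mem_coe]
    change MvPowerSeries.pderiv k i (germ Q F) ∈ _
    rw [pderiv_germ]
    exact Ideal.mem_map_of_mem _ (hp (Ideal.subset_span ⟨[i], by simp, rfl⟩))

/-- **Theorem M1**, and its variant M1*. -/
theorem bad_both (hk : Cardinal.aleph0 ≤ Algebra.trdeg ℚ k)
    (F : MvPolynomial (Fin (r + 1)) k) (Q : Fin (r + 1) → k)
    (p : Ideal (MvPolynomial (Fin (r + 1)) k)) [hp : p.IsPrime] (hFp : multIdeal F 2 ≤ p)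
    (hQp : Q ∈ MvPolynomial.zeroLocus k p) (hE : EquisingAt F Q p)
    (N : Ideal (MvPolynomial (Fin (r + 1)) k)) (hFN : multIdeal F 2 ≤ N)
    (c : Ideal (MvPolynomial (Fin (r + 1)) k)) [hc : c.IsPrime] (hNc : N ≤ c)
    (hQc : Q ∈ MvPolynomial.zeroLocus k c)
    (hU : MvPolynomial (Fin (r + 1)) k) (hQU : MvPolynomial.eval Q hU ≠ 0)
    (hbad : ∀ P ∈ MvPolynomial.zeroLocus k c, MvPolynomial.eval P hU ≠ 0 → ¬ EquisingAt F P N) :
    (c.height ≤ 3 → c ≤ p) ∧ (p.height ≤ 3 → p ≤ c) := by
  have hFc : multIdeal F 2 ≤ c := hFN.trans hNc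
  -- the second alternative of the definition
  have hsp := singIdeal_le_map F Q p hFp
  rcases hE with ⟨h1, -⟩ | ⟨-, φ, hφ, Θ, G, D, hΘ, hG, hD, hrec⟩
  · exact absurd (hsp.trans Ideal.le_radical) h1
  have hchar : CharZero (GenField r k) := charZero_of_injective_ringHom (incl r k).injective
  -- the primes of `k[[X]]`
  obtain ⟨ph, hph, hphc⟩ := exists_min_lift (germ Q).toRingHom p (comap_map_germ Q p hQp)
  have hphp : ph.IsPrime := hph.1.1
  obtain ⟨ch, hch, hchc⟩ := exists_min_lift (germ Q).toRingHom c (comap_map_germ Q c hQc)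
  have hchp : ch.IsPrime := hch.1.1
  -- the primes of `K[[X]]`
  obtain ⟨p', hp', hp'c⟩ := exists_min_lift (ext r k) ph (comap_map_map (incl r k) ph)
  have hp'p : p'.IsPrime := hp'.1.1
  obtain ⟨c', Ω, Ω', iΩ, iΩ', aΩ, g, h, ι, hc'min, hc'c, hkg, hkh, hcard, hgh, hgen⟩ :=
    exists_generic_lift (n := r) ch
  have hc' : c'.IsPrime := hc'min.1.1
  have hcharΩ : CharZero Ω' := charZero_of_injective_ringHom (h.comp (C.comp (incl r k))).injective
  -- heights
  have hh2 : c'.height ≤ c.height :=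
    (height_le _ ch c' hc'min hc'c).trans (height_le (germ Q).toRingHom c ch hch hchc)
  have hh3 : p'.height ≤ p.height :=
    (height_le _ ph p' hp' hp'c).trans (height_le (germ Q).toRingHom p ph hph hphc)
  -- the primes of `K[[y]][[z]]`
  set E : PowerSeries (MvPowerSeries (Fin r) (GenField r k)) →+*
    MvPowerSeries (Fin (r + 1)) (GenField r k) := RingHomClass.toRingHom Θ with hEdef
  have haP : (p'.comap E).IsPrime := Ideal.IsPrime.comap _
  have hqP : (c'.comap E).IsPrime := Ideal.IsPrime.comap _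
  have htr : ∀ (m : ℕ) (P : Ideal (MvPowerSeries (Fin (r + 1)) (GenField r k))),
      HM k m (germ Q F) (P.comap (ext r k)) ↔ HM (GenField r k) m
        (G : PowerSeries (MvPowerSeries (Fin r) (GenField r k))) (P.comap E) := by
    intro m P
    have hext : ext r k = map (incl r k) := rfl
    rw [hext, ← HM_map, hEdef, ← HM_equiv]
    exact ⟨fun h => HM_of_associated hG.2 _ h, fun h => HM_of_associated hG.2.symm _ h⟩
  have hs2 : ∀ (b : Ideal (MvPowerSeries (Fin (r + 1)) k)), singIdeal (germ Q F) ≤ b →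
      HM k 2 (germ Q F) b := by
    intro b hb
    rw [HM_iff_HMr]
    exact ⟨hb (Ideal.subset_span (Or.inl rfl)),
      fun i => ⟨hb (Ideal.subset_span (Or.inr ⟨i, rfl⟩)), fun _ => trivial⟩⟩
  have hsph : singIdeal (germ Q F) ≤ ph := hsp.trans (by
    change p.map (germ Q).toRingHom ≤ ph
    rw [Ideal.map_le_iff_le_comap, hphc])
  have hsch : singIdeal (germ Q F) ≤ ch := (singIdeal_le_map F Q c hFc).trans (by
    change c.map (germ Q).toRingHom ≤ ch
    rw [Ideal.map_le_iff_le_comap, hchc])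
  have hGa : HM (GenField r k) 2
      (G : PowerSeries (MvPowerSeries (Fin r) (GenField r k))) (p'.comap E) :=
    (htr 2 p').mp (by rw [hp'c]; exact hs2 _ hsph)
  have hGq : HM (GenField r k) 2
      (G : PowerSeries (MvPowerSeries (Fin r) (GenField r k))) (c'.comap E) :=
    (htr 2 c').mp (by
      change HM k 2 (germ Q F) (c'.comap (map (incl r k)))
      rw [hc'c]; exact hs2 _ hsch)
  obtain ⟨b, hb⟩ := hD.2.2
  have hDa : D ∈ (p'.comap E).comap (PowerSeries.C (R := MvPowerSeries (Fin r) (GenField r k))) :=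
    discr_mem G hG.1.monic D b hb (p'.comap E) hGa.1 (hGa.2 (DP (GenField r k) r 0)).1
  have hDq : D ∈ (c'.comap E).comap (PowerSeries.C (R := MvPowerSeries (Fin r) (GenField r k))) :=
    discr_mem G hG.1.monic D b hb (c'.comap E) hGq.1 (hGq.2 (DP (GenField r k) r 0)).1
  set aR := (p'.comap E).comap (PowerSeries.C (R := MvPowerSeries (Fin r) (GenField r k))) with haR
  set qR := (c'.comap E).comap (PowerSeries.C (R := MvPowerSeries (Fin r) (GenField r k))) with hqR
  have haRp : aR.IsPrime := Ideal.IsPrime.comap _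
  have hqRp : qR.IsPrime := Ideal.IsPrime.comap _
  -- the discriminant is singular at `C`
  have hDsing : HM (GenField r k) 2 D qR := by
    rw [HM_iff_HMr]
    refine ⟨hDq, fun j => ⟨?_, fun _ => trivial⟩⟩
    by_contra hj
    have hkg' : ∀ q ∈ c, g (germ Q q) = 0 := by
      intro q hq
      rw [← RingHom.mem_ker, hkg]
      rw [← hchc] at hq
      exact hq
    obtain ⟨L, iL, aL, jL, e, P, hje, hPe, halg⟩ := exists_small_field (g.comp MvPowerSeries.C)
      (fun i => g (germ Q (MvPolynomial.X i)))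
    have hgen1 := equisingAt_generic' F Q N c hFN hNc g hkg' jL e P hje hPe φ hφ Θ G D hΘ hG hD h ι
      hgh hgen
      (by
        have : D ∈ qR := hDq
        rw [hqR, Ideal.mem_comap, Ideal.mem_comap, ← hkh] at this
        exact this) j
      (by
        intro h0
        apply hj
        rw [hqR, Ideal.mem_comap, Ideal.mem_comap, ← hkh]
        exact h0)
    have hev : ∀ q, e (MvPolynomial.eval₂ jL P q) = g (germ Q q) := by
      intro q
      have : e.comp (MvPolynomial.eval₂Hom jL P) = g.comp (germ Q).toRingHom := by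
        apply MvPolynomial.ringHom_ext
        · intro a
          rw [RingHom.comp_apply, MvPolynomial.coe_eval₂Hom, MvPolynomial.eval₂_C, hje]
          change g (MvPowerSeries.C a) = g (germ Q (algebraMap k _ a))
          rw [AlgHom.commutes]
          rfl
        · intro i
          rw [RingHom.comp_apply, MvPolynomial.coe_eval₂Hom, MvPolynomial.eval₂_X, hPe]
          rfl
      exact RingHom.congr_fun this q
    obtain ⟨P', hP', hU', hE'⟩ := exists_closed_point' hk jL P halg F N c
      (fun q hq => e.injective (by rw [hev, hkg' q hq, map_zero])) hU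
      (by
        intro h0
        have h1 : IsUnit (germ Q hU) := by
          rw [MvPowerSeries.isUnit_iff_constantCoeff, constantCoeff_germ]
          exact isUnit_iff_ne_zero.2 hQU
        apply (h1.map g).ne_zero
        rw [← hev, h0, map_zero]) hgen1
    exact hbad P' hP' hU' hE'
  -- Zariski's theorem for the discriminant
  have hIa : projIdeal Θ (Ideal.map (ext r k) (germIdeal Q p)) ≤ aR := by
    intro x hx
    have h1 : Ideal.map (ext r k) (germIdeal Q p) ≤ p' := by
      rw [Ideal.map_le_iff_le_comap, hp'c]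
      change p.map (germ Q).toRingHom ≤ ph
      rw [Ideal.map_le_iff_le_comap, hphc]
    exact h1 hx
  obtain ⟨c1, hc1, hc1a, hc1q, hc1m⟩ := star r (GenField r k) D _ hrec aR haRp hIa hDa qR hqRp 2
    hDsing
  have hc1h : 2 ≤ c1.height := two_le_height D _ hrec aR hIa c1 hc1a hc1m
  -- lifting
  obtain ⟨c2, hc2, hc2a, hc2q, hGc2, hc2n⟩ := core_lift G hG.1 D hD.1.ne_zero b hb (p'.comap E)
    (c'.comap E) hGa.1 hGq.1
    (fun d hd => by
      obtain ⟨e, he, hea, -, hem⟩ := star r (GenField r k) D _ hrec aR haRp hIa hDa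
        (IsLocalRing.maximalIdeal _) inferInstance d hd
      exact ⟨e, he, hea, hem⟩) c1 hc1a hc1q
  have hc2h : 3 ≤ c2.height := by
    have h1 := height_add_one_le G hG.1 c2 hGc2
    rw [hc2n] at h1
    refine le_trans ?_ h1
    have : (3 : ℕ∞) = 2 + 1 := by norm_num
    rw [this]
    gcongr
  have hE1 : ∀ I : Ideal (MvPowerSeries (Fin (r + 1)) (GenField r k)),
      (I.comap E).height = I.height := by
    intro I
    have h1 : (I.comap (Θ.toRingEquiv : PowerSeries (MvPowerSeries (Fin r) (GenField r k)) ≃+*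
      MvPowerSeries (Fin (r + 1)) (GenField r k))).height = I.height := RingEquiv.height_comap _ _
    exact h1
  have hE2 : ∀ I J : Ideal (MvPowerSeries (Fin (r + 1)) (GenField r k)),
      I.comap E ≤ J.comap E → I ≤ J := by
    intro I J hIJ x hx
    have h1 : Θ.symm x ∈ I.comap E := by
      rw [Ideal.mem_comap]
      change Θ (Θ.symm x) ∈ I
      rw [AlgEquiv.apply_symm_apply]
      exact hx
    have h2 := hIJ h1
    rw [Ideal.mem_comap] at h2
    change Θ (Θ.symm x) ∈ J at h2
    rw [AlgEquiv.apply_symm_apply] at h2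
    exact h2
  constructor
  · intro hht
    have hqh : (c'.comap E).height ≤ 3 := by
      rw [hE1]
      exact hh2.trans hht
    have hc2e : c2 = c'.comap E := eq_of_height_le c2 _ hc2q (hqh.trans hc2h)
    have hle : c' ≤ p' := hE2 _ _ (hc2e ▸ hc2a)
    have hle2 : ch ≤ ph := by
      rw [← hp'c, ← hc'c]
      exact Ideal.comap_mono hle
    rw [← hphc, ← hchc]
    exact Ideal.comap_mono hle2
  · intro hht
    have hqh : (p'.comap E).height ≤ 3 := by
      rw [hE1]
      exact hh3.trans hht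
    have hc2e : c2 = p'.comap E := eq_of_height_le c2 _ hc2a (hqh.trans hc2h)
    have hle : p' ≤ c' := hE2 _ _ (hc2e ▸ hc2q)
    have hle2 : ph ≤ ch := by
      rw [← hp'c, ← hc'c]
      exact Ideal.comap_mono hle
    rw [← hphc, ← hchc]
    exact Ideal.comap_mono hle2

/-- **Theorem M1.** -/
theorem bad_le (hk : Cardinal.aleph0 ≤ Algebra.trdeg ℚ k)
    (F : MvPolynomial (Fin (r + 1)) k) (Q : Fin (r + 1) → k)
    (p : Ideal (MvPolynomial (Fin (r + 1)) k)) [hp : p.IsPrime] (hFp : multIdeal F 2 ≤ p)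
    (hQp : Q ∈ MvPolynomial.zeroLocus k p) (hE : EquisingAt F Q p)
    (N : Ideal (MvPolynomial (Fin (r + 1)) k)) (hFN : multIdeal F 2 ≤ N)
    (c : Ideal (MvPolynomial (Fin (r + 1)) k)) [hc : c.IsPrime] (hNc : N ≤ c)
    (hQc : Q ∈ MvPolynomial.zeroLocus k c) (hht : c.height ≤ 3)
    (hU : MvPolynomial (Fin (r + 1)) k) (hQU : MvPolynomial.eval Q hU ≠ 0)
    (hbad : ∀ P ∈ MvPolynomial.zeroLocus k c, MvPolynomial.eval P hU ≠ 0 → ¬ EquisingAt F P N) :
    c ≤ p :=
  (bad_both hk F Q p hFp hQp hE N hFN c hNc hQc hU hQU hbad).1 hht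

/-- **Theorem M1\*.** -/
theorem le_bad (hk : Cardinal.aleph0 ≤ Algebra.trdeg ℚ k)
    (F : MvPolynomial (Fin (r + 1)) k) (Q : Fin (r + 1) → k)
    (p : Ideal (MvPolynomial (Fin (r + 1)) k)) [hp : p.IsPrime] (hFp : multIdeal F 2 ≤ p)
    (hQp : Q ∈ MvPolynomial.zeroLocus k p) (hht : p.height ≤ 3) (hE : EquisingAt F Q p)
    (N : Ideal (MvPolynomial (Fin (r + 1)) k)) (hFN : multIdeal F 2 ≤ N)
    (c : Ideal (MvPolynomial (Fin (r + 1)) k)) [hc : c.IsPrime] (hNc : N ≤ c)
    (hQc : Q ∈ MvPolynomial.zeroLocus k c)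
    (hU : MvPolynomial (Fin (r + 1)) k) (hQU : MvPolynomial.eval Q hU ≠ 0)
    (hbad : ∀ P ∈ MvPolynomial.zeroLocus k c, MvPolynomial.eval P hU ≠ 0 → ¬ EquisingAt F P N) :
    p ≤ c :=
  (bad_both hk F Q p hFp hQp hE N hFN c hNc hQc hU hQU hbad).2 hht

end H85.Zar
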