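import Pool.Agent.H9.Zar.Alg

set_option linter.style.longLine false

/-! Zariski's strata of the quasi-affine hypersurface `F = 0`, `h ≠ 0`. -/

namespace H9.Zar

open MvPolynomial

universe v

variable {k : Type v} [Field k] {r : ℕ}

/-- The open set `h ≠ 0` of affine space. -/
def openSet (h : MvPolynomial (Fin (r + 1)) k) : Set (Fin (r + 1) → k) := {Q | eval Q h ≠ 0}

/-- `Z` is a closed irreducible subset of the open set `U`. -/
def IrrClosedIn (U Z : Set (Fin (r + 1) → k)) : Prop :=
  zcl Z ∩ U = Z ∧ (vanishingIdeal k Z).IsPrime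

/-- `Z` is an irreducible component of the subset `B` of the open set `U`. -/
def IsCompIn (U B Z : Set (Fin (r + 1) → k)) : Prop :=
  IrrClosedIn U Z ∧ Z ⊆ B ∧ ∀ Z', IrrClosedIn U Z' → Z' ⊆ B → Z ⊆ Z' → Z' = Z

/-- The properties of Zariski's stratification `E_0, ..., E_N` of the hypersurface `V : F = 0` of
the open set `U` of affine `(r+1)`-space. -/
structure IsStratOn (F : MvPolynomial (Fin (r + 1)) k) (U : Set (Fin (r + 1) → k)) (N : ℕ)
    (E : Fin (N + 1) → Set (Fin (r + 1) → k)) : Prop where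
  /-- `E_0` is the set of simple points -/
  zero : E 0 = simplePts F ∩ U
  /-- the strata are distinct -/
  inj : Function.Injective E
  /-- for `i ≥ 1` the closure of `E_i` is irreducible -/
  irr : ∀ i, i ≠ 0 → IrrClosedIn U (zcl (E i) ∩ U)
  /-- for `i ≥ 1`, `E_i` is the set of the points of its closure at which `V` is equisingular
  along it -/
  char : ∀ i, i ≠ 0 → E i = {Q ∈ zcl (E i) ∩ U | EquisingAt F Q (vanishingIdeal k (E i))}
  /-- for `a ≥ 1` the closure of `E_a` is an irreducible component of the singular locus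
  `closure (E_0) \ E_0`, or of `closure (E_i) \ E_i` for some `i ≥ 1` -/
  comp : ∀ a, a ≠ 0 → IsCompIn U (singPts F ∩ U) (zcl (E a) ∩ U) ∨
    ∃ i, i ≠ 0 ∧ IsCompIn U ((zcl (E i) ∩ U) \ E i) (zcl (E a) ∩ U)

end H9.Zar
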