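import Pool.Agent.H9.Zar.Transfer
import Pool.Agent.H9.Zar.Base

set_option linter.style.longLine false

/-! ZQ9: descent of the reduced discriminant. -/

namespace H85.Zar

open MvPowerSeries H9.Zar

theorem map_pderiv_radical {R S : Type*} [CommRing R] [CommRing S] {m : ℕ} (g : R →+* S)
    (i : Fin m) (f : MvPowerSeries (Fin m) R) : map g (pderiv R i f) = pderiv S i (map g f) := by
  ext d
  simp [coeff_pderiv]

theorem map_iterate_pderiv {R S : Type*} [CommRing R] [CommRing S] {m : ℕ} (g : R →+* S)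
    (i : Fin m) (l : ℕ) : ∀ f : MvPowerSeries (Fin m) R,
      map g ((fun x => pderiv R i x)^[l] f) = (fun x => pderiv S i x)^[l] (map g f) := by
  induction l with
  | zero => intro f; rfl
  | succ l ih =>
    intro f
    rw [Function.iterate_succ_apply, Function.iterate_succ_apply, ih, map_pderiv_radical]

theorem dvd_of_map_dvd {L L' : Type*} [Field L] [Field L'] (ι : L →+* L') {n : ℕ}
    {x y : MvPowerSeries (Fin n) L} (h : map ι x ∣ map ι y) : x ∣ y := by
  have h1 : y ∈ ((Ideal.span {x}).map (map (σ := Fin n) ι)).comap (map (σ := Fin n) ι) := by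
    rw [Ideal.mem_comap, Ideal.map_span, Set.image_singleton, Ideal.mem_span_singleton]
    exact h
  rw [comap_map_map, Ideal.mem_span_singleton] at h1
  exact h1

theorem iterate_pderiv_pow {L' : Type*} [Field L'] [CharZero L'] {n : ℕ}
    (s v : MvPowerSeries (Fin n) L') (hs0 : constantCoeff s = 0) (hv : constantCoeff v ≠ 0)
    (j : Fin n) (hs1 : constantCoeff (pderiv L' j s) ≠ 0) (a : ℕ) : ∀ i, i ≤ a →
    ∃ w : MvPowerSeries (Fin n) L',
      (fun x => pderiv L' j x)^[i] (s ^ a * v) = s ^ (a - i) * w ∧ constantCoeff w ≠ 0 := by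
  intro i
  induction i with
  | zero => intro _; exact ⟨v, rfl, hv⟩
  | succ i ih =>
    intro hi
    obtain ⟨w, hw, hw0⟩ := ih (by omega)
    obtain ⟨l, hl⟩ : ∃ l, a - i = l + 1 := ⟨a - i - 1, by omega⟩
    have hl' : a - (i + 1) = l := by omega
    refine ⟨s * pderiv L' j w + ((l : MvPowerSeries (Fin n) L') + 1) * pderiv L' j s * w, ?_, ?_⟩
    · rw [Function.iterate_succ_apply', hw, hl, hl', Derivation.leibniz, Derivation.leibniz_pow]
      simp only [smul_eq_mul, nsmul_eq_mul, Nat.cast_add, Nat.cast_one, Nat.add_sub_cancel]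
      ring
    · rw [map_add, map_mul, map_mul, map_mul, hs0, zero_mul, zero_add, map_add, map_natCast,
        map_one]
      exact mul_ne_zero (mul_ne_zero (by exact_mod_cast Nat.succ_ne_zero l) hs1) hw0

theorem exists_radical {L L' : Type*} [Field L] [Field L'] [CharZero L'] (ι : L →+* L') {n : ℕ}
    (E : MvPowerSeries (Fin n) L) (s : MvPowerSeries (Fin n) L') (hs0 : constantCoeff s = 0)
    (j : Fin n) (hs1 : constantCoeff (pderiv L' j s) ≠ 0) (a : ℕ) (ha : a ≠ 0)
    (hE : Associated (map ι E) (s ^ a)) :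
    ∃ D : MvPowerSeries (Fin n) L, IsSimple D ∧ constantCoeff (pderiv L j D) ≠ 0 ∧
      Squarefree D ∧ D ^ a ∣ E ∧ E ∣ D ^ a := by
  obtain ⟨v, hv⟩ := hE.symm
  have hv0 : constantCoeff (v : MvPowerSeries (Fin n) L') ≠ 0 :=
    (isUnit_constantCoeff _ v.isUnit).ne_zero
  obtain ⟨w, hw, hw0⟩ := iterate_pderiv_pow s v hs0 hv0 j hs1 a (a - 1) (Nat.sub_le _ _)
  have ha1 : a - (a - 1) = 1 := by omega
  rw [hv, ← map_iterate_pderiv, ha1, pow_one] at hw
  set D : MvPowerSeries (Fin n) L := (fun x => pderiv L j x)^[a - 1] E with hDdef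
  have hwu : IsUnit w := by
    rw [MvPowerSeries.isUnit_iff_constantCoeff]
    exact isUnit_iff_ne_zero.2 hw0
  have h0 : constantCoeff D = 0 := by
    have : ι (constantCoeff D) = 0 := by
      have h := congrArg constantCoeff hw
      rw [constantCoeff_map, map_mul, hs0, zero_mul] at h
      exact h
    simpa using this
  have h1 : constantCoeff (pderiv L j D) ≠ 0 := by
    intro h
    have h2 : constantCoeff (map ι (pderiv L j D)) = 0 := by
      rw [constantCoeff_map, h, map_zero]
    rw [map_pderiv_radical, hw, Derivation.leibniz, map_add] at h2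
    simp only [smul_eq_mul, map_mul, hs0, zero_mul, zero_add] at h2
    exact (mul_ne_zero hw0 hs1) h2
  have hsim : IsSimple D := ⟨h0, j, h1⟩
  have hD0 : D ≠ 0 := by
    intro h
    apply h1
    rw [h, map_zero, map_zero]
  have hprime : Prime D := by
    have := span_isPrime_of_isSimple D hsim
    exact (Ideal.span_singleton_prime hD0).1 this
  have hass : Associated (map ι (D ^ a)) (map ι E) := by
    rw [map_pow, hw, mul_pow]
    exact (associated_mul_unit_left _ _ (hwu.pow a)).trans ⟨v, hv⟩
  exact ⟨D, hsim, h1, hprime.irreducible.squarefree, dvd_of_map_dvd ι hass.dvd,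
    dvd_of_map_dvd ι hass.symm.dvd⟩

end H85.Zar
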