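import Mathlib

set_option linter.style.longLine false

/-! Taylor homomorphisms of rings of formal power series. -/

namespace H85.Zar

open MvPowerSeries

namespace TaylorAux

/-- A power series is its constant coefficient plus a combination of the variables. -/
theorem exists_decomp {m : ℕ} {K : Type*} [CommRing K] (f : MvPowerSeries (Fin m) K) :
    ∃ g : Fin m → MvPowerSeries (Fin m) K, f = C (constantCoeff f) + ∑ i, X i * g i := by
  let g : Fin m → MvPowerSeries (Fin m) K := fun i d =>
    if ∀ j < i, d j = 0 then coeff (d + Finsupp.single i 1) f else 0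
  have hg : ∀ i d, coeff d (g i) = if ∀ j < i, d j = 0 then coeff (d + Finsupp.single i 1) f else 0 :=
    fun i d => rfl
  refine ⟨g, ?_⟩
  ext e
  rw [map_add, map_sum]
  have hX : ∀ i, coeff e (X i * g i) = if Finsupp.single i 1 ≤ e ∧ ∀ j < i, e j = 0 then
      coeff e f else 0 := by
    intro i
    rw [X, coeff_monomial_mul, one_mul, hg]
    by_cases h : Finsupp.single i 1 ≤ e
    · rw [if_pos h, tsub_add_cancel_of_le h]
      have h2 : (∀ j < i, (e - Finsupp.single i 1 : Fin m →₀ ℕ) j = 0) ↔ ∀ j < i, e j = 0 := by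
        refine forall₂_congr fun j hj => ?_
        rw [Finsupp.tsub_apply, Finsupp.single_apply, if_neg hj.ne', tsub_zero]
      simp only [h2, h, true_and]
    · rw [if_neg h, if_neg (fun h' => h h'.1)]
  rw [Finset.sum_congr rfl fun i _ => hX i]
  by_cases he : e = 0
  · subst he
    rw [coeff_zero_eq_constantCoeff_apply, coeff_zero_eq_constantCoeff_apply, constantCoeff_C]
    simp
  · have hs : e.support.Nonempty := Finsupp.support_nonempty_iff.mpr he
    rw [coeff_C, if_neg he, zero_add, Finset.sum_eq_single (e.support.min' hs)]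
    · rw [if_pos]
      constructor
      · rw [Finsupp.single_le_iff]
        have := Finsupp.mem_support_iff.mp (e.support.min'_mem hs)
        omega
      · intro j hj
        by_contra hne
        exact absurd (e.support.min'_le j (Finsupp.mem_support_iff.mpr hne)) (not_le.mpr hj)
    · intro i _ hi
      rw [if_neg]
      rintro ⟨h1, h2⟩
      rw [Finsupp.single_le_iff] at h1
      have hmem : i ∈ e.support := Finsupp.mem_support_iff.mpr (by omega)
      have hle := e.support.min'_le i hmem
      rcases lt_or_eq_of_le hle with hlt | heq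
      · exact Finsupp.mem_support_iff.mp (e.support.min'_mem hs) (h2 _ hlt)
      · exact hi heq.symm
    · intro h; exact absurd (Finset.mem_univ _) h

/-- An additive map that kills the constants and for which multiplication by a variable becomes
multiplication by an element of the maximal ideal is zero. -/
theorem eq_zero_of_step {m : ℕ} {K B : Type*} [CommRing K] [CommRing B] [IsNoetherianRing B]
    [IsLocalRing B] (E : MvPowerSeries (Fin m) K →+ B) (a : Fin m → B)
    (ha : ∀ j, a j ∈ IsLocalRing.maximalIdeal B) (h0 : ∀ c, E (C c) = 0)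
    (h1 : ∀ j g, E (X j * g) = a j * E g) (f : MvPowerSeries (Fin m) K) : E f = 0 := by
  have key : ∀ N : ℕ, ∀ f, E f ∈ IsLocalRing.maximalIdeal B ^ N := by
    intro N
    induction N with
    | zero => intro f; simp
    | succ N ih =>
      intro f
      obtain ⟨g, hg⟩ := exists_decomp f
      rw [hg, map_add, h0, zero_add, map_sum]
      refine Ideal.sum_mem _ fun i _ => ?_
      rw [h1, pow_succ']
      exact Ideal.mul_mem_mul (ha i) (ih _)
  have h2 : E f ∈ ⨅ i : ℕ, IsLocalRing.maximalIdeal B ^ i := by
    rw [Ideal.mem_iInf]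
    exact fun N => key N f
  rw [Ideal.iInf_pow_eq_bot_of_isLocalRing _ (Ideal.IsPrime.ne_top inferInstance)] at h2
  simpa using h2

/-- Two ring homomorphisms to a Noetherian local ring that agree on the constants and on the
variables, the variables having images in the maximal ideal, are equal. -/
theorem ringHom_ext {m : ℕ} {K B : Type*} [CommRing K] [CommRing B] [IsNoetherianRing B]
    [IsLocalRing B] (α β : MvPowerSeries (Fin m) K →+* B)
    (hm : ∀ i, α (X i) ∈ IsLocalRing.maximalIdeal B) (h0 : ∀ c, α (C c) = β (C c))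
    (h : ∀ i, α (X i) = β (X i)) : α = β := by
  ext f
  have := eq_zero_of_step (α.toAddMonoidHom - β.toAddMonoidHom) (fun i => α (X i)) hm
    (fun c => by
      change α (C c) - β (C c) = 0
      rw [h0, sub_self])
    (fun j g => by
      change α (X j * g) - β (X j * g) = α (X j) * (α g - β g)
      rw [map_mul, map_mul, ← h, mul_sub]) f
  exact sub_eq_zero.1 this

theorem mem_maximalIdeal_of_constantCoeff {m : ℕ} {K : Type*} [CommRing K] [IsLocalRing K]
    (f : MvPowerSeries (Fin m) K) (hf : constantCoeff f ∈ IsLocalRing.maximalIdeal K) :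
    f ∈ IsLocalRing.maximalIdeal (MvPowerSeries (Fin m) K) := by
  rw [IsLocalRing.mem_maximalIdeal, mem_nonunits_iff, MvPowerSeries.isUnit_iff_constantCoeff]
  rwa [IsLocalRing.mem_maximalIdeal, mem_nonunits_iff] at hf

theorem mem_maximalIdeal_of_constantCoeff_zero {m : ℕ} {K : Type*} [CommRing K] [IsLocalRing K]
    (f : MvPowerSeries (Fin m) K) (hf : constantCoeff f = 0) :
    f ∈ IsLocalRing.maximalIdeal (MvPowerSeries (Fin m) K) :=
  mem_maximalIdeal_of_constantCoeff f (by rw [hf]; exact Ideal.zero_mem _)

open scoped MvPowerSeries.WithPiTopology in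
theorem exists_hom (K : Type*) [Field K] (m : ℕ) :
    ∃ T : MvPowerSeries (Fin m) K →ₐ[K] MvPowerSeries (Fin m) (MvPowerSeries (Fin m) K),
      ∀ i, T (X i) = C (X i) + X i := by
  let _ : UniformSpace K := ⊥
  have _ : DiscreteTopology K := ⟨rfl⟩
  have _ : IsUniformAddGroup K := inferInstance
  have h1 : HasEval (fun i : Fin m => (C (X i) : MvPowerSeries (Fin m) (MvPowerSeries (Fin m) K))) :=
    HasEval.map (φ := (C : MvPowerSeries (Fin m) K →+* MvPowerSeries (Fin m) (MvPowerSeries (Fin m) K)))
      MvPowerSeries.WithPiTopology.continuous_C HasEval.X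
  have h2 : HasEval (fun i : Fin m => (X i : MvPowerSeries (Fin m) (MvPowerSeries (Fin m) K))) :=
    HasEval.X
  have h3 := h1.add h2
  refine ⟨MvPowerSeries.aeval h3, fun i => ?_⟩
  rw [coe_aeval, eval₂_X]
  rfl

theorem algebraMap_eq (K : Type*) [Field K] (m p : ℕ) (c : K) :
    algebraMap K (MvPowerSeries (Fin m) (MvPowerSeries (Fin p) K)) c = C (C c) := by
  rw [MvPowerSeries.algebraMap_apply, MvPowerSeries.algebraMap_apply]
  rfl

theorem pderiv_mul' {R : Type*} [CommRing R] {m : ℕ} (i : Fin m) (f g : MvPowerSeries (Fin m) R) :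
    pderiv R i (f * g) = f * pderiv R i g + g * pderiv R i f := by
  rw [Derivation.leibniz, smul_eq_mul, smul_eq_mul]

theorem pderiv_add' {R : Type*} [CommRing R] {m : ℕ} (i : Fin m) (f g : MvPowerSeries (Fin m) R) :
    pderiv R i (f + g) = pderiv R i f + pderiv R i g := map_add _ _ _

theorem pderiv_C' {R : Type*} [CommRing R] {m : ℕ} (i : Fin m) (c : R) :
    pderiv R i (C c : MvPowerSeries (Fin m) R) = 0 := pderiv_C

theorem pderiv_X' {R : Type*} [CommRing R] {m : ℕ} (i j : Fin m) :
    pderiv R i (X j : MvPowerSeries (Fin m) R) = if j = i then 1 else 0 := by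
  split_ifs with h
  · subst h
    rw [pderiv_X_self]
  · rw [pderiv_X_of_ne h]

theorem exists_subst {R : Type*} [CommRing R] {n p : ℕ} (a : Fin n → MvPowerSeries (Fin p) R)
    (ha : ∀ i, constantCoeff (a i) = 0) :
    ∃ F : MvPowerSeries (Fin n) R →+* MvPowerSeries (Fin p) R,
      (∀ c, F (C c) = C c) ∧ (∀ i, F (X i) = a i) ∧ ∀ f, F f = subst a f := by
  have hs : HasSubst a := hasSubst_of_constantCoeff_zero ha
  refine ⟨(substAlgHom (R := R) hs).toRingHom, fun c => (substAlgHom (R := R) hs).commutes c,
    fun i => substAlgHom_X (R := R) hs i, fun f => ?_⟩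
  rw [← coe_substAlgHom hs]
  rfl

theorem algebraMap_eq' {K : Type*} [Field K] (n : ℕ) (c : K) :
    algebraMap K (PowerSeries (MvPowerSeries (Fin n) K)) c = PowerSeries.C (C c) := by
  rw [PowerSeries.algebraMap_apply]
  rfl

end TaylorAux

open TaylorAux

theorem hom_ext {m : ℕ} {K B : Type*} [Field K] [CommRing B] [IsNoetherianRing B] [IsLocalRing B]
    [Algebra K B] (α β : MvPowerSeries (Fin m) K →ₐ[K] B)
    (hm : ∀ i, α (X i) ∈ IsLocalRing.maximalIdeal B) (h : ∀ i, α (X i) = β (X i)) : α = β := by
  have := ringHom_ext α.toRingHom β.toRingHom hm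
    (fun c => (α.commutes c).trans (β.commutes c).symm) h
  ext f
  exact DFunLike.congr_fun this f

theorem exists_taylor (K : Type*) [Field K] (m : ℕ) :
    ∃ T : MvPowerSeries (Fin m) K →ₐ[K] MvPowerSeries (Fin m) (MvPowerSeries (Fin m) K),
      (∀ i, T (X i) = C (X i) + X i) ∧ (∀ r, constantCoeff (T r) = r) ∧
      (∀ i r, pderiv (MvPowerSeries (Fin m) K) i (T r) = T (pderiv K i r)) := by
  obtain ⟨T, hT⟩ := exists_hom K m
  have hTC : ∀ c, T (C c) = C (C c) := fun c => (T.commutes c).trans (algebraMap_eq K m m c)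
  have hX : ∀ i : Fin m, (X i : MvPowerSeries (Fin m) K) ∈
      IsLocalRing.maximalIdeal (MvPowerSeries (Fin m) K) := fun i =>
    mem_maximalIdeal_of_constantCoeff_zero _ (constantCoeff_X i)
  have h1 : (constantCoeff.comp T.toRingHom : MvPowerSeries (Fin m) K →+* MvPowerSeries (Fin m) K) =
      RingHom.id _ := by
    apply ringHom_ext
    · intro i
      change constantCoeff (T (X i)) ∈ _
      rw [hT, map_add, constantCoeff_C, constantCoeff_X, add_zero]
      exact hX i
    · intro c
      change constantCoeff (T (C c)) = C c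
      rw [hTC, constantCoeff_C]
    · intro i
      change constantCoeff (T (X i)) = X i
      rw [hT, map_add, constantCoeff_C, constantCoeff_X, add_zero]
  have h2 : ∀ r, constantCoeff (T r) = r := fun r => DFunLike.congr_fun h1 r
  refine ⟨T, hT, h2, fun i r => ?_⟩
  let E : MvPowerSeries (Fin m) K →+ MvPowerSeries (Fin m) (MvPowerSeries (Fin m) K) :=
    AddMonoidHom.mk' (fun r => pderiv (MvPowerSeries (Fin m) K) i (T r) - T (pderiv K i r))
      (fun r s => by
        rw [map_add T, pderiv_add', pderiv_add', map_add T]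
        ring)
  have h3 := eq_zero_of_step E (fun j => T (X j))
    (fun j => mem_maximalIdeal_of_constantCoeff _ (by rw [h2]; exact hX j))
    (fun c => by
      change pderiv (MvPowerSeries (Fin m) K) i (T (C c)) - T (pderiv K i (C c)) = 0
      rw [hTC, pderiv_C', pderiv_C', map_zero, sub_zero])
    (fun j g => by
      change pderiv (MvPowerSeries (Fin m) K) i (T (X j * g)) - T (pderiv K i (X j * g)) =
        T (X j) * (pderiv (MvPowerSeries (Fin m) K) i (T g) - T (pderiv K i g))
      have h4 : pderiv (MvPowerSeries (Fin m) K) i (T (X j)) = T (pderiv K i (X j)) := by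
        rw [hT, pderiv_add', pderiv_C', zero_add, pderiv_X', pderiv_X']
        split_ifs
        · rw [map_one]
        · rw [map_zero]
      rw [map_mul T, pderiv_mul', pderiv_mul', h4, map_add T, map_mul T, map_mul T]
      ring) r
  exact sub_eq_zero.1 h3

noncomputable def taylor (K : Type*) [Field K] (m : ℕ) :
    MvPowerSeries (Fin m) K →ₐ[K] MvPowerSeries (Fin m) (MvPowerSeries (Fin m) K) :=
  (exists_taylor K m).choose

noncomputable def tau {K L : Type*} [Field K] [Field L] {m : ℕ} (h : MvPowerSeries (Fin m) K →+* L) :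
    MvPowerSeries (Fin m) K →+* MvPowerSeries (Fin m) L :=
  (map h).comp (taylor K m).toRingHom

section
variable {K L : Type*} [Field K] [Field L] {m : ℕ} (h : MvPowerSeries (Fin m) K →+* L)

theorem taylor_X (K : Type*) [Field K] {m : ℕ} (i : Fin m) : taylor K m (X i) = C (X i) + X i :=
  (exists_taylor K m).choose_spec.1 i

theorem constantCoeff_taylor {K : Type*} [Field K] {m : ℕ} (r : MvPowerSeries (Fin m) K) :
    constantCoeff (taylor K m r) = r :=
  (exists_taylor K m).choose_spec.2.1 r

theorem pderiv_taylor {K : Type*} [Field K] {m : ℕ} (i : Fin m) (r : MvPowerSeries (Fin m) K) :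
    pderiv (MvPowerSeries (Fin m) K) i (taylor K m r) = taylor K m (pderiv K i r) :=
  (exists_taylor K m).choose_spec.2.2 i r

theorem taylor_C {K : Type*} [Field K] {m : ℕ} (c : K) : taylor K m (C c) = C (C c) :=
  ((taylor K m).commutes c).trans (algebraMap_eq K m m c)

theorem tau_apply (r : MvPowerSeries (Fin m) K) : tau h r = map h (taylor K m r) := rfl

theorem tau_X (i : Fin m) : tau h (X i) = C (h (X i)) + X i := by
  rw [tau_apply, taylor_X, map_add, map_C, map_X]

theorem tau_C (c : K) : tau h (C c) = C (h (C c)) := by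
  rw [tau_apply, taylor_C, map_C]

theorem constantCoeff_tau (r : MvPowerSeries (Fin m) K) : constantCoeff (tau h r) = h r := by
  rw [tau_apply, constantCoeff_map, constantCoeff_taylor]

theorem pderiv_map' {R S : Type*} [CommRing R] [CommRing S] (j : R →+* S) (i : Fin m)
    (r : MvPowerSeries (Fin m) R) : pderiv S i (map j r) = map j (pderiv R i r) := by
  ext d
  rw [coeff_pderiv, coeff_map, coeff_map, coeff_pderiv, map_mul]
  simp

theorem pderiv_tau (i : Fin m) (r : MvPowerSeries (Fin m) K) :
    pderiv L i (tau h r) = tau h (pderiv K i r) := by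
  rw [tau_apply, tau_apply, pderiv_map', pderiv_taylor]

theorem taylor_map {k K : Type*} [Field k] [Field K] {m : ℕ} (i : k →+* K)
    (r : MvPowerSeries (Fin m) k) :
    taylor K m (map i r) = map (map i) (taylor k m r) := by
  have : (taylor K m).toRingHom.comp (map i) = (map (map i)).comp (taylor k m).toRingHom := by
    apply ringHom_ext
    · intro j
      change taylor K m (map i (X j)) ∈ _
      apply mem_maximalIdeal_of_constantCoeff
      rw [constantCoeff_taylor, map_X]
      exact mem_maximalIdeal_of_constantCoeff_zero _ (constantCoeff_X j)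
    · intro c
      change taylor K m (map i (C c)) = map (map i) (taylor k m (C c))
      rw [map_C, taylor_C, taylor_C, map_C, map_C]
    · intro j
      change taylor K m (map i (X j)) = map (map i) (taylor k m (X j))
      rw [map_X, taylor_X, taylor_X, map_add, map_C, map_X, map_X]
  exact DFunLike.congr_fun this r

theorem tau_map {k : Type*} [Field k] (i : k →+* K) (r : MvPowerSeries (Fin m) k) :
    tau h (map i r) = tau (h.comp (map i)) r := by
  rw [tau_apply, tau_apply, taylor_map, ← RingHom.comp_apply, ← map_comp]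

theorem map_tau {L' : Type*} [Field L'] (j : L →+* L') (r : MvPowerSeries (Fin m) K) :
    map j (tau h r) = tau (j.comp h) r := by
  rw [tau_apply, tau_apply, ← RingHom.comp_apply, ← map_comp]

/-- Naturality of the Taylor homomorphism. -/
theorem taylor_natural {K : Type*} [Field K] {n p : ℕ}
    (Ψ : MvPowerSeries (Fin n) K →ₐ[K] MvPowerSeries (Fin p) K)
    (hΨ : ∀ i, constantCoeff (Ψ (X i)) = 0) (r : MvPowerSeries (Fin n) K) :
    taylor K p (Ψ r) = subst (fun i => taylor K p (Ψ (X i)) - C (Ψ (X i)))
      (map Ψ.toRingHom (taylor K n r)) := by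
  obtain ⟨F, hFC, hFX, hFs⟩ := exists_subst
    (fun i : Fin n => taylor K p (Ψ (X i)) - C (Ψ (X i)))
    (fun i => by rw [map_sub, constantCoeff_taylor, constantCoeff_C, sub_self])
  have : (taylor K p).toRingHom.comp Ψ.toRingHom =
      (F.comp (map Ψ.toRingHom)).comp (taylor K n).toRingHom := by
    have hΨC : ∀ c, Ψ (C c) = C c := fun c => Ψ.commutes c
    apply ringHom_ext
    · intro i
      change taylor K p (Ψ (X i)) ∈ _
      apply mem_maximalIdeal_of_constantCoeff
      rw [constantCoeff_taylor]
      exact mem_maximalIdeal_of_constantCoeff_zero _ (hΨ i)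
    · intro c
      change taylor K p (Ψ (C c)) = F (map Ψ.toRingHom (taylor K n (C c)))
      rw [taylor_C, map_C, hFC]
      change _ = C (Ψ (C c))
      rw [hΨC, taylor_C]
    · intro i
      change taylor K p (Ψ (X i)) = F (map Ψ.toRingHom (taylor K n (X i)))
      rw [taylor_X, map_add, map_C, map_X, map_add, hFX, hFC]
      change _ = C (Ψ (X i)) + _
      ring
  rw [← hFs]
  exact DFunLike.congr_fun this r

/-- The Taylor homomorphisms and a homomorphism of power series algebras. -/
theorem tau_natural {K L : Type*} [Field K] [Field L] {n p : ℕ}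
    (h : MvPowerSeries (Fin p) K →+* L)
    (Ψ : MvPowerSeries (Fin n) K →ₐ[K] MvPowerSeries (Fin p) K)
    (hΨ : ∀ i, constantCoeff (Ψ (X i)) = 0)
    (Ψ' : MvPowerSeries (Fin n) L →ₐ[L] MvPowerSeries (Fin p) L)
    (h1 : ∀ i, Ψ' (X i) = tau h (Ψ (X i)) - C (h (Ψ (X i)))) (r : MvPowerSeries (Fin n) K) :
    tau h (Ψ r) = Ψ' (tau (h.comp Ψ.toRingHom) r) := by
  have hs : HasSubst (fun i : Fin n => taylor K p (Ψ (X i)) - C (Ψ (X i))) :=
    hasSubst_of_constantCoeff_zero fun i => by
      rw [map_sub, constantCoeff_taylor, constantCoeff_C, sub_self]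
  have hs' : HasSubst (fun i : Fin n => map h (taylor K p (Ψ (X i)) - C (Ψ (X i)))) := hs.map h
  have h2 : substAlgHom (R := L) hs' = Ψ' := by
    apply hom_ext
    · intro i
      rw [substAlgHom_X]
      apply mem_maximalIdeal_of_constantCoeff_zero
      rw [constantCoeff_map, map_sub, constantCoeff_taylor, constantCoeff_C, sub_self, map_zero]
    · intro i
      rw [substAlgHom_X, h1, tau_apply, map_sub, map_C]
  rw [tau_apply, taylor_natural Ψ hΨ, map_subst hs, tau_apply, ← h2, coe_substAlgHom,
    ← RingHom.comp_apply, ← map_comp]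

theorem tau_Theta {n : ℕ} (h : MvPowerSeries (Fin (n + 1)) K →+* L)
    (Θ : PowerSeries (MvPowerSeries (Fin n) K) →ₐ[K] MvPowerSeries (Fin (n + 1)) K)
    (hΘ : ∀ i, constantCoeff (Θ (PowerSeries.C (X i))) = 0)
    (Θ' : PowerSeries (MvPowerSeries (Fin n) L) →ₐ[L] MvPowerSeries (Fin (n + 1)) L)
    (h1 : ∀ i, Θ' (PowerSeries.C (X i)) =
      tau h (Θ (PowerSeries.C (X i))) - C (h (Θ (PowerSeries.C (X i)))))
    (h2 : Θ' PowerSeries.X = tau h (Θ PowerSeries.X) - C (h (Θ PowerSeries.X)))
    (G : Polynomial (MvPowerSeries (Fin n) K)) :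
    tau h (Θ (G : PowerSeries (MvPowerSeries (Fin n) K))) =
      Θ' (((G.map (tau (h.comp (Θ.toRingHom.comp PowerSeries.C)))).comp
        (Polynomial.X + Polynomial.C (C (h (Θ PowerSeries.X)))) :
          Polynomial (MvPowerSeries (Fin n) L)) : PowerSeries (MvPowerSeries (Fin n) L)) := by
  let cK : MvPowerSeries (Fin n) K →ₐ[K] PowerSeries (MvPowerSeries (Fin n) K) :=
    { (PowerSeries.C : MvPowerSeries (Fin n) K →+* PowerSeries (MvPowerSeries (Fin n) K)) with
      commutes' := fun c => (algebraMap_eq' n c).symm }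
  let cL : MvPowerSeries (Fin n) L →ₐ[L] PowerSeries (MvPowerSeries (Fin n) L) :=
    { (PowerSeries.C : MvPowerSeries (Fin n) L →+* PowerSeries (MvPowerSeries (Fin n) L)) with
      commutes' := fun c => (algebraMap_eq' n c).symm }
  have hc : ∀ r : MvPowerSeries (Fin n) K, tau h (Θ (PowerSeries.C r)) =
      Θ' (PowerSeries.C (tau (h.comp (Θ.toRingHom.comp PowerSeries.C)) r)) := fun r =>
    tau_natural h (Θ.comp cK) hΘ (Θ'.comp cL) h1 r
  have hL : ∀ c : L, Θ' (PowerSeries.C (C c)) = C c := fun c => by
    have := Θ'.commutes c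
    rw [algebraMap_eq'] at this
    exact this
  set t := tau (h.comp (Θ.toRingHom.comp PowerSeries.C)) with ht
  let A : Polynomial (MvPowerSeries (Fin n) K) →+* MvPowerSeries (Fin (n + 1)) L :=
    (tau h).comp (Θ.toRingHom.comp Polynomial.coeToPowerSeries.ringHom)
  let B : Polynomial (MvPowerSeries (Fin n) K) →+* MvPowerSeries (Fin (n + 1)) L :=
    Θ'.toRingHom.comp (Polynomial.coeToPowerSeries.ringHom.comp
      ((Polynomial.compRingHom (Polynomial.X + Polynomial.C (C (h (Θ PowerSeries.X))))).comp
        (Polynomial.mapRingHom t)))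
  have hAB : A = B := by
    apply Polynomial.ringHom_ext
    · intro r
      change tau h (Θ ((Polynomial.C r : Polynomial (MvPowerSeries (Fin n) K)) :
          PowerSeries (MvPowerSeries (Fin n) K))) =
        Θ' ((((Polynomial.C r).map t).comp
          (Polynomial.X + Polynomial.C (C (h (Θ PowerSeries.X)))) :
          Polynomial (MvPowerSeries (Fin n) L)) : PowerSeries (MvPowerSeries (Fin n) L))
      rw [Polynomial.map_C, Polynomial.C_comp, Polynomial.coe_C, Polynomial.coe_C, hc]
    · change tau h (Θ ((Polynomial.X : Polynomial (MvPowerSeries (Fin n) K)) :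
          PowerSeries (MvPowerSeries (Fin n) K))) =
        Θ' ((((Polynomial.X).map t).comp
          (Polynomial.X + Polynomial.C (C (h (Θ PowerSeries.X)))) :
          Polynomial (MvPowerSeries (Fin n) L)) : PowerSeries (MvPowerSeries (Fin n) L))
      rw [Polynomial.map_X, Polynomial.X_comp, Polynomial.coe_add, Polynomial.coe_X,
        Polynomial.coe_X, Polynomial.coe_C, map_add, hL, h2]
      ring
  exact DFunLike.congr_fun hAB G

end

end H85.Zar
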