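import Pool.Agent.H9.Zar.Strata
import Pool.Agent.H9.Zar.Transfer
import Pool.Agent.H9.Zar.Base
import Pool.Agent.H85.Zar.Taylor
import Pool.Agent.H85.Zar.Coord
import Pool.Agent.H85.Zar.Discr
import Pool.Agent.H85.Zar.BaseChange
import Pool.Agent.H85.Zar.Radical
import Pool.Agent.H85.Zar.Heights

set_option linter.style.longLine false

/-! ZQ11: specialization. A simple reduced discriminant gives equisingularity at the generic
point. -/

namespace H85.Zar

open MvPowerSeries H9.Zar

universe v

namespace Sp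

section basic
variable {K : Type*} [Field K] {n : ℕ}

theorem constantCoeff_Theta
    (Θ : PowerSeries (MvPowerSeries (Fin n) K) ≃ₐ[K] MvPowerSeries (Fin (n + 1)) K)
    (F : PowerSeries (MvPowerSeries (Fin n) K)) :
    constantCoeff (Θ F) = constantCoeff (PowerSeries.coeff 0 F) := by
  obtain ⟨f, rfl⟩ := (finSuccEquiv K n).surjective F
  have h := constantCoeff_algHom (((finSuccEquiv K n).trans Θ).toAlgHom) f
  have h2 : (0 : Fin n →₀ ℕ).cons 0 = 0 := by
    ext i
    refine Fin.cases ?_ (fun i => ?_) i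
    · simp
    · simp
  rw [← coeff_zero_eq_constantCoeff_apply (PowerSeries.coeff 0 _), coeff_coeff_finSuccEquiv, h2,
    coeff_zero_eq_constantCoeff_apply, ← h]
  rfl

theorem span_X (n : ℕ) (K : Type*) [Field K] :
    IsLocalRing.maximalIdeal (MvPowerSeries (Fin n) K) =
      Ideal.span (Set.range (X : Fin n → MvPowerSeries (Fin n) K)) := by
  apply le_antisymm
  · intro f hf
    rw [mem_maximalIdeal_iff] at hf
    obtain ⟨g, hg⟩ := exists_sum f
    rw [hg, hf, map_zero, zero_add]
    exact Ideal.sum_mem _ fun i _ => Ideal.mul_mem_right _ _ (Ideal.subset_span ⟨i, rfl⟩)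
  · rw [Ideal.span_le]
    rintro _ ⟨i, rfl⟩
    rw [SetLike.mem_coe, mem_maximalIdeal_iff, constantCoeff_X]

theorem isAdicComplete (n : ℕ) (K : Type*) [Field K] :
    IsAdicComplete (IsLocalRing.maximalIdeal (MvPowerSeries (Fin n) K)) (MvPowerSeries (Fin n) K) := by
  rw [span_X]
  infer_instance

theorem map_residue_ne_zero (F : PowerSeries (MvPowerSeries (Fin n) K)) (m : ℕ)
    (h : constantCoeff (PowerSeries.coeff m F) ≠ 0) :
    F.map (IsLocalRing.residue (MvPowerSeries (Fin n) K)) ≠ 0 := by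
  intro h0
  apply h
  have h1 := congrArg (PowerSeries.coeff m) h0
  rw [PowerSeries.coeff_map, map_zero, IsLocalRing.residue_eq_zero_iff, mem_maximalIdeal_iff] at h1
  exact h1

theorem coeff_map_residue_eq_zero (F : PowerSeries (MvPowerSeries (Fin n) K)) (m : ℕ)
    (h : constantCoeff (PowerSeries.coeff m F) = 0) :
    PowerSeries.coeff m (F.map (IsLocalRing.residue (MvPowerSeries (Fin n) K))) = 0 := by
  rw [PowerSeries.coeff_map, IsLocalRing.residue_eq_zero_iff, mem_maximalIdeal_iff]
  exact h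

theorem dvd_of_coe_dvd {G H : Polynomial (MvPowerSeries (Fin n) K)}
    (hG : G.IsDistinguishedAt (IsLocalRing.maximalIdeal _))
    (h : (G : PowerSeries (MvPowerSeries (Fin n) K)) ∣ (H : PowerSeries (MvPowerSeries (Fin n) K))) :
    G ∣ H := by
  have := isAdicComplete n K
  rw [← Ideal.mem_span_singleton, ← Ideal.Quotient.eq_zero_iff_mem]
  apply hG.algEquivQuotient.injective
  rw [map_zero]
  change Ideal.Quotient.mk _ (H : PowerSeries (MvPowerSeries (Fin n) K)) = 0
  rw [Ideal.Quotient.eq_zero_iff_mem, Ideal.mem_span_singleton]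
  exact h

/-- The derivation of the ring of power series which corresponds to the derivation with respect to
the last variable. -/
noncomputable def der
    (Θ : PowerSeries (MvPowerSeries (Fin n) K) ≃ₐ[K] MvPowerSeries (Fin (n + 1)) K) :
    Derivation K (MvPowerSeries (Fin (n + 1)) K) (MvPowerSeries (Fin (n + 1)) K) :=
  Derivation.mk' (
    { toFun := fun f => Θ (PowerSeries.derivative (MvPowerSeries (Fin n) K) (Θ.symm f))
      map_add' := fun f g => by simp
      map_smul' := fun c f => by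
        have hC : ∀ c : K, algebraMap K (PowerSeries (MvPowerSeries (Fin n) K)) c =
            PowerSeries.C (algebraMap K (MvPowerSeries (Fin n) K) c) := fun c => by
          rw [PowerSeries.algebraMap_apply]
        rw [map_smul, Algebra.smul_def, Derivation.leibniz, hC, PowerSeries.derivative_C, smul_zero,
          add_zero, smul_eq_mul, ← hC, ← Algebra.smul_def, map_smul, RingHom.id_apply] } :
      MvPowerSeries (Fin (n + 1)) K →ₗ[K] MvPowerSeries (Fin (n + 1)) K)
    (fun f g => by
      change Θ (PowerSeries.derivative (MvPowerSeries (Fin n) K) (Θ.symm (f * g))) =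
        f • Θ (PowerSeries.derivative (MvPowerSeries (Fin n) K) (Θ.symm g)) +
        g • Θ (PowerSeries.derivative (MvPowerSeries (Fin n) K) (Θ.symm f))
      rw [map_mul, Derivation.leibniz, map_add, smul_eq_mul, smul_eq_mul, map_mul, map_mul,
        AlgEquiv.apply_symm_apply, AlgEquiv.apply_symm_apply, smul_eq_mul, smul_eq_mul])

theorem der_apply (Θ : PowerSeries (MvPowerSeries (Fin n) K) ≃ₐ[K] MvPowerSeries (Fin (n + 1)) K)
    (F : PowerSeries (MvPowerSeries (Fin n) K)) :
    der Θ (Θ F) = Θ (PowerSeries.derivative (MvPowerSeries (Fin n) K) F) := by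
  change Θ (PowerSeries.derivative (MvPowerSeries (Fin n) K) (Θ.symm (Θ F))) = _
  rw [AlgEquiv.symm_apply_apply]

/-- If the germ of `f` is singular, the distinguished polynomial has degree at least two. -/
theorem two_le_natDegree
    (Θ : PowerSeries (MvPowerSeries (Fin n) K) ≃ₐ[K] MvPowerSeries (Fin (n + 1)) K)
    (F : PowerSeries (MvPowerSeries (Fin n) K)) (h0 : constantCoeff (Θ F) = 0)
    (h1 : ∀ i, constantCoeff (pderiv K i (Θ F)) = 0)
    {G : Polynomial (MvPowerSeries (Fin n) K)} {u : PowerSeries (MvPowerSeries (Fin n) K)}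
    (H : F.IsWeierstrassFactorization G u) : 2 ≤ G.natDegree := by
  have hc0 : constantCoeff (PowerSeries.coeff 0 F) = 0 := by rw [← constantCoeff_Theta Θ, h0]
  have hc1 : constantCoeff (PowerSeries.coeff 1 F) = 0 := by
    have h2 : constantCoeff (der Θ (Θ F)) = 0 := by
      rw [der_eq, map_sum]
      exact Finset.sum_eq_zero fun i _ => by rw [map_mul, h1, mul_zero]
    rw [der_apply, constantCoeff_Theta, PowerSeries.coeff_derivative] at h2
    simpa using h2
  have hne := H.map_ne_zero
  rw [H.natDegree_eq_toNat_order_map]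
  have h3 : (2 : ℕ) ≤ (F.map (IsLocalRing.residue (MvPowerSeries (Fin n) K))).order := by
    apply PowerSeries.nat_le_order
    intro i hi
    apply coeff_map_residue_eq_zero
    interval_cases i
    · exact hc0
    · exact hc1
  have h4 : (F.map (IsLocalRing.residue (MvPowerSeries (Fin n) K))).order ≠ ⊤ := by
    rw [Ne, PowerSeries.order_eq_top]
    exact hne
  obtain ⟨o, ho⟩ := ENat.ne_top_iff_exists.1 h4
  rw [← ho] at h3 ⊢
  exact_mod_cast h3

/-- The discriminant of a distinguished polynomial of degree at least two is not a unit. -/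
theorem constantCoeff_discr {G : Polynomial (MvPowerSeries (Fin n) K)}
    (hG : G.IsDistinguishedAt (IsLocalRing.maximalIdeal _)) (h2 : 2 ≤ G.natDegree) :
    constantCoeff G.discr = 0 := by
  have h1 : G.map (constantCoeff (σ := Fin n) (R := K)) = Polynomial.X ^ G.natDegree := by
    ext i
    rw [Polynomial.coeff_map, Polynomial.coeff_X_pow]
    split_ifs with hi
    · rw [hi, hG.monic.coeff_natDegree, map_one]
    · rcases lt_or_gt_of_ne hi with h | h
      · exact (mem_maximalIdeal_iff _).1 (hG.mem h)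
      · rw [Polynomial.coeff_eq_zero_of_natDegree_lt h, map_zero]
  rw [← discr_map _ hG.monic, h1, discr_eq_zero_iff (Polynomial.monic_X_pow _)]
  intro hsep
  have h3 : IsUnit (Polynomial.X : Polynomial K) := by
    apply hsep.squarefree
    rw [← pow_two]
    exact pow_dvd_pow _ h2
  exact Polynomial.not_isUnit_X h3

end basic

end Sp

open Sp

theorem sp1_core {k Ω Ω' : Type v} [Field k] [Field Ω] [Field Ω'] [CharZero Ω'] {n : ℕ}
    (f : MvPowerSeries (Fin (n + 1)) k)
    (x : Fin (n + 1) → MvPowerSeries (Fin (n + 1)) k)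
    (Θ : PowerSeries (MvPowerSeries (Fin n) (GenField n k)) ≃ₐ[GenField n k]
      MvPowerSeries (Fin (n + 1)) (GenField n k))
    (G : Polynomial (MvPowerSeries (Fin n) (GenField n k)))
    (D : MvPowerSeries (Fin n) (GenField n k))
    (hΘ1 : ∀ i : Fin n, Θ (PowerSeries.C (X i)) = ∑ j, C (gen k i j) * map (incl n k) (x j))
    (hΘ2 : Θ PowerSeries.X = map (incl n k) (x (Fin.last n)))
    (hG : G.IsDistinguishedAt (IsLocalRing.maximalIdeal _))
    (hf : Associated (map (incl n k) f)
      (Θ (G : PowerSeries (MvPowerSeries (Fin n) (GenField n k)))))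
    (b : ℕ) (hb : G.discr ∣ D ^ b)
    (g : MvPowerSeries (Fin (n + 1)) k →+* Ω)
    (h : MvPowerSeries (Fin (n + 1)) (GenField n k) →+* Ω')
    (ι : GenField n Ω →+* Ω')
    (hgh : h.comp (map (incl n k)) = (ι.comp (incl n Ω)).comp g)
    (hgen : ∀ i j, h (C (gen k i j)) = ι (gen Ω i j))
    (hsing : singIdeal f ≤ RingHom.ker g)
    (hD0 : h (Θ (PowerSeries.C D)) = 0) (j : Fin n)
    (hD1 : h (Θ (PowerSeries.C (pderiv _ j D))) ≠ 0)
    (hJ : (Matrix.of fun i j => g (pderiv k j (x i))).det ≠ 0) :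
    ∃ (φ' : MvPowerSeries (Fin (n + 1)) Ω ≃ₐ[Ω] MvPowerSeries (Fin (n + 1)) Ω)
      (Θ' : PowerSeries (MvPowerSeries (Fin n) (GenField n Ω)) ≃ₐ[GenField n Ω]
        MvPowerSeries (Fin (n + 1)) (GenField n Ω))
      (G' : Polynomial (MvPowerSeries (Fin n) (GenField n Ω)))
      (D' : MvPowerSeries (Fin n) (GenField n Ω)),
      (∀ i, φ' (X i) = tau g (x i) - C (g (x i))) ∧
      (∀ i : Fin n, Θ' (PowerSeries.C (X i)) =
        ∑ j, C (gen Ω i j) * map (incl n Ω) (φ' (X j))) ∧
      Θ' PowerSeries.X = map (incl n Ω) (φ' (X (Fin.last n))) ∧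
      G'.IsDistinguishedAt (IsLocalRing.maximalIdeal _) ∧
      Associated (map (incl n Ω) (tau g f))
        (Θ' (G' : PowerSeries (MvPowerSeries (Fin n) (GenField n Ω)))) ∧
      Squarefree D' ∧ (∃ a, D' ∣ G'.discr ^ a) ∧ (∃ b, G'.discr ∣ D' ^ b) ∧
      IsSimple D' ∧
      ∀ J : Ideal (MvPowerSeries (Fin (n + 1)) Ω), J ≠ ⊤ →
        Equising n (GenField n Ω) D'
          ((J.map (map (incl n Ω))).comap (Θ'.toAlgHom.toRingHom.comp PowerSeries.C)) := by
  classical
  -- step 1
  have hx0 : ∀ i, constantCoeff (tau g (x i) - C (g (x i))) = 0 := fun i => by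
    rw [map_sub, constantCoeff_tau, constantCoeff_C, sub_self]
  have hxJ : (Matrix.of fun i j => constantCoeff (pderiv Ω j (tau g (x i) - C (g (x i))))).det ≠ 0 := by
    have h1 : (Matrix.of fun i j => constantCoeff (pderiv Ω j (tau g (x i) - C (g (x i))))) =
        Matrix.of fun i j => g (pderiv k j (x i)) := by
      ext i j
      rw [Matrix.of_apply, Matrix.of_apply, map_sub, pderiv_C, sub_zero, pderiv_tau,
        constantCoeff_tau]
    rw [h1]
    exact hJ
  obtain ⟨φ', hφ'⟩ := exists_equiv (fun i => tau g (x i) - C (g (x i))) hx0 hxJ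
  obtain ⟨Θ', hΘ'1, hΘ'2⟩ := exists_Theta_gen (fun i => tau g (x i) - C (g (x i))) hx0 hxJ
  -- step 2
  obtain ⟨Θ'', hΘ''⟩ := exists_baseChange ι Θ'
  have hmap : ∀ r, h (map (incl n k) r) = ι (incl n Ω (g r)) := fun r => RingHom.congr_fun hgh r
  have htau : ∀ r, tau h (map (incl n k) r) = map ι (map (incl n Ω) (tau g r)) := fun r => by
    rw [tau_map, hgh, map_tau, map_tau]
    rfl
  have hdiff : ∀ r, tau h (map (incl n k) r) - C (h (map (incl n k) r)) =
      map ι (map (incl n Ω) (tau g r - C (g r))) := fun r => by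
    rw [htau, hmap, map_sub, map_sub, map_C, map_C]
  have h1 : ∀ i, Θ'' (PowerSeries.C (X i)) =
      tau h (Θ (PowerSeries.C (X i))) - C (h (Θ (PowerSeries.C (X i)))) := by
    intro i
    have e1 : (PowerSeries.C (X i) : PowerSeries (MvPowerSeries (Fin n) Ω')) =
        PowerSeries.map (map ι) (PowerSeries.C (X i)) := by
      rw [PowerSeries.map_C, map_X]
    rw [e1, hΘ'', hΘ'1, hΘ1, map_sum, map_sum, map_sum, map_sum, ← Finset.sum_sub_distrib]
    refine Finset.sum_congr rfl fun j _ => ?_
    rw [map_mul, map_mul, map_mul, map_mul, tau_C, hgen, map_C, ← mul_sub, hdiff]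
  have h2 : Θ'' PowerSeries.X = tau h (Θ PowerSeries.X) - C (h (Θ PowerSeries.X)) := by
    have e1 : (PowerSeries.X : PowerSeries (MvPowerSeries (Fin n) Ω')) =
        PowerSeries.map (map ι) PowerSeries.X := by
      rw [PowerSeries.map_X]
    rw [e1, hΘ'', hΘ'2, hΘ2, hdiff]
  have hΘ0 : ∀ i, constantCoeff (Θ (PowerSeries.C (X i))) = 0 := fun i => by
    rw [constantCoeff_Theta, PowerSeries.coeff_zero_C, constantCoeff_X]
  set ψ : MvPowerSeries (Fin n) (GenField n k) →+* Ω' :=
    h.comp (Θ.toAlgHom.toRingHom.comp PowerSeries.C) with hψ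
  have hT := tau_Theta h Θ.toAlgHom hΘ0 Θ''.toAlgHom h1 h2 G
  set H₀ : Polynomial (MvPowerSeries (Fin n) Ω') := G.map (tau ψ) with hH₀
  set ζ : MvPowerSeries (Fin n) Ω' := C (h (Θ PowerSeries.X)) with hζ
  set H : Polynomial (MvPowerSeries (Fin n) Ω') :=
    H₀.comp (Polynomial.X + Polynomial.C ζ) with hH
  have hH₀m : H₀.Monic := hG.monic.map _
  have hHm : H.Monic := hH₀m.comp_X_add_C ζ
  replace hT : tau h (Θ (G : PowerSeries (MvPowerSeries (Fin n) (GenField n k)))) =
    Θ'' (H : PowerSeries (MvPowerSeries (Fin n) Ω')) := hT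
  -- step 3
  set f' := map (incl n Ω) (tau g f) with hf'
  set F' := Θ'.symm f' with hF'
  have hΘF : Θ' F' = f' := Θ'.apply_symm_apply f'
  have hass : Associated (PowerSeries.map (map ι) F')
      (H : PowerSeries (MvPowerSeries (Fin n) Ω')) := by
    have e1 := hf.map (tau h)
    rw [htau, hT, ← hf', ← hΘF, ← hΘ''] at e1
    have e2 := e1.map (Θ''.symm : MvPowerSeries (Fin (n + 1)) Ω' ≃ₐ[Ω'] _)
    rw [AlgEquiv.symm_apply_apply, AlgEquiv.symm_apply_apply] at e2
    exact e2
  -- step 4
  have hF'ne : F'.map (IsLocalRing.residue (MvPowerSeries (Fin n) (GenField n Ω))) ≠ 0 := by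
    by_contra hcon
    have e1 : ∀ m, constantCoeff (PowerSeries.coeff m F') = 0 := by
      intro m
      by_contra hm
      exact map_residue_ne_zero F' m hm hcon
    have e2 : PowerSeries.map (constantCoeff (σ := Fin n) (R := Ω'))
        (PowerSeries.map (map ι) F') = 0 := by
      ext m
      rw [PowerSeries.coeff_map, PowerSeries.coeff_map, constantCoeff_map, e1, map_zero, map_zero]
    have e3 := hass.map (PowerSeries.map (constantCoeff (σ := Fin n) (R := Ω')))
    rw [e2] at e3
    have e4 := (associated_zero_iff_eq_zero _).1 e3.symm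
    have e5 := congrArg (PowerSeries.coeff H.natDegree) e4
    rw [PowerSeries.coeff_map, Polynomial.coeff_coe, hHm.coeff_natDegree, map_one, map_zero] at e5
    exact one_ne_zero e5
  have hcompl := isAdicComplete n (GenField n Ω)
  obtain ⟨G', u, HW⟩ := PowerSeries.exists_isWeierstrassFactorization hF'ne
  have hG' : G'.IsDistinguishedAt (IsLocalRing.maximalIdeal _) := HW.isDistinguishedAt
  have hFG : Associated F' (G' : PowerSeries (MvPowerSeries (Fin n) (GenField n Ω))) := by
    obtain ⟨u', hu'⟩ := HW.isUnit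
    rw [HW.eq_mul, ← hu']
    exact (associated_mul_unit_left _ _ u'.isUnit)
  have hfG : Associated f' (Θ' (G' : PowerSeries (MvPowerSeries (Fin n) (GenField n Ω)))) := by
    rw [← hΘF]
    exact hFG.map Θ'
  -- step 5
  set Gh : Polynomial (MvPowerSeries (Fin n) Ω') := G'.map (map ι) with hGh
  have hGhm : Gh.Monic := hG'.monic.map _
  have hGhd : Gh.IsDistinguishedAt (IsLocalRing.maximalIdeal _) := by
    refine ⟨⟨fun {i} hi => ?_⟩, hGhm⟩
    rw [hG'.monic.natDegree_map] at hi
    rw [Polynomial.coeff_map, mem_maximalIdeal_iff, constantCoeff_map,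
      (mem_maximalIdeal_iff _).1 (hG'.mem hi), map_zero]
  have hGhc : (Gh : PowerSeries (MvPowerSeries (Fin n) Ω')) =
      PowerSeries.map (map ι) (G' : PowerSeries (MvPowerSeries (Fin n) (GenField n Ω))) := by
    ext m : 1
    rw [Polynomial.coeff_coe, Polynomial.coeff_map, PowerSeries.coeff_map, Polynomial.coeff_coe]
  have hGhH : Gh ∣ H := by
    apply dvd_of_coe_dvd hGhd
    rw [hGhc]
    exact ((hFG.map (PowerSeries.map (map (σ := Fin n) ι))).symm.trans hass).dvd
  obtain ⟨N, hN⟩ := discr_dvd_pow Gh H₀ hGhm hH₀m ζ hGhH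
  rw [hGh, discr_map _ hG'.monic, hH₀, discr_map _ hG.monic] at hN
  -- step 6
  set s : MvPowerSeries (Fin n) Ω' := tau ψ D with hs
  have hsN : map ι G'.discr ∣ s ^ (b * N) := by
    refine hN.trans ?_
    rw [pow_mul]
    exact pow_dvd_pow_of_dvd (by rw [hs, ← map_pow]; exact map_dvd _ hb) N
  have hs0 : constantCoeff s = 0 := by
    rw [hs, constantCoeff_tau]
    exact hD0
  have hs1 : constantCoeff (pderiv Ω' j s) ≠ 0 := by
    rw [hs, pderiv_tau, constantCoeff_tau]
    exact hD1
  have hsne : s ≠ 0 := by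
    intro h0
    apply hs1
    rw [h0, map_zero, map_zero]
  have hsp : Prime s := (Ideal.span_singleton_prime hsne).1
    (span_isPrime_of_isSimple s ⟨hs0, j, hs1⟩)
  obtain ⟨a, -, ha⟩ := (dvd_prime_pow hsp _).1 hsN
  -- step 7
  have ha0 : a ≠ 0 := by
    rintro rfl
    rw [pow_zero, associated_one_iff_isUnit, MvPowerSeries.isUnit_iff_constantCoeff,
      constantCoeff_map] at ha
    have hdeg : 2 ≤ G'.natDegree := by
      refine two_le_natDegree Θ' F' ?_ (fun i => ?_) HW
      · rw [hΘF, hf', constantCoeff_map, constantCoeff_tau]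
        have : g f = 0 := hsing (Ideal.subset_span (Or.inl rfl))
        rw [this, map_zero]
      · rw [hΘF, hf', pderiv_map', constantCoeff_map, pderiv_tau, constantCoeff_tau]
        have : g (pderiv k i f) = 0 := hsing (Ideal.subset_span (Or.inr ⟨i, rfl⟩))
        rw [this, map_zero]
    rw [constantCoeff_discr hG' hdeg, map_zero] at ha
    exact not_isUnit_zero ha
  -- step 8
  obtain ⟨D', hD's, hD'j, hD'sq, hD'1, hD'2⟩ := exists_radical ι G'.discr s hs0 j hs1 a ha0 ha
  refine ⟨φ', Θ', G', D', hφ', ?_, ?_, hG', hfG, hD'sq, ⟨1, ?_⟩, ⟨a, hD'2⟩, hD's, ?_⟩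
  · intro i
    rw [hΘ'1]
    exact Finset.sum_congr rfl fun j _ => by rw [hφ']
  · rw [hΘ'2, hφ']
  · rw [pow_one]
    exact (dvd_pow_self D' ha0).trans hD'1
  -- step 9
  · intro J hJtop
    obtain ⟨n', rfl⟩ : ∃ n', n = n' + 1 := ⟨n - 1, by have := j.2; omega⟩
    unfold Equising
    left
    refine ⟨fun hle => ?_, hD's⟩
    have e1 : pderiv _ j D' ∈ singIdeal D' := Ideal.subset_span (Or.inr ⟨j, rfl⟩)
    have e2 : IsUnit (pderiv (GenField (n' + 1) Ω) j D') := by
      rw [MvPowerSeries.isUnit_iff_constantCoeff]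
      exact isUnit_iff_ne_zero.2 hD'j
    have e3 := Ideal.eq_top_of_isUnit_mem _ (hle e1) e2
    rw [Ideal.radical_eq_top, Ideal.eq_top_iff_one, Ideal.mem_comap, map_one,
      ← Ideal.eq_top_iff_one] at e3
    apply hJtop
    have e4 := comap_map_map (incl (n' + 1) Ω) J
    rw [e3, Ideal.comap_top] at e4
    exact e4.symm

end H85.Zar
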